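import Pool.Agent.H31.Comm.LSG

/-!
Balls, roots of growth functions, and finite sets of subexponential growth.
-/

set_option autoImplicit false

open scoped Pointwise Topology
open Filter

namespace H31.Comm

variable {K : Type*} [Group K]

/-- products of at most `n` factors from `S ∪ S⁻¹` -/
def Bal (S : Set K) (n : ℕ) : Set K :=
  {g : K | ∃ l : List K, l.length ≤ n ∧ (∀ x ∈ l, x ∈ S ∨ x⁻¹ ∈ S) ∧ l.prod = g}

theorem bal_eq [DecidableEq K] (S : Finset K) (n : ℕ) :
    Bal (S : Set K) n = (((insert 1 (S ∪ S⁻¹)) ^ n : Finset K) : Set K) := by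
  have hmem : ∀ x : K, x ∈ S ∨ x⁻¹ ∈ S → x ∈ insert 1 (S ∪ S⁻¹) := by
    intro x hx
    rw [Finset.mem_insert, Finset.mem_union, Finset.mem_inv']
    exact Or.inr hx
  ext g
  constructor
  · rintro ⟨l, hl, hS, rfl⟩
    have h1 : l.prod ∈ (insert 1 (S ∪ S⁻¹)) ^ l.length := by
      clear hl
      induction l with
      | nil => simp
      | cons x l ih =>
        rw [List.prod_cons, List.length_cons, pow_succ']
        exact Finset.mul_mem_mul (hmem x (hS x (by simp))) (ih (fun y hy => hS y (by simp [hy])))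
    exact Finset.pow_subset_pow_right (Finset.mem_insert_self _ _) hl h1
  · intro hg
    rw [Finset.mem_coe] at hg
    induction n generalizing g with
    | zero =>
      rw [pow_zero, Finset.mem_one] at hg
      exact ⟨[], by simp, by simp, by simp [hg]⟩
    | succ n ih =>
      rw [pow_succ', Finset.mem_mul] at hg
      obtain ⟨x, hx, y, hy, rfl⟩ := hg
      obtain ⟨l, hl, hS, rfl⟩ := ih y hy
      rw [Finset.mem_insert, Finset.mem_union, Finset.mem_inv'] at hx
      rcases hx with rfl | hx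
      · exact ⟨l, by omega, hS, by simp⟩
      · refine ⟨x :: l, by simpa using hl, ?_, by simp⟩
        intro z hz
        rw [List.mem_cons] at hz
        rcases hz with rfl | hz
        · exact hx
        · exact hS z hz

theorem card_bal [DecidableEq K] (S : Finset K) (n : ℕ) :
    Nat.card (Bal (S : Set K) n) = ((insert 1 (S ∪ S⁻¹)) ^ n : Finset K).card := by
  rw [bal_eq, Nat.card_eq_card_toFinset, Finset.toFinset_coe]

theorem tendsto_iff_sub [DecidableEq K] (S : Finset K) :
    Tendsto (fun n : ℕ => ((Nat.card (Bal (S : Set K) n) : ℕ) : ℝ) ^ (1 / (n : ℝ))) atTop (𝓝 1) ↔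
      Sub (insert 1 (S ∪ S⁻¹)) := by
  set R : Finset K := insert 1 (S ∪ S⁻¹) with hR
  have hpos : ∀ n, 1 ≤ (((R ^ n).card : ℕ) : ℝ) := by
    intro n
    have h1 : (1 : K) ∈ R ^ n := Finset.one_mem_pow (Finset.mem_insert_self _ _)
    exact_mod_cast Finset.card_pos.2 ⟨1, h1⟩
  simp only [card_bal, ← hR]
  constructor
  · intro h c hc
    have h1 := h.eventually (gt_mem_nhds hc)
    rw [eventually_atTop] at h1
    obtain ⟨N, hN⟩ := h1
    have h2 : ∀ n, N + 1 ≤ n → (((R ^ n).card : ℕ) : ℝ) ≤ c ^ n := by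
      intro n hn
      have h3 := hN n (by omega)
      have hn0 : (n : ℝ) ≠ 0 := by
        have : 0 < n := by omega
        positivity
      have h4 : ((((R ^ n).card : ℕ) : ℝ) ^ (1 / (n : ℝ))) ^ n = (((R ^ n).card : ℕ) : ℝ) := by
        rw [← Real.rpow_natCast, ← Real.rpow_mul (by positivity), one_div_mul_cancel hn0,
          Real.rpow_one]
      rw [← h4]
      exact pow_le_pow_left₀ (by positivity) h3.le n
    refine ⟨1 + ∑ m ∈ Finset.range (N + 1), (((R ^ m).card : ℕ) : ℝ), fun n => ?_⟩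
    have hcn : 1 ≤ c ^ n := one_le_pow₀ hc.le
    have hs : 0 ≤ ∑ m ∈ Finset.range (N + 1), (((R ^ m).card : ℕ) : ℝ) :=
      Finset.sum_nonneg (fun _ _ => by positivity)
    by_cases hn : N + 1 ≤ n
    · refine (h2 n hn).trans ?_
      nlinarith
    · have h3 : (((R ^ n).card : ℕ) : ℝ) ≤ ∑ m ∈ Finset.range (N + 1), (((R ^ m).card : ℕ) : ℝ) :=
        Finset.single_le_sum (f := fun m => (((R ^ m).card : ℕ) : ℝ))
          (fun _ _ => by positivity) (Finset.mem_range.2 (by omega))
      nlinarith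
  · intro h
    rw [Metric.tendsto_atTop]
    intro ε hε
    obtain ⟨C, hC⟩ := h (1 + ε / 2) (by linarith)
    have hC1 : 1 ≤ C := by
      have := hC 0
      have h1 := hpos 0
      simp only [pow_zero, mul_one] at this h1
      linarith
    have h1 : Tendsto (fun n : ℕ => C ^ (1 / (n : ℝ)) * (1 + ε / 2)) atTop
        (𝓝 (C ^ (0 : ℝ) * (1 + ε / 2))) := by
      apply Tendsto.mul_const
      have h2 : Tendsto (fun n : ℕ => 1 / (n : ℝ)) atTop (𝓝 0) := tendsto_one_div_atTop_nhds_zero_nat
      exact (Real.continuousAt_const_rpow (by linarith)).tendsto.comp h2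
    rw [Real.rpow_zero, one_mul] at h1
    have h2 := h1.eventually (gt_mem_nhds (show 1 + ε / 2 < 1 + ε by linarith))
    rw [eventually_atTop] at h2
    obtain ⟨N, hN⟩ := h2
    refine ⟨N + 1, fun n hn => ?_⟩
    have h3 := hN n (by omega)
    have hn0 : (n : ℝ) ≠ 0 := by
      have : 0 < n := by omega
      positivity
    have h4 : (((R ^ n).card : ℕ) : ℝ) ^ (1 / (n : ℝ)) ≤ C ^ (1 / (n : ℝ)) * (1 + ε / 2) := by
      calc (((R ^ n).card : ℕ) : ℝ) ^ (1 / (n : ℝ)) ≤ (C * (1 + ε / 2) ^ n) ^ (1 / (n : ℝ)) :=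
            Real.rpow_le_rpow (by positivity) (hC n) (by positivity)
        _ = C ^ (1 / (n : ℝ)) * (((1 + ε / 2) ^ n) ^ (1 / (n : ℝ))) :=
            Real.mul_rpow (by linarith) (by positivity)
        _ = C ^ (1 / (n : ℝ)) * (1 + ε / 2) := by
            rw [← Real.rpow_natCast, ← Real.rpow_mul (by positivity), mul_one_div_cancel hn0,
              Real.rpow_one]
    have h5 : 1 ≤ (((R ^ n).card : ℕ) : ℝ) ^ (1 / (n : ℝ)) :=
      Real.one_le_rpow (hpos n) (by positivity)
    rw [Real.dist_eq, abs_of_nonneg (by linarith)]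
    linarith

theorem sub_iff_all [DecidableEq K] :
    (∀ S : Finset K,
      Tendsto (fun n : ℕ => ((Nat.card (Bal (S : Set K) n) : ℕ) : ℝ) ^ (1 / (n : ℝ))) atTop
        (𝓝 1)) ↔ ∀ S : Finset K, Sub S := by
  constructor
  · intro h S
    refine ((tendsto_iff_sub S).1 (h S)).mono ?_
    intro x hx
    rw [Finset.mem_insert, Finset.mem_union]
    exact Or.inr (Or.inl hx)
  · intro h S
    exact (tendsto_iff_sub S).2 (h _)

end H31.Comm
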