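import Pool.Agent.H31.Comm.LSG

/-!
Branch groups: growth of the group from the growth of rigid stabilizers.
-/

set_option autoImplicit false

open scoped Pointwise

namespace H31.Comm

variable {G V : Type*} [Group G] [MulAction G V]

/-- The rigid stabilizer of `v`: the elements which fix every vertex that is not `v` or a descendant of
`v`. -/
def ristG (parent : V → V) (v : V) : Subgroup G where
  carrier := {g | ∀ w, (∀ k, parent^[k] w ≠ v) → g • w = w}
  mul_mem' := by
    intro g h hg hh w hw
    rw [mul_smul, hh w hw, hg w hw]
  one_mem' := by
    intro w _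
    exact one_smul _ _
  inv_mem' := by
    intro g hg w hw
    rw [inv_smul_eq_iff]
    exact (hg w hw).symm

/-- `G` acts on the rooted tree with vertex set `V`, given by the maps `parent` and `level`, as a branch
group. -/
structure BranchAct (G : Type*) {V : Type*} [Group G] [MulAction G V] (root : V) (parent : V → V)
    (level : V → ℕ) : Prop where
  parent_root : parent root = root
  level_root : level root = 0
  level_parent : ∀ v, v ≠ root → level v = level (parent v) + 1
  children : ∀ v, {w | w ≠ root ∧ parent w = v}.Finite ∧ {w | w ≠ root ∧ parent w = v}.Nontrivial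
  smul_parent : ∀ (g : G) (v : V), g • parent v = parent (g • v)
  transitive : ∀ v w, level v = level w → ∃ g : G, g • v = w
  faithful : ∀ g : G, (∀ v : V, g • v = v) → g = 1
  finiteIndex : ∀ n, (⨆ (v : V) (_ : level v = n), (ristG parent v : Subgroup G)).FiniteIndex

variable {root : V} {parent : V → V} {level : V → ℕ}

theorem BranchAct.smul_root (h : BranchAct G root parent level) (g : G) : g • root = root := by
  by_contra hne
  have h1 := h.level_parent _ hne
  rw [← h.smul_parent, h.parent_root] at h1
  omega

theorem BranchAct.level_smul (h : BranchAct G root parent level) (g : G) (v : V) :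
    level (g • v) = level v := by
  obtain ⟨n, hn⟩ : ∃ n, level v = n := ⟨_, rfl⟩
  induction n generalizing v with
  | zero =>
    by_cases hv : v = root
    · rw [hv, h.smul_root]
    · have := h.level_parent v hv
      omega
  | succ n ih =>
    have hv : v ≠ root := by
      rintro rfl
      rw [h.level_root] at hn
      omega
    have hgv : g • v ≠ root := by
      intro h1
      apply hv
      have h2 : v = g⁻¹ • root := by rw [← h1, inv_smul_smul]
      rw [h2, h.smul_root]
    have h1 := h.level_parent v hv
    rw [h.level_parent _ hgv, ← h.smul_parent, ih (parent v) (by omega), h1]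

theorem BranchAct.iter_smul (h : BranchAct G root parent level) (g : G) (v : V) (k : ℕ) :
    parent^[k] (g • v) = g • parent^[k] v := by
  induction k with
  | zero => rfl
  | succ k ih => rw [Function.iterate_succ_apply', ih, Function.iterate_succ_apply', h.smul_parent]

theorem BranchAct.level_iter (h : BranchAct G root parent level) (v : V) (k : ℕ) (hk : k ≠ 0)
    (hv : level v = 1) : level (parent^[k] v) = 0 := by
  obtain ⟨m, rfl⟩ := Nat.exists_eq_succ_of_ne_zero hk
  have hvr : v ≠ root := by
    rintro rfl
    rw [h.level_root] at hv
    omega
  have h1 : level (parent v) = 0 := by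
    have := h.level_parent v hvr
    omega
  have h2 : parent v = root := by
    by_contra hne
    have := h.level_parent _ hne
    omega
  have h3 : ∀ m, parent^[m] root = root := by
    intro m
    induction m with
    | zero => rfl
    | succ m ih => rw [Function.iterate_succ_apply', ih, h.parent_root]
  rw [Function.iterate_succ_apply, h2, h3, h.level_root]

/-- a vertex lies below at most one vertex of level `1` -/
theorem BranchAct.unique (h : BranchAct G root parent level) {v w x : V} (hv : level v = 1)
    (hw : level w = 1) {k l : ℕ} (hk : parent^[k] x = v) (hl : parent^[l] x = w) : v = w := by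
  rcases lt_trichotomy k l with hlt | heq | hlt
  · obtain ⟨m, rfl⟩ := Nat.exists_eq_add_of_lt hlt
    rw [show k + m + 1 = (m + 1) + k by ring, Function.iterate_add_apply, hk] at hl
    have := h.level_iter v (m + 1) (by omega) hv
    rw [hl, hw] at this
    omega
  · subst heq
    rw [← hk, ← hl]
  · obtain ⟨m, rfl⟩ := Nat.exists_eq_add_of_lt hlt
    rw [show l + m + 1 = (m + 1) + l by ring, Function.iterate_add_apply, hl] at hk
    have := h.level_iter w (m + 1) (by omega) hw
    rw [hk, hv] at this
    omega

theorem BranchAct.rist_smul (h : BranchAct G root parent level) {v : V} (hv : level v = 1) {g : G}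
    (hg : g ∈ (ristG parent v : Subgroup G)) : g • v = v := by
  by_contra hne
  have h1 : g • (g • v) = g • v := by
    apply hg
    intro k hk
    have h2 : level (g • v) = 1 := by rw [h.level_smul, hv]
    exact hne (h.unique (x := g • v) h2 hv (k := 0) rfl hk)
  exact hne (smul_left_cancel g h1)

theorem BranchAct.rist_comm (h : BranchAct G root parent level) {v w : V} (hv : level v = 1)
    (hw : level w = 1) (hvw : v ≠ w) (a : G) (ha : a ∈ (ristG parent v : Subgroup G)) (b : G)
    (hb : b ∈ (ristG parent w : Subgroup G)) : a * b = b * a := by
  have key : ∀ {v w : V}, level v = 1 → level w = 1 → v ≠ w → ∀ a : G,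
      a ∈ (ristG parent v : Subgroup G) → ∀ b : G, b ∈ (ristG parent w : Subgroup G) → ∀ x : V,
      (∃ k, parent^[k] x = v) → (a * b) • x = (b * a) • x := by
    intro v w hv hw hvw a ha b hb x ⟨k, hk⟩
    have h1 : b • x = x := by
      apply hb
      intro l hl
      exact hvw (h.unique hv hw hk hl)
    have h2 : b • (a • x) = a • x := by
      apply hb
      intro l hl
      have hk' : parent^[k] (a • x) = v := by rw [h.iter_smul, hk, h.rist_smul hv ha]
      exact hvw (h.unique hv hw hk' hl)
    rw [mul_smul, mul_smul, h1, h2]
  have h1 : ∀ x : V, (a * b) • x = (b * a) • x := by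
    intro x
    by_cases hx : ∃ k, parent^[k] x = v
    · exact key hv hw hvw a ha b hb x hx
    · by_cases hx' : ∃ k, parent^[k] x = w
      · exact (key hw hv hvw.symm b hb a ha x hx').symm
      · push Not at hx hx'
        rw [mul_smul, mul_smul, ha x hx, hb x hx', ha x hx]
  have h2 : (b * a)⁻¹ * (a * b) = 1 := by
    apply h.faithful
    intro x
    rw [mul_smul, h1, inv_smul_smul]
  exact (inv_mul_eq_one.1 h2).symm

theorem BranchAct.rist_conj (h : BranchAct G root parent level) {v w : V} {g : G}
    (hg : g • v = w) (x : G) (hx : x ∈ (ristG parent w : Subgroup G)) :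
    g⁻¹ * x * g ∈ (ristG parent v : Subgroup G) := by
  intro u hu
  rw [mul_smul, mul_smul, inv_smul_eq_iff]
  apply hx
  intro k hk
  rw [h.iter_smul, ← hg] at hk
  exact hu k (smul_left_cancel g hk)

/-- In a branch group in which two commuting finite sets never both have exponential growth, all finite sets
have subexponential growth. -/
theorem BranchAct.sub [DecidableEq G] (h : BranchAct G root parent level)
    (hG : ∀ S T : Finset G, (∀ x ∈ S, ∀ y ∈ T, x * y = y * x) → Sub S ∨ Sub T) (S : Finset G) :
    Sub S := by
  classical
  obtain ⟨hfin, hnt⟩ := h.children root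
  have hlev : ∀ w, level w = 1 ↔ w ≠ root ∧ parent w = root := by
    intro w
    constructor
    · intro hw
      have hwr : w ≠ root := by
        rintro rfl
        rw [h.level_root] at hw
        omega
      refine ⟨hwr, ?_⟩
      by_contra hne
      have h1 := h.level_parent w hwr
      have h2 := h.level_parent _ hne
      omega
    · rintro ⟨h1, h2⟩
      rw [h.level_parent w h1, h2, h.level_root]
  obtain ⟨v, hv, w, hw, hvw⟩ := hnt
  have hv1 : level v = 1 := (hlev v).2 hv
  have hw1 : level w = 1 := (hlev w).2 hw
  have hsome : ∃ u, level u = 1 ∧ SubG (ristG parent u : Subgroup G) := by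
    by_contra hcon
    push Not at hcon
    have h1 := hcon v hv1
    have h2 := hcon w hw1
    unfold SubG at h1 h2
    push Not at h1 h2
    obtain ⟨A, hA, hA2⟩ := h1
    obtain ⟨B, hB, hB2⟩ := h2
    rcases hG A B (fun x hx y hy => h.rist_comm hv1 hw1 hvw x (hA x hx) y (hB y hy)) with h3 | h3
    · exact hA2 h3
    · exact hB2 h3
  obtain ⟨u, hu, hsub⟩ := hsome
  have hall : ∀ x : {x : V // level x = 1}, SubG (ristG parent x.1 : Subgroup G) := by
    rintro ⟨x, hx⟩
    obtain ⟨g, hg⟩ := h.transitive u x (by rw [hu, hx])
    exact hsub.conj g _ (fun y hy => h.rist_conj hg y hy)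
  haveI : Finite {x : V // level x = 1} := by
    have : {x : V | level x = 1} = {w | w ≠ root ∧ parent w = root} := by
      ext x
      exact hlev x
    have h2 : {x : V | level x = 1}.Finite := by rw [this]; exact hfin
    exact h2
  haveI : Fintype {x : V // level x = 1} := Fintype.ofFinite _
  have hsup := SubG.iSup (fun x : {x : V // level x = 1} => (ristG parent x.1 : Subgroup G))
    (by
      intro i j hij a ha b hb
      exact h.rist_comm i.2 j.2 (fun h => hij (Subtype.ext h)) a ha b hb) hall Finset.univ
  have heq : (⨆ i ∈ (Finset.univ : Finset {x : V // level x = 1}),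
      (ristG parent i.1 : Subgroup G)) =
      ⨆ (v : V) (_ : level v = 1), (ristG parent v : Subgroup G) := by
    simp only [Finset.mem_univ, iSup_pos]
    exact iSup_subtype
  rw [heq] at hsup
  haveI := h.finiteIndex 1
  exact hsup.finiteIndex S

end H31.Comm
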