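import Pool.Agent.H31.Comm.Main
import Pool.Agent.H31.Comm.Ball
import Pool.Agent.H31.Comm.BranchG
import Pool.Agent.H31.Supra.Main

/-!
Final theorems on supramenable groups.
-/

set_option autoImplicit false

open scoped Pointwise ENNReal

namespace H31.Comm

open H31.Supra

/-- supramenable groups -/
def Supra (G : Type*) [Group G] : Prop := ∀ A : Set G, A.Nonempty → HasMeasure A

theorem Supra.of_surjective {G H : Type*} [Group G] [Group H] (f : G →* H)
    (hf : Function.Surjective f) (hG : Supra G) : Supra H := by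
  intro A hA
  obtain ⟨x, hx⟩ := hA
  obtain ⟨y, rfl⟩ := hf x
  obtain ⟨μ, h0, hadd, hinv, h1⟩ := hG (f ⁻¹' A) ⟨y, hx⟩
  refine ⟨fun B => μ (f ⁻¹' B), by simpa using h0, ?_, ?_, h1⟩
  · intro B C hBC
    show μ (f ⁻¹' (B ∪ C)) = μ (f ⁻¹' B) + μ (f ⁻¹' C)
    rw [Set.preimage_union]
    exact hadd _ _ (hBC.preimage f)
  · intro h B
    obtain ⟨g, rfl⟩ := hf h
    have : f ⁻¹' (f g • B) = g • (f ⁻¹' B) := by
      ext z
      rw [Set.mem_preimage, Set.mem_smul_set_iff_inv_smul_mem, Set.mem_smul_set_iff_inv_smul_mem,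
        Set.mem_preimage, smul_eq_mul, smul_eq_mul, map_mul, map_inv]
    show μ (f ⁻¹' (f g • B)) = μ (f ⁻¹' B)
    rw [this, hinv]

theorem supra_unit {U : Type} [Group U] [Subsingleton U] : Supra U := by
  classical
  intro A hA
  have key : ∀ B : Set U, B.Nonempty → B = Set.univ := by
    intro B hB
    ext x
    obtain ⟨y, hy⟩ := hB
    simp [Subsingleton.elim x y, hy]
  refine ⟨fun B => if B.Nonempty then 1 else 0, ?_, ?_, ?_, ?_⟩
  · simp
  · intro B C hBC
    by_cases hB : B.Nonempty
    · have hC : ¬ C.Nonempty := by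
        intro hC
        rw [key B hB, key C hC] at hBC
        exact Set.disjoint_left.1 hBC (Set.mem_univ 1) (Set.mem_univ 1)
      have hBC' : (B ∪ C).Nonempty := hB.mono Set.subset_union_left
      simp only [if_pos hB, if_neg hC, if_pos hBC', add_zero]
    · rw [Set.not_nonempty_iff_eq_empty] at hB
      subst hB
      simp
  · intro g B
    have hg : g • B = B := by
      have hg : g = 1 := Subsingleton.elim _ _
      rw [hg, one_smul]
    simp only [hg]
  · simp only [if_pos hA]

variable {G H : Type*} [Group G] [Group H]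

/-- all finite subsets have subexponential growth -/
def LS (G : Type*) [Group G] : Prop :=
  ∀ S : Set G, S.Finite → ∀ c : ℝ, 1 < c → ∃ C : ℝ, ∀ n : ℕ, ((S ^ n).ncard : ℝ) ≤ C * c ^ n

theorem LS_iff [DecidableEq G] : LS G ↔ ∀ S : Finset G, Sub S := by
  have key : ∀ (S : Finset G) (n : ℕ), ((S : Set G) ^ n).ncard = (S ^ n).card := by
    intro S n
    rw [← Finset.coe_pow, Set.ncard_coe_finset]
  constructor
  · intro h S c hc
    obtain ⟨C, hC⟩ := h S S.finite_toSet c hc
    refine ⟨C, fun n => ?_⟩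
    rw [← key]
    exact hC n
  · intro h S hS c hc
    obtain ⟨C, hC⟩ := h hS.toFinset c hc
    refine ⟨C, fun n => ?_⟩
    have := hC n
    rw [← key, Set.Finite.coe_toFinset] at this
    exact this

theorem LS.supra (h : LS G) : Supra G := by
  have h1 : Supra (PUnit.{1} × G) := fun A hA => hasMeasure_prod supra_unit h A hA
  exact h1.of_surjective (MonoidHom.snd PUnit.{1} G) (fun x => ⟨(1, x), rfl⟩)

theorem sub_of_prod [DecidableEq G] [DecidableEq H] (h : Supra (G × H)) :
    (∀ S : Finset G, Sub S) ∨ (∀ T : Finset H, Sub T) := by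
  classical
  by_contra hcon
  push Not at hcon
  obtain ⟨⟨S, hS⟩, T, hT⟩ := hcon
  rcases sub_or_sub h (S.image (MonoidHom.inl G H)) (T.image (MonoidHom.inr G H)) (by
    intro x hx y hy
    obtain ⟨a, _, rfl⟩ := Finset.mem_image.1 hx
    obtain ⟨b, _, rfl⟩ := Finset.mem_image.1 hy
    simp) with h1 | h1
  · exact hS (h1.of_map _ (fun a b hab => (Prod.mk.inj hab).1))
  · exact hT (h1.of_map _ (fun a b hab => (Prod.mk.inj hab).2))

theorem supra_prod_iff : Supra (G × H) ↔ Supra G ∧ Supra H ∧ (LS G ∨ LS H) := by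
  classical
  constructor
  · intro h
    refine ⟨h.of_surjective (MonoidHom.fst G H) (fun x => ⟨(x, 1), rfl⟩),
      h.of_surjective (MonoidHom.snd G H) (fun x => ⟨(1, x), rfl⟩), ?_⟩
    rw [LS_iff, LS_iff]
    exact sub_of_prod h
  · rintro ⟨hG, hH, h | h⟩
    · have h1 : Supra (H × G) := fun A hA => hasMeasure_prod hH h A hA
      exact h1.of_surjective (MulEquiv.prodComm (M := H) (N := G)).toMonoidHom
        (MulEquiv.prodComm (M := H) (N := G)).surjective
    · exact fun A hA => hasMeasure_prod hG h A hA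

theorem LS_iff_supra_sq : LS G ↔ Supra (G × G) := by
  constructor
  · intro h
    exact supra_prod_iff.2 ⟨h.supra, h.supra, Or.inl h⟩
  · intro h
    exact (supra_prod_iff.1 h).2.2.elim id id

end H31.Comm
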