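import Pool.Agent.H31.Comm.Defs

/-!
JOB CS-AGR. Two states which agree except for the path of the level `j`.

PROOF. `Agr j S S'`: the stacks are `U ++ x :: D` and `U ++ y :: D` with `|D| = j`, and `x`, `y` differ only in the path, with equal
lengths.
`Agr.step`: cases `U = []` (and `D = []` or `D = z :: M`), `U = [u]`, `U = [u, v]`, `U = u :: v :: w :: U'`. The symbol `sym` contains the
flags rich/poor of the top level and of the second level (if it extends its path), so the backlogs change in the same way; the digits are
recorded except at a rich step of the level `j`. `U = []`: the top paths are extended (same richness by the symbol), the second level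
`z` is the same and gets the same digit (its flag `fb` is `false` since `M.length ≠ j`); if `z` gets backlog `0` the level `j` is popped,
against `j < length`. `U = [u]`: the top `u` is the same and gets the same digit (`M.length + 1 = j` is false, as `M = D` has length `j`); the second level is
`x`/`y`: same debt word; if it is `[]` both are extended with the same richness, otherwise both delete the last letter. If the
backlog is `0`, `u` is popped and its word goes to the head of `D.map pause` or to the base, the same for both. `U = [u, v]`: everything in `u`,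
`v` is the same; `x`, `y` pause; if `u` is popped its word is put on both debt words. Longer `U`: clear.
`Agr.inj`: same cases; the level `j` of the new states is `x'`, `y'`, `x' = y'` gives for the paths: extension:
`dig .. d.1 :: x.p = dig .. d'.1 :: y.p`, so `x.p = y.p`, thus `x = y` (all other fields are equal) and, if the node is rich, the digits are
equal since `dig = d`; if it is poor the digits are recorded in the symbol. If `x` is not extended: `x.p = y.p` directly, and the
digits are recorded in the symbol.
`Agr.eq_of_Z`: `ZL g (U ++ x :: D)` and `ZL g (U ++ y :: D)`: cancel the same factors on the right (induction on `U`), then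
`ZL g D * ev x.p * evl x.e = ZL g D * ev y.p * evl y.e` with `x.e = y.e`, so `ev x.p = ev y.p`, `x.c = y.c`, both paths are nodes (`LevOK.val`) of the same length,
so `Good.inj` gives `x.p = y.p`.
-/

set_option autoImplicit false
set_option linter.unusedSectionVars false

namespace H31.Comm

variable {K : Type*} [Group K] {q : ℕ}

/-- the levels differ only in the path, and the paths have the same length -/
structure Sim (x y : Lev K q) : Prop where
  c : x.c = y.c
  e : x.e = y.e
  b : x.b = y.b
  tau : x.tau = y.tau
  w : x.w = y.w
  ps : x.ps = y.ps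
  len : x.p.length = y.p.length

/-- the states agree except for the path of the level `j` -/
inductive Agr (j : ℕ) : St K q → St K q → Prop
  | mk (g : K) (U : List (Lev K q)) (x y : Lev K q) (D : List (Lev K q)) (hD : D.length = j)
      (h : Sim x y) : Agr j ⟨g, U ++ x :: D⟩ ⟨g, U ++ y :: D⟩

/-- symbols: (rich flag of the top, rich flag of the second level), (flags: rich step of the level `j`),
the two digits, erased at the rich step of the level `j` -/
abbrev Sy (q : ℕ) := (Bool × Bool) × (Bool × Bool) × (Fin q × Fin q)

/-- the symbol of one unit, marked level `j` -/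
def sym [NeZero q] (T : Bool → TD K q) (j : ℕ) (S : St K q) (d : Fin q × Fin q) : Sy q :=
  match S.L with
  | [] => ((false, false), (false, false), d)
  | [x] => (((T x.c).rich x.p, false), ((T x.c).rich x.p && decide (j = 0), false),
      (if (T x.c).rich x.p && decide (j = 0) then 0 else d.1, d.2))
  | x :: y :: M => (((T x.c).rich x.p, y.e.isEmpty && (T y.c).rich y.p),
      ((T x.c).rich x.p && decide (M.length + 1 = j),
        (y.e.isEmpty && (T y.c).rich y.p) && decide (M.length = j)),
      (if (T x.c).rich x.p && decide (M.length + 1 = j) then 0 else d.1,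
        if (y.e.isEmpty && (T y.c).rich y.p) && decide (M.length = j) then 0 else d.2))

variable [NeZero q] {T : Bool → TD K q} {F : Bool → Finset K}

theorem step_one (g : K) (x : Lev K q) (d : Fin q × Fin q) :
    H31.Comm.step T ⟨g, [x]⟩ d =
      if (x.ext' T d.1).b = 0 then ⟨g, [x.ext' T d.1]⟩
      else ⟨g, [Lev.new K q (!x.c), x.ext' T d.1]⟩ := rfl

theorem step_cons (g : K) (x y : Lev K q) (M : List (Lev K q)) (d : Fin q × Fin q) :
    H31.Comm.step T ⟨g, x :: y :: M⟩ d =
      if (y.slotb T d.2).b = 0 then
        ⟨addg ((T x.c).word (x.ext' T d.1).p) g M,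
          y.slotb T d.2 :: addL ((T x.c).word (x.ext' T d.1).p) (M.map Lev.pause)⟩
      else if (x.ext' T d.1).b = 0 then ⟨g, x.ext' T d.1 :: y.slotb T d.2 :: M.map Lev.pause⟩
      else ⟨g, Lev.new K q (!x.c) :: x.ext' T d.1 :: y.slotb T d.2 :: M.map Lev.pause⟩ := rfl

omit [NeZero q] in
theorem Sim.refl' (x : Lev K q) : Sim x x := ⟨rfl, rfl, rfl, rfl, rfl, rfl, rfl⟩

theorem Sim.ext_ {x y : Lev K q} (h : Sim x y) (d d' : Fin q)
    (hr : (T x.c).rich x.p = (T y.c).rich y.p) : Sim (x.ext' T d) (y.ext' T d') := by
  constructor
  · exact h.c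
  · exact h.e
  · simp only [Lev.ext', hr, h.b]
  · simp only [Lev.ext', h.tau]
  · simp only [Lev.ext', h.w, h.b]
  · exact h.ps
  · simp only [Lev.ext', List.length_cons, h.len]

omit [NeZero q] in
theorem Sim.pause_ {x y : Lev K q} (h : Sim x y) : Sim x.pause y.pause := by
  constructor
  · exact h.c
  · exact h.e
  · simp only [Lev.pause, h.b]
  · simp only [Lev.pause, h.tau]
  · simp only [Lev.pause, h.w, h.b]
  · simp only [Lev.pause, h.ps]
  · exact h.len

theorem slotb_nil {x : Lev K q} (h : x.e = []) (d : Fin q) : x.slotb T d = x.ext' T d := by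
  unfold Lev.slotb
  rw [h]

theorem slotb_cons {x : Lev K q} {a : K} {l : List K} (h : x.e = a :: l) (d : Fin q) :
    x.slotb T d =
      ⟨x.c, x.p, l, x.b + 1, x.tau + 1, x.w + (if x.b = 0 then 0 else 1), x.ps + 1⟩ := by
  unfold Lev.slotb
  rw [h]

theorem Sim.slotb_ {x y : Lev K q} (h : Sim x y) (d d' : Fin q)
    (hr : (x.e.isEmpty && (T x.c).rich x.p) = (y.e.isEmpty && (T y.c).rich y.p)) :
    Sim (x.slotb T d) (y.slotb T d') := by
  rcases he : x.e with _ | ⟨a, l⟩
  · have he' : y.e = [] := by rw [← h.e, he]
    rw [slotb_nil he, slotb_nil he']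
    apply h.ext_
    simpa [he, he'] using hr
  · have he' : y.e = a :: l := by rw [← h.e, he]
    rw [slotb_cons he, slotb_cons he']
    constructor
    · exact h.c
    · rfl
    · simp only [h.b]
    · simp only [h.tau]
    · simp only [h.w, h.b]
    · simp only [h.ps]
    · exact h.len

omit [NeZero q] in
theorem Agr.mk' {j : ℕ} {g : K} (U : List (Lev K q)) {x y : Lev K q} {D : List (Lev K q)}
    (hD : D.length = j) (h : Sim x y) : Agr j ⟨g, U ++ x :: D⟩ ⟨g, U ++ y :: D⟩ :=
  Agr.mk g U x y D hD h

omit [NeZero q] in
theorem length_addL (l : List K) (M : List (Lev K q)) : (addL l M).length = M.length := by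
  cases M <;> rfl

theorem Agr.step {j : ℕ} {S S' : St K q} (h : Agr j S S') (d d' : Fin q × Fin q)
    (hs : sym T j S d = sym T j S' d') (hj : j < (H31.Comm.step T S d).L.length) :
    Agr j (H31.Comm.step T S d) (H31.Comm.step T S' d') := by
  obtain ⟨g, U, x, y, D, hD, hsim⟩ := h
  rcases U with _ | ⟨u, _ | ⟨v, _ | ⟨w, U⟩⟩⟩
  · rcases D with _ | ⟨z, M⟩
    · -- only one level
      simp only [List.nil_append] at hs hj ⊢
      rw [step_one, step_one]
      simp only [sym, Prod.mk.injEq, and_true] at hs
      have hb := (hsim.ext_ d.1 d'.1 hs.1).b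
      have hc := hsim.c
      by_cases h0 : (x.ext' T d.1).b = 0
      · rw [if_pos h0, if_pos (hb ▸ h0)]
        exact Agr.mk' [] hD (hsim.ext_ d.1 d'.1 hs.1)
      · rw [if_neg h0, if_neg (hb ▸ h0), hc]
        exact Agr.mk' [_] hD (hsim.ext_ d.1 d'.1 hs.1)
    · -- top level is marked
      simp only [List.nil_append] at hs hj ⊢
      rw [step_cons] at hj ⊢
      rw [step_cons]
      have hD' : M.length + 1 = j := by simpa using hD
      have hMj : ¬ (M.length = j) := by omega
      simp only [sym, Prod.mk.injEq, hMj, decide_false, Bool.and_false] at hs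
      obtain ⟨⟨hs1, hs2⟩, -, -, hs4⟩ := hs
      have hs5 : d.2 = d'.2 := by simpa using hs4
      rw [← hs5]
      by_cases hz : (z.slotb T d.2).b = 0
      · rw [if_pos hz] at hj
        simp only [List.length_cons, length_addL, List.length_map] at hj
        omega
      · rw [if_neg hz, if_neg hz]
        have hb := (hsim.ext_ d.1 d'.1 hs1).b
        have hc := hsim.c
        by_cases h0 : (x.ext' T d.1).b = 0
        · rw [if_pos h0, if_pos (hb ▸ h0)]
          exact Agr.mk' [] (by simpa using hD') (hsim.ext_ d.1 d'.1 hs1)
        · rw [if_neg h0, if_neg (hb ▸ h0), hc]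
          exact Agr.mk' [_] (by simpa using hD') (hsim.ext_ d.1 d'.1 hs1)
  · -- second level is marked
    simp only [List.cons_append, List.nil_append] at hs hj ⊢
    rw [step_cons] at hj ⊢
    rw [step_cons]
    have hMj : ¬ (D.length + 1 = j) := by omega
    simp only [sym, Prod.mk.injEq, hMj, decide_false, Bool.and_false] at hs
    obtain ⟨⟨-, hs2⟩, -, hs3, -⟩ := hs
    have hs5 : d.1 = d'.1 := by simpa using hs3
    rw [← hs5]
    have hsl := hsim.slotb_ d.2 d'.2 hs2
    have hb := hsl.b
    by_cases h0 : (x.slotb T d.2).b = 0
    · rw [if_pos h0, if_pos (hb ▸ h0)]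
      exact Agr.mk' [] (by rw [length_addL, List.length_map, hD]) hsl
    · have h0' : ¬ (y.slotb T d'.2).b = 0 := by rw [← hb]; exact h0
      rw [if_neg h0, if_neg h0']
      by_cases h1 : (u.ext' T d.1).b = 0
      · rw [if_pos h1, if_pos h1]
        exact Agr.mk' [_] (by simpa using hD) hsl
      · rw [if_neg h1, if_neg h1]
        exact Agr.mk' [_, _] (by simpa using hD) hsl
  · -- third level is marked
    simp only [List.cons_append, List.nil_append] at hs hj ⊢
    rw [step_cons] at hj ⊢
    rw [step_cons]
    have hMj : ¬ ((x :: D).length + 1 = j) := by simp only [List.length_cons]; omega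
    have hMj' : ¬ ((x :: D).length = j) := by simp only [List.length_cons]; omega
    have hMk : ¬ ((y :: D).length + 1 = j) := by simp only [List.length_cons]; omega
    have hMk' : ¬ ((y :: D).length = j) := by simp only [List.length_cons]; omega
    simp only [sym, Prod.mk.injEq, hMj, hMj', hMk, hMk', decide_false, Bool.and_false] at hs
    obtain ⟨-, -, hs3, hs4⟩ := hs
    have hs5 : d.1 = d'.1 := by simpa using hs3
    have hs6 : d.2 = d'.2 := by simpa using hs4
    rw [← hs5, ← hs6]
    have hsl := hsim.pause_
    by_cases h0 : (v.slotb T d.2).b = 0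
    · rw [if_pos h0, if_pos h0]
      refine Agr.mk' [_] (by simpa using hD) ?_
      constructor
      · exact hsl.c
      · show _ ++ _ = _ ++ _
        rw [hsl.e]
      · exact hsl.b
      · exact hsl.tau
      · exact hsl.w
      · exact hsl.ps
      · exact hsl.len
    · rw [if_neg h0, if_neg h0]
      by_cases h1 : (u.ext' T d.1).b = 0
      · rw [if_pos h1, if_pos h1]
        exact Agr.mk' [_, _] (by simpa using hD) hsl
      · rw [if_neg h1, if_neg h1]
        exact Agr.mk' [_, _, _] (by simpa using hD) hsl
  · -- deep level is marked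
    simp only [List.cons_append] at hs hj ⊢
    rw [step_cons] at hj ⊢
    rw [step_cons]
    have hMj : ¬ ((w :: (U ++ x :: D)).length + 1 = j) := by
      simp only [List.length_cons, List.length_append]; omega
    have hMj' : ¬ ((w :: (U ++ x :: D)).length = j) := by
      simp only [List.length_cons, List.length_append]; omega
    have hMk : ¬ ((w :: (U ++ y :: D)).length + 1 = j) := by
      simp only [List.length_cons, List.length_append]; omega
    have hMk' : ¬ ((w :: (U ++ y :: D)).length = j) := by
      simp only [List.length_cons, List.length_append]; omega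
    simp only [sym, Prod.mk.injEq, hMj, hMj', hMk, hMk', decide_false, Bool.and_false] at hs
    obtain ⟨-, -, hs3, hs4⟩ := hs
    have hs5 : d.1 = d'.1 := by simpa using hs3
    have hs6 : d.2 = d'.2 := by simpa using hs4
    rw [← hs5, ← hs6]
    have hsl := hsim.pause_
    have hmap : ∀ t : Lev K q, (w :: (U ++ t :: D)).map Lev.pause =
        w.pause :: (U.map Lev.pause ++ t.pause :: D.map Lev.pause) := by
      intro t; simp
    rw [hmap, hmap]
    by_cases h0 : (v.slotb T d.2).b = 0
    · rw [if_pos h0, if_pos h0]
      exact Agr.mk' (_ :: _ :: U.map Lev.pause) (by simpa using hD) hsl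
    · rw [if_neg h0, if_neg h0]
      by_cases h1 : (u.ext' T d.1).b = 0
      · rw [if_pos h1, if_pos h1]
        exact Agr.mk' (_ :: _ :: _ :: U.map Lev.pause) (by simpa using hD) hsl
      · rw [if_neg h1, if_neg h1]
        exact Agr.mk' (_ :: _ :: _ :: _ :: U.map Lev.pause) (by simpa using hD) hsl

theorem Sim.eq {x y : Lev K q} (h : Sim x y) (hp : x.p = y.p) : x = y := by
  obtain ⟨h1, h2, h3, h4, h5, h6, -⟩ := h
  cases x; cases y
  simp_all

theorem ext_inj {x y : Lev K q} {d d' : Fin q} (h : x.ext' T d = y.ext' T d') :
    x.p = y.p ∧ (T x.c).dig x.p d = (T y.c).dig y.p d' := by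
  have h1 : (x.ext' T d).p = (y.ext' T d').p := by rw [h]
  simp only [Lev.ext', List.cons.injEq] at h1
  exact ⟨h1.2, h1.1⟩

theorem slotb_inj {x y : Lev K q} (hs : Sim x y) {d d' : Fin q}
    (h : x.slotb T d = y.slotb T d') :
    x.p = y.p ∧ (x.e = [] → (T x.c).dig x.p d = (T y.c).dig y.p d') := by
  rcases he : x.e with _ | ⟨a, l⟩
  · have he' : y.e = [] := by rw [← hs.e, he]
    rw [slotb_nil he, slotb_nil he'] at h
    exact ⟨(ext_inj h).1, fun _ => (ext_inj h).2⟩
  · have he' : y.e = a :: l := by rw [← hs.e, he]
    rw [slotb_cons he, slotb_cons he'] at h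
    have h1 := congrArg Lev.p h
    exact ⟨h1, fun h => by simp at h⟩

theorem pause_inj {x y : Lev K q} (h : x.pause.p = y.pause.p) : x.p = y.p := h

theorem digit_eq {x : Lev K q} {d d' : Fin q}
    (hd : (T x.c).dig x.p d = (T x.c).dig x.p d')
    (hr : (if (T x.c).rich x.p = true then 0 else d) =
      (if (T x.c).rich x.p = true then 0 else d')) : d = d' := by
  unfold TD.dig at hd
  cases h : (T x.c).rich x.p
  · simpa [h] using hr
  · simpa [h] using hd

theorem Agr.inj {j : ℕ} {S S' : St K q} (h : Agr j S S') (d d' : Fin q × Fin q)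
    (hs : sym T j S d = sym T j S' d') (hj : j < (H31.Comm.step T S d).L.length)
    (he : H31.Comm.step T S d = H31.Comm.step T S' d') : S = S' ∧ d = d' := by
  obtain ⟨g, U, x, y, D, hD, hsim⟩ := h
  rcases U with _ | ⟨u, _ | ⟨v, _ | ⟨w, U⟩⟩⟩
  · rcases D with _ | ⟨z, M⟩
    · -- only one level
      simp only [List.nil_append] at hs hj he ⊢
      rw [step_one, step_one] at he
      have hj0 : j = 0 := by simpa using hD.symm
      simp only [sym, Prod.mk.injEq, and_true, hj0, decide_true, Bool.and_true] at hs
      have hb := (hsim.ext_ d.1 d'.1 hs.1).b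
      have hx : x.ext' T d.1 = y.ext' T d'.1 := by
        by_cases h0 : (x.ext' T d.1).b = 0
        · have h0' : (y.ext' T d'.1).b = 0 := by rw [← hb]; exact h0
          rw [if_pos h0, if_pos h0'] at he
          simpa using he
        · have h0' : ¬ (y.ext' T d'.1).b = 0 := by rw [← hb]; exact h0
          rw [if_neg h0, if_neg h0'] at he
          simp only [St.mk.injEq, List.cons.injEq] at he
          exact he.2.2.1
      obtain ⟨h1, h2⟩ := ext_inj hx
      obtain rfl := hsim.eq h1
      exact ⟨rfl, Prod.ext (digit_eq h2 hs.2.2.1) hs.2.2.2⟩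
    · -- top level is marked
      simp only [List.nil_append] at hs hj he ⊢
      rw [step_cons] at hj
      rw [step_cons, step_cons] at he
      have hD' : M.length + 1 = j := by simpa using hD
      have hMj : ¬ (M.length = j) := by omega
      simp only [sym, Prod.mk.injEq, hMj, hD', decide_false, decide_true, Bool.and_false,
        Bool.and_true] at hs
      obtain ⟨⟨hs1, hs2⟩, -, hs3, hs4⟩ := hs
      have hs5 : d.2 = d'.2 := by simpa using hs4
      rw [← hs5] at he
      have hz : ¬ (z.slotb T d.2).b = 0 := by
        intro hz
        rw [if_pos hz] at hj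
        simp only [List.length_cons, length_addL, List.length_map] at hj
        omega
      rw [if_neg hz, if_neg hz] at he
      have hb := (hsim.ext_ d.1 d'.1 hs1).b
      have hx : x.ext' T d.1 = y.ext' T d'.1 := by
        by_cases h0 : (x.ext' T d.1).b = 0
        · have h0' : (y.ext' T d'.1).b = 0 := by rw [← hb]; exact h0
          rw [if_pos h0, if_pos h0'] at he
          simp only [St.mk.injEq, List.cons.injEq] at he
          exact he.2.1
        · have h0' : ¬ (y.ext' T d'.1).b = 0 := by rw [← hb]; exact h0
          rw [if_neg h0, if_neg h0'] at he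
          simp only [St.mk.injEq, List.cons.injEq] at he
          exact he.2.2.1
      obtain ⟨h1, h2⟩ := ext_inj hx
      obtain rfl := hsim.eq h1
      exact ⟨rfl, Prod.ext (digit_eq h2 hs3) hs5⟩
  · -- second level is marked
    simp only [List.cons_append, List.nil_append] at hs hj he ⊢
    rw [step_cons, step_cons] at he
    have hMj : ¬ (D.length + 1 = j) := by omega
    simp only [sym, Prod.mk.injEq, hD, decide_true, Bool.and_true] at hs
    obtain ⟨⟨-, hs2⟩, -, hs3, hs4⟩ := hs
    have hs5 : d.1 = d'.1 := by simpa using hs3
    rw [← hs5] at he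
    have hsl := hsim.slotb_ d.2 d'.2 hs2
    have hb := hsl.b
    have hx : x.slotb T d.2 = y.slotb T d'.2 := by
      by_cases h0 : (x.slotb T d.2).b = 0
      · have h0' : (y.slotb T d'.2).b = 0 := by rw [← hb]; exact h0
        rw [if_pos h0, if_pos h0'] at he
        simp only [St.mk.injEq, List.cons.injEq] at he
        exact he.2.1
      · have h0' : ¬ (y.slotb T d'.2).b = 0 := by rw [← hb]; exact h0
        rw [if_neg h0, if_neg h0'] at he
        by_cases h1 : (u.ext' T d.1).b = 0
        · rw [if_pos h1, if_pos h1] at he
          simp only [St.mk.injEq, List.cons.injEq] at he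
          exact he.2.2.1
        · rw [if_neg h1, if_neg h1] at he
          simp only [St.mk.injEq, List.cons.injEq] at he
          exact he.2.2.2.1
    obtain ⟨h1, h2⟩ := slotb_inj hsim hx
    obtain rfl := hsim.eq h1
    refine ⟨rfl, Prod.ext hs5 ?_⟩
    rcases hxe : x.e with _ | ⟨a, l⟩
    · refine digit_eq (h2 hxe) ?_
      simpa [hxe] using hs4
    · simpa [hxe] using hs4
  · -- third level is marked
    simp only [List.cons_append, List.nil_append] at hs hj he ⊢
    rw [step_cons, step_cons] at he
    have hMj : ¬ ((x :: D).length + 1 = j) := by simp only [List.length_cons]; omega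
    have hMj' : ¬ ((x :: D).length = j) := by simp only [List.length_cons]; omega
    have hMk : ¬ ((y :: D).length + 1 = j) := by simp only [List.length_cons]; omega
    have hMk' : ¬ ((y :: D).length = j) := by simp only [List.length_cons]; omega
    simp only [sym, Prod.mk.injEq, hMj, hMj', hMk, hMk', decide_false, Bool.and_false] at hs
    obtain ⟨-, -, hs3, hs4⟩ := hs
    have hs5 : d.1 = d'.1 := by simpa using hs3
    have hs6 : d.2 = d'.2 := by simpa using hs4
    rw [← hs5, ← hs6] at he
    have hx : x.p = y.p := by
      by_cases h0 : (v.slotb T d.2).b = 0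
      · rw [if_pos h0, if_pos h0] at he
        simp only [St.mk.injEq, List.cons.injEq, List.map_cons, addL, Lev.mk.injEq] at he
        exact he.2.2.1.2.1
      · rw [if_neg h0, if_neg h0] at he
        by_cases h1 : (u.ext' T d.1).b = 0
        · rw [if_pos h1, if_pos h1] at he
          simp only [St.mk.injEq, List.cons.injEq, List.map_cons] at he
          exact pause_inj (by rw [he.2.2.2.1])
        · rw [if_neg h1, if_neg h1] at he
          simp only [St.mk.injEq, List.cons.injEq, List.map_cons] at he
          exact pause_inj (by rw [he.2.2.2.2.1])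
    obtain rfl := hsim.eq hx
    exact ⟨rfl, Prod.ext hs5 hs6⟩
  · -- deep level is marked
    simp only [List.cons_append] at hs hj he ⊢
    rw [step_cons, step_cons] at he
    have hMj : ¬ ((w :: (U ++ x :: D)).length + 1 = j) := by
      simp only [List.length_cons, List.length_append]; omega
    have hMj' : ¬ ((w :: (U ++ x :: D)).length = j) := by
      simp only [List.length_cons, List.length_append]; omega
    have hMk : ¬ ((w :: (U ++ y :: D)).length + 1 = j) := by
      simp only [List.length_cons, List.length_append]; omega
    have hMk' : ¬ ((w :: (U ++ y :: D)).length = j) := by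
      simp only [List.length_cons, List.length_append]; omega
    simp only [sym, Prod.mk.injEq, hMj, hMj', hMk, hMk', decide_false, Bool.and_false] at hs
    obtain ⟨-, -, hs3, hs4⟩ := hs
    have hs5 : d.1 = d'.1 := by simpa using hs3
    have hs6 : d.2 = d'.2 := by simpa using hs4
    rw [← hs5, ← hs6] at he
    have hmap : ∀ t : Lev K q, (w :: (U ++ t :: D)).map Lev.pause =
        w.pause :: (U.map Lev.pause ++ t.pause :: D.map Lev.pause) := by
      intro t; simp
    rw [hmap, hmap] at he
    have hx : x.p = y.p := by
      by_cases h0 : (v.slotb T d.2).b = 0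
      · rw [if_pos h0, if_pos h0] at he
        simp only [St.mk.injEq, List.cons.injEq, addL, Lev.mk.injEq] at he
        have h1 := he.2.2.2
        have h2 := (List.append_cancel_left h1)
        exact pause_inj (by rw [(List.cons.inj h2).1])
      · rw [if_neg h0, if_neg h0] at he
        by_cases h1 : (u.ext' T d.1).b = 0
        · rw [if_pos h1, if_pos h1] at he
          simp only [St.mk.injEq, List.cons.injEq] at he
          have h2 := (List.append_cancel_left he.2.2.2.2)
          exact pause_inj (by rw [(List.cons.inj h2).1])
        · rw [if_neg h1, if_neg h1] at he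
          simp only [St.mk.injEq, List.cons.injEq] at he
          have h2 := (List.append_cancel_left he.2.2.2.2.2)
          exact pause_inj (by rw [(List.cons.inj h2).1])
    obtain rfl := hsim.eq hx
    exact ⟨rfl, Prod.ext hs5 hs6⟩

theorem ZL_cancel (g : K) (U L₁ L₂ : List (Lev K q))
    (h : ZL T g (U ++ L₁) = ZL T g (U ++ L₂)) : ZL T g L₁ = ZL T g L₂ := by
  induction U with
  | nil => exact h
  | cons u U ih =>
    simp only [List.cons_append, ZL] at h
    exact ih (mul_right_cancel (mul_right_cancel h))

theorem Agr.eq_of_Z (hT : ∀ c, (T c).Good (F c)) {j : ℕ} {S S' : St K q} (hS : WF T F S)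
    (hS' : WF T F S') (h : Agr j S S') (hZ : Z T S = Z T S') : S = S' := by
  obtain ⟨g, U, x, y, D, hD, hsim⟩ := h
  have h1 := ZL_cancel g U _ _ hZ
  simp only [ZL] at h1
  rw [hsim.e] at h1
  have h2 := mul_left_cancel (mul_right_cancel h1)
  have hx := hS.lev x (by simp)
  have hy := hS'.lev y (by simp)
  have hc := hsim.c
  have hvx := hx.val
  rw [hc] at h2 hvx
  have hp := (hT y.c).inj x.p y.p hvx hy.val hsim.len h2
  rw [hsim.eq hp]

end H31.Comm
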