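import Pool.Agent.H31.Comm.Wf

/-!
JOB CS-DICH. Backlogs and the dichotomy.

PROOF.
`step_facts`: if the level `j` is alive before and after one unit: its backlog `b` and number of rich steps `nr` satisfy
`b + 4 nr + 1 ≤ b' + 4 nr'` (in each unit the backlog becomes `b + 1` or, at a rich step, `b + 1 - 4` truncated), `nr ≤ nr'`, and the age grows by 1.
(Cases of the definition of `step`; `gt f j` of `M.map pause`, `addL l M`, and of the pushed list, whose new top level has index `≥` the old length, is not
the level `j`, because `j < S.L.length`.)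
`live_facts`: induction on the word (no use of `WF`).
`top_b`: `Top`.
`tj_le`: `tau = length + ps`, `length = nr + np` (`TD` lemma by induction), `16 np ≤ length`, `4 ps ≤ w`, `8 w ≤ tau`
(`WF.bounds`): `tau ≤ 2 nr`: `ps ≤ tau/32`, `np ≤ tau/16`, `nr = tau - ps - np ≥ tau/2`.
`dich`: induction on the word `w`. `[]`: `k` = index of the top level. Step `d :: v`: let `k` be as in the statement for `v`, `R = run T S v`,
`R' = step T R d`. The length of the stack changes by at most one in a unit.
(i) `k` is the top of `R`: no push and pop: `k` works again (first alternative). Push: `R'.L` has length `k + 2`, its top is a new level: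
`tj (k+1) R' = 0`, `nrj = 0`, and `bj k R' = 1` because `R` has `b = 0` at its top and the push only happens if the new backlog is not 0, so it is
`0 + 1`: second alternative with `v := []`, `u := d :: v`. Pop: `R'.L` has length `k` with `k ≥ 1`; the level `k - 1` is alive all the time
(`Live` for a smaller index follows from `Live` for a larger one: `live_anti`), and it is the top of `R'`; `S.L.length ≤ k + 1 + |v| = (k-1) + 1 + |d :: v|`.
(ii) second alternative for `v = v₁ ++ u`: if `k + 1 < R'.L.length`: the same with `d :: v₁`. Otherwise `R'.L.length = k + 1` (the length drops by at most one and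
was `> k + 1` by `Live (k+1)`), first alternative; `Live T k S (d :: v)` holds. Use `run_append`.
-/

set_option autoImplicit false
set_option linter.unusedSectionVars false

namespace H31.Comm

variable {K : Type*} [Group K] {q : ℕ} [NeZero q] {T : Bool → TD K q} {F : Bool → Finset K}

theorem gt_map (f : Lev K q → ℕ) (h : Lev K q → Lev K q) (k : ℕ) (hf : ∀ x, f (h x) = f x + k)
    (j : ℕ) (M : List (Lev K q)) (hj : j < M.length) : gt f j (M.map h) = gt f j M + k := by
  induction M with
  | nil => simp at hj
  | cons x M ih =>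
    simp only [List.map_cons, gt, List.length_map]
    by_cases h1 : M.length = j
    · simp [h1, hf]
    · simp only [h1, if_false]
      exact ih (by simp only [List.length_cons] at hj; omega)

theorem dlength_addL (l : List K) (M : List (Lev K q)) : (addL l M).length = M.length := by
  cases M <;> rfl

theorem gt_addL (f : Lev K q → ℕ) (hf : ∀ (z : Lev K q) (e : List K), f { z with e := e } = f z)
    (j : ℕ) (l : List K) (M : List (Lev K q)) : gt f j (addL l M) = gt f j M := by
  cases M with
  | nil => rfl
  | cons z M => simp [addL, gt, hf]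

theorem gt_exists (j : ℕ) (L : List (Lev K q)) (hj : j < L.length) :
    ∃ x ∈ L, ∀ f, gt f j L = f x := by
  induction L with
  | nil => simp at hj
  | cons x M ih =>
    by_cases h1 : M.length = j
    · exact ⟨x, by simp, fun f => by simp [gt, h1]⟩
    · obtain ⟨y, hy, hf⟩ := ih (by simp only [List.length_cons] at hj; omega)
      exact ⟨y, by simp [hy], fun f => by simp [gt, h1, hf]⟩

/-- progress of one level in one unit -/
def Adv (T : Bool → TD K q) (x x' : Lev K q) : Prop :=
  x.b + 4 * (T x.c).nr x.p + 1 ≤ x'.b + 4 * (T x'.c).nr x'.p ∧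
    (T x.c).nr x.p ≤ (T x'.c).nr x'.p ∧ x'.tau = x.tau + 1

theorem adv_ext (T : Bool → TD K q) (x : Lev K q) (d : Fin q) : Adv T x (x.ext' T d) := by
  refine ⟨?_, ?_, rfl⟩
  · simp only [Lev.ext', bk, TD.nr]
    split_ifs <;> omega
  · simp only [Lev.ext', TD.nr]
    omega

theorem adv_pause (T : Bool → TD K q) (x : Lev K q) : Adv T x x.pause := by
  refine ⟨?_, ?_, rfl⟩ <;> simp only [Lev.pause] <;> omega

theorem adv_slotb (T : Bool → TD K q) (x : Lev K q) (d : Fin q) : Adv T x (x.slotb T d) := by
  unfold Lev.slotb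
  split
  · exact adv_ext T x d
  · refine ⟨?_, ?_, rfl⟩
    · show x.b + 4 * (T x.c).nr x.p + 1 ≤ x.b + 1 + 4 * (T x.c).nr x.p
      omega
    · exact le_refl _

theorem adv_M (T : Bool → TD K q) (M : List (Lev K q)) (l : List K) (j : ℕ) (hj : j < M.length) :
    gt Lev.b j (addL l (M.map Lev.pause)) = gt Lev.b j M + 1 ∧
    gt (fun x => (T x.c).nr x.p) j (addL l (M.map Lev.pause)) =
      gt (fun x => (T x.c).nr x.p) j M ∧
    gt Lev.tau j (addL l (M.map Lev.pause)) = gt Lev.tau j M + 1 := by
  refine ⟨?_, ?_, ?_⟩
  · rw [gt_addL _ (fun z e => rfl)]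
    exact gt_map _ _ 1 (fun x => rfl) j M hj
  · rw [gt_addL _ (fun z e => rfl)]
    exact gt_map (fun x : Lev K q => (T x.c).nr x.p) Lev.pause 0 (fun x => rfl) j M hj
  · rw [gt_addL _ (fun z e => rfl)]
    exact gt_map _ _ 1 (fun x => rfl) j M hj

theorem adv_M' (T : Bool → TD K q) (M : List (Lev K q)) (j : ℕ) (hj : j < M.length) :
    gt Lev.b j (M.map Lev.pause) = gt Lev.b j M + 1 ∧
    gt (fun x => (T x.c).nr x.p) j (M.map Lev.pause) = gt (fun x => (T x.c).nr x.p) j M ∧
    gt Lev.tau j (M.map Lev.pause) = gt Lev.tau j M + 1 := by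
  refine ⟨?_, ?_, ?_⟩
  · exact gt_map _ _ 1 (fun x => rfl) j M hj
  · exact gt_map (fun x : Lev K q => (T x.c).nr x.p) Lev.pause 0 (fun x => rfl) j M hj
  · exact gt_map _ _ 1 (fun x => rfl) j M hj

theorem gt_ne (f : Lev K q → ℕ) (j : ℕ) (x : Lev K q) (M : List (Lev K q)) (h : M.length ≠ j) :
    gt f j (x :: M) = gt f j M := by
  simp [gt, h]

theorem gt_eq (f : Lev K q → ℕ) (j : ℕ) (x : Lev K q) (M : List (Lev K q)) (h : M.length = j) :
    gt f j (x :: M) = f x := by
  simp [gt, h]

/-- the three possible results of one unit -/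
theorem step_two (T : Bool → TD K q) (g : K) (x y : Lev K q) (M : List (Lev K q))
    (d : Fin q × Fin q) :
    (((y.slotb T d.2).b = 0) ∧ step T ⟨g, x :: y :: M⟩ d =
      ⟨addg ((T x.c).word (x.ext' T d.1).p) g M,
        y.slotb T d.2 :: addL ((T x.c).word (x.ext' T d.1).p) (M.map Lev.pause)⟩) ∨
    ((y.slotb T d.2).b ≠ 0 ∧ (x.ext' T d.1).b = 0 ∧ step T ⟨g, x :: y :: M⟩ d =
      ⟨g, x.ext' T d.1 :: y.slotb T d.2 :: M.map Lev.pause⟩) ∨
    ((y.slotb T d.2).b ≠ 0 ∧ (x.ext' T d.1).b ≠ 0 ∧ step T ⟨g, x :: y :: M⟩ d =
      ⟨g, Lev.new K q (!x.c) :: x.ext' T d.1 :: y.slotb T d.2 :: M.map Lev.pause⟩) := by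
  by_cases h1 : (y.slotb T d.2).b = 0
  · left
    refine ⟨h1, ?_⟩
    simp only [step]
    rw [if_pos h1]
  · right
    by_cases h2 : (x.ext' T d.1).b = 0
    · left
      refine ⟨h1, h2, ?_⟩
      simp only [step]
      rw [if_neg h1, if_pos h2]
    · right
      refine ⟨h1, h2, ?_⟩
      simp only [step]
      rw [if_neg h1, if_neg h2]

theorem dstep_one (T : Bool → TD K q) (g : K) (x : Lev K q) (d : Fin q × Fin q) :
    ((x.ext' T d.1).b = 0 ∧ step T ⟨g, [x]⟩ d = ⟨g, [x.ext' T d.1]⟩) ∨
    ((x.ext' T d.1).b ≠ 0 ∧ step T ⟨g, [x]⟩ d = ⟨g, [Lev.new K q (!x.c), x.ext' T d.1]⟩) := by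
  by_cases h2 : (x.ext' T d.1).b = 0
  · left
    refine ⟨h2, ?_⟩
    simp only [step]
    rw [if_pos h2]
  · right
    refine ⟨h2, ?_⟩
    simp only [step]
    rw [if_neg h2]

theorem facts_of_gt (T : Bool → TD K q) (S S' : St K q) (j : ℕ) (x x' : Lev K q)
    (h : ∀ f, gt f j S.L = f x) (h' : ∀ f, gt f j S'.L = f x') (ha : Adv T x x') :
    bj j S + 4 * nrj T j S + 1 ≤ bj j S' + 4 * nrj T j S' ∧
      nrj T j S ≤ nrj T j S' ∧ tj j S' = tj j S + 1 := by
  simp only [bj, nrj, tj, h, h']
  exact ha

theorem facts_of_M (T : Bool → TD K q) (S S' : St K q) (j : ℕ)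
    (h1 : gt Lev.b j S'.L = gt Lev.b j S.L + 1)
    (h2 : gt (fun x => (T x.c).nr x.p) j S'.L = gt (fun x => (T x.c).nr x.p) j S.L)
    (h3 : gt Lev.tau j S'.L = gt Lev.tau j S.L + 1) :
    bj j S + 4 * nrj T j S + 1 ≤ bj j S' + 4 * nrj T j S' ∧
      nrj T j S ≤ nrj T j S' ∧ tj j S' = tj j S + 1 := by
  simp only [bj, nrj, tj, h1, h2, h3]
  refine ⟨by omega, le_refl _, trivial⟩

theorem step_facts (S : St K q) (d : Fin q × Fin q) (j : ℕ) (h : j < S.L.length)
    (h' : j < (step T S d).L.length) :
    bj j S + 4 * nrj T j S + 1 ≤ bj j (step T S d) + 4 * nrj T j (step T S d) ∧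
      nrj T j S ≤ nrj T j (step T S d) ∧ tj j (step T S d) = tj j S + 1 := by
  obtain ⟨g, L⟩ := S
  match L, h, h' with
  | [], h, _ => simp at h
  | [x], h, _ =>
    have hj : j = 0 := by simpa using h
    subst hj
    rcases dstep_one T g x d with ⟨_, h2⟩ | ⟨_, h2⟩
    · refine facts_of_gt T _ _ 0 x (x.ext' T d.1) (fun f => gt_eq f 0 x [] rfl)
        (fun f => ?_) (adv_ext T x d.1)
      rw [h2]
      exact gt_eq f 0 _ [] rfl
    · refine facts_of_gt T _ _ 0 x (x.ext' T d.1) (fun f => gt_eq f 0 x [] rfl)
        (fun f => ?_) (adv_ext T x d.1)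
      rw [h2]
      show gt f 0 [Lev.new K q (!x.c), x.ext' T d.1] = _
      rw [gt_ne _ _ _ _ (by simp)]
      exact gt_eq f 0 _ [] rfl
  | x :: y :: M, h, h' =>
    simp only [List.length_cons] at h
    have hx : j ≠ M.length + 1 → ∀ f, gt f j (x :: y :: M) = gt f j (y :: M) := by
      intro hj f
      exact gt_ne f j x (y :: M) (by simp only [List.length_cons]; omega)
    have hy : j = M.length → ∀ f, gt f j (x :: y :: M) = f y := by
      intro hj f
      rw [hx (by omega), gt_eq f j y M hj.symm]
    have hx1 : j = M.length + 1 → ∀ f, gt f j (x :: y :: M) = f x := by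
      intro hj f
      exact gt_eq f j x (y :: M) (by simp only [List.length_cons]; omega)
    have hM : j < M.length → ∀ f, gt f j (x :: y :: M) = gt f j M := by
      intro hj f
      rw [hx (by omega), gt_ne f j y M (by omega)]
    rcases step_two T g x y M d with ⟨_, h2⟩ | ⟨_, _, h2⟩ | ⟨_, _, h2⟩
    · rw [h2] at h' ⊢
      simp only [List.length_cons, dlength_addL, List.length_map] at h'
      rcases Nat.lt_or_ge j M.length with hj | hj
      · obtain ⟨a1, a2, a3⟩ := adv_M T M ((T x.c).word (x.ext' T d.1).p) j hj
        refine facts_of_M T _ _ j ?_ ?_ ?_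
        · show gt Lev.b j (_ :: _) = gt Lev.b j (_ :: _) + 1
          rw [hM hj, gt_ne _ _ _ _ (by simp only [dlength_addL, List.length_map]; omega), a1]
        · show gt _ j (_ :: _) = gt _ j (_ :: _)
          rw [hM hj, gt_ne _ _ _ _ (by simp only [dlength_addL, List.length_map]; omega), a2]
        · show gt Lev.tau j (_ :: _) = gt Lev.tau j (_ :: _) + 1
          rw [hM hj, gt_ne _ _ _ _ (by simp only [dlength_addL, List.length_map]; omega), a3]
      · have hj' : j = M.length := by omega
        refine facts_of_gt T _ _ j y (y.slotb T d.2) (fun f => hy hj' f) (fun f => ?_)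
          (adv_slotb T y d.2)
        exact gt_eq f j _ _ (by simp only [dlength_addL, List.length_map]; omega)
    · rw [h2]
      rcases Nat.lt_or_ge j M.length with hj | hj
      · obtain ⟨a1, a2, a3⟩ := adv_M' T M j hj
        refine facts_of_M T _ _ j ?_ ?_ ?_
        · show gt Lev.b j (_ :: _ :: _) = gt Lev.b j (_ :: _) + 1
          rw [hM hj, gt_ne _ _ _ _ (by simp only [List.length_cons, List.length_map]; omega),
            gt_ne _ _ _ _ (by simp only [List.length_map]; omega), a1]
        · show gt _ j (_ :: _ :: _) = gt _ j (_ :: _)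
          rw [hM hj, gt_ne _ _ _ _ (by simp only [List.length_cons, List.length_map]; omega),
            gt_ne _ _ _ _ (by simp only [List.length_map]; omega), a2]
        · show gt Lev.tau j (_ :: _ :: _) = gt Lev.tau j (_ :: _) + 1
          rw [hM hj, gt_ne _ _ _ _ (by simp only [List.length_cons, List.length_map]; omega),
            gt_ne _ _ _ _ (by simp only [List.length_map]; omega), a3]
      · rcases Nat.lt_or_ge M.length j with hj2 | hj2
        · have hj' : j = M.length + 1 := by omega
          refine facts_of_gt T _ _ j x (x.ext' T d.1) (fun f => hx1 hj' f) (fun f => ?_)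
            (adv_ext T x d.1)
          exact gt_eq f j _ _ (by simp only [List.length_cons, List.length_map]; omega)
        · have hj' : j = M.length := by omega
          refine facts_of_gt T _ _ j y (y.slotb T d.2) (fun f => hy hj' f) (fun f => ?_)
            (adv_slotb T y d.2)
          show gt f j (_ :: _ :: _) = _
          rw [gt_ne _ _ _ _ (by simp only [List.length_cons, List.length_map]; omega)]
          exact gt_eq f j _ _ (by simp only [List.length_map]; omega)
    · rw [h2]
      rcases Nat.lt_or_ge j M.length with hj | hj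
      · obtain ⟨a1, a2, a3⟩ := adv_M' T M j hj
        refine facts_of_M T _ _ j ?_ ?_ ?_
        · show gt Lev.b j (_ :: _ :: _ :: _) = gt Lev.b j (_ :: _) + 1
          rw [hM hj, gt_ne _ _ _ _ (by simp only [List.length_cons, List.length_map]; omega),
            gt_ne _ _ _ _ (by simp only [List.length_cons, List.length_map]; omega),
            gt_ne _ _ _ _ (by simp only [List.length_map]; omega), a1]
        · show gt _ j (_ :: _ :: _ :: _) = gt _ j (_ :: _)
          rw [hM hj, gt_ne _ _ _ _ (by simp only [List.length_cons, List.length_map]; omega),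
            gt_ne _ _ _ _ (by simp only [List.length_cons, List.length_map]; omega),
            gt_ne _ _ _ _ (by simp only [List.length_map]; omega), a2]
        · show gt Lev.tau j (_ :: _ :: _ :: _) = gt Lev.tau j (_ :: _) + 1
          rw [hM hj, gt_ne _ _ _ _ (by simp only [List.length_cons, List.length_map]; omega),
            gt_ne _ _ _ _ (by simp only [List.length_cons, List.length_map]; omega),
            gt_ne _ _ _ _ (by simp only [List.length_map]; omega), a3]
      · rcases Nat.lt_or_ge M.length j with hj2 | hj2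
        · have hj' : j = M.length + 1 := by omega
          refine facts_of_gt T _ _ j x (x.ext' T d.1) (fun f => hx1 hj' f) (fun f => ?_)
            (adv_ext T x d.1)
          show gt f j (_ :: _ :: _) = _
          rw [gt_ne _ _ _ _ (by simp only [List.length_cons, List.length_map]; omega)]
          exact gt_eq f j _ _ (by simp only [List.length_cons, List.length_map]; omega)
        · have hj' : j = M.length := by omega
          refine facts_of_gt T _ _ j y (y.slotb T d.2) (fun f => hy hj' f) (fun f => ?_)
            (adv_slotb T y d.2)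
          show gt f j (_ :: _ :: _ :: _) = _
          rw [gt_ne _ _ _ _ (by simp only [List.length_cons, List.length_map]; omega),
            gt_ne _ _ _ _ (by simp only [List.length_cons, List.length_map]; omega)]
          exact gt_eq f j _ _ (by simp only [List.length_map]; omega)

theorem live_length (S : St K q) (j : ℕ) (w : List (Fin q × Fin q))
    (h : Live T j S w) : j < S.L.length ∧ j < (run T S w).L.length := by
  induction w with
  | nil => exact ⟨h, h⟩
  | cons d w ih => exact ⟨(ih h.1).1, h.2⟩

theorem live_facts (S : St K q) (j : ℕ) (w : List (Fin q × Fin q)) (h : Live T j S w) :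
    bj j S + 4 * nrj T j S + w.length ≤ bj j (run T S w) + 4 * nrj T j (run T S w) ∧
      nrj T j S ≤ nrj T j (run T S w) ∧ tj j (run T S w) = tj j S + w.length := by
  induction w with
  | nil => exact ⟨le_refl _, le_refl _, rfl⟩
  | cons d w ih =>
    obtain ⟨a1, a2, a3⟩ := ih h.1
    obtain ⟨b1, b2, b3⟩ := step_facts (T := T) (run T S w) d j (live_length S j w h.1).2 h.2
    refine ⟨?_, ?_, ?_⟩
    · show _ ≤ bj j (step T (run T S w) d) + 4 * nrj T j (step T (run T S w) d)
      rw [List.length_cons]
      omega
    · show _ ≤ nrj T j (step T (run T S w) d)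
      omega
    · show tj j (step T (run T S w) d) = _
      rw [List.length_cons]
      omega

theorem live_anti (S : St K q) (i j : ℕ) (hij : i ≤ j) (w : List (Fin q × Fin q))
    (h : Live T j S w) : Live T i S w := by
  induction w with
  | nil => exact lt_of_le_of_lt hij h
  | cons d w ih => exact ⟨ih h.1, lt_of_le_of_lt hij h.2⟩

theorem live_append (S : St K q) (j : ℕ) (v u : List (Fin q × Fin q))
    (h : Live T j S (v ++ u)) : Live T j S u ∧ Live T j (run T S u) v := by
  induction v with
  | nil => exact ⟨h, (live_length S j u h).2⟩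
  | cons d v ih =>
    have h1 : Live T j S (v ++ u) ∧ j < (step T (run T S (v ++ u)) d).L.length := h
    refine ⟨(ih h1.1).1, (ih h1.1).2, ?_⟩
    rw [← run_append]
    exact h1.2

theorem top_b {S : St K q} (h : WF T F S) (j : ℕ) (hj : S.L.length = j + 1) : bj j S = 0 := by
  obtain ⟨g, L⟩ := S
  have ht := h.top
  cases L with
  | nil => simp at hj
  | cons x M =>
    simp only [List.length_cons, Nat.add_right_cancel_iff] at hj
    show gt Lev.b j (x :: M) = 0
    rw [gt_eq _ _ _ _ hj]
    exact ht.1

theorem length_nr_np (T : TD K q) (t : List (Fin q)) : t.length = T.nr t + T.np t := by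
  induction t with
  | nil => rfl
  | cons d t ih =>
    simp only [List.length_cons, TD.nr, TD.np]
    split_ifs <;> omega

theorem tj_le (hT : ∀ c, (T c).Good (F c)) {S : St K q} (h : WF T F S) (j : ℕ)
    (hj : j < S.L.length) : tj j S ≤ 2 * nrj T j S := by
  obtain ⟨x, hx, hf⟩ := gt_exists j S.L hj
  have h1 : tj j S = x.tau := hf _
  have h2 : nrj T j S = (T x.c).nr x.p := hf _
  have h3 := h.bounds hT x hx
  have h4 := h.lev x hx
  have h5 := h4.age
  have h6 := length_nr_np (T x.c) x.p
  have h7 := (hT x.c).dens x.p h4.val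
  omega

theorem WF.run (hT : ∀ c, (T c).Good (F c)) {S : St K q} (h : WF T F S)
    (w : List (Fin q × Fin q)) : WF T F (run T S w) := by
  induction w with
  | nil => exact h
  | cons d w ih => exact ih.step hT d

theorem step_len (T : Bool → TD K q) (S : St K q) (d : Fin q × Fin q) :
    S.L.length ≤ (step T S d).L.length + 1 := by
  obtain ⟨g, L⟩ := S
  match L with
  | [] => simp
  | [x] => simp
  | x :: y :: M =>
    rcases step_two T g x y M d with ⟨_, h2⟩ | ⟨_, _, h2⟩ | ⟨_, _, h2⟩ <;> rw [h2] <;>
      simp [dlength_addL]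

theorem ext_b_eq_one (T : Bool → TD K q) (x : Lev K q) (d : Fin q) (hx : x.b = 0)
    (h : (x.ext' T d).b ≠ 0) : (x.ext' T d).b = 1 := by
  simp only [Lev.ext', bk, hx] at h ⊢
  split_ifs at h ⊢ <;> omega

/-- the top level in one unit: stay, push or pop -/
theorem step_top {S : St K q} (h : WF T F S) (d : Fin q × Fin q) (k : ℕ)
    (hk : S.L.length = k + 1) :
    (step T S d).L.length = k + 1 ∨ (step T S d).L.length = k ∧ 1 ≤ k ∨
      ((step T S d).L.length = k + 2 ∧ tj (k + 1) (step T S d) = 0 ∧
        nrj T (k + 1) (step T S d) = 0 ∧ bj k (step T S d) = 1) := by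
  obtain ⟨g, L⟩ := S
  have ht := h.top
  match L, hk, ht with
  | [], hk, _ => simp at hk
  | [x], hk, ht =>
    have hk0 : k = 0 := by simpa using hk.symm
    subst hk0
    rcases dstep_one T g x d with ⟨_, h2⟩ | ⟨h1, h2⟩
    · left
      rw [h2]
      rfl
    · right; right
      rw [h2]
      refine ⟨rfl, ?_, ?_, ?_⟩
      · exact gt_eq _ _ _ _ rfl
      · exact gt_eq _ _ _ _ rfl
      · show gt Lev.b 0 [_, _] = 1
        rw [gt_ne _ _ _ _ (by simp)]
        exact (gt_eq Lev.b 0 (x.ext' T d.1) [] rfl).trans (ext_b_eq_one T x d.1 ht.1 h1)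
  | x :: y :: M, hk, ht =>
    simp only [List.length_cons, Nat.add_right_cancel_iff] at hk
    rcases step_two T g x y M d with ⟨_, h2⟩ | ⟨_, _, h2⟩ | ⟨_, h1, h2⟩
    · right; left
      rw [h2]
      refine ⟨?_, by omega⟩
      simp only [List.length_cons, dlength_addL, List.length_map]
      omega
    · left
      rw [h2]
      simp only [List.length_cons, List.length_map]
      omega
    · right; right
      rw [h2]
      refine ⟨?_, ?_, ?_, ?_⟩
      · simp only [List.length_cons, List.length_map]
        omega
      · exact gt_eq _ _ _ _ (by simp only [List.length_cons, List.length_map]; omega)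
      · exact gt_eq _ _ _ _ (by simp only [List.length_cons, List.length_map]; omega)
      · show gt Lev.b k (_ :: _ :: _) = 1
        rw [gt_ne _ _ _ _ (by simp only [List.length_cons, List.length_map]; omega),
          gt_eq _ _ _ _ (by simp only [List.length_cons, List.length_map]; omega)]
        exact ext_b_eq_one T x d.1 ht.1 h1

theorem dich (hT : ∀ c, (T c).Good (F c)) {S : St K q} (hS : WF T F S)
    (w : List (Fin q × Fin q)) :
    ∃ k, Live T k S w ∧ S.L.length ≤ k + 1 + w.length ∧
      ((H31.Comm.run T S w).L.length = k + 1 ∨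
        ∃ v u, w = v ++ u ∧ (H31.Comm.run T S u).L.length = k + 2 ∧
          tj (k + 1) (H31.Comm.run T S u) = 0 ∧ nrj T (k + 1) (H31.Comm.run T S u) = 0 ∧
          bj k (H31.Comm.run T S u) = 1 ∧ Live T (k + 1) (H31.Comm.run T S u) v) := by
  induction w with
  | nil =>
    have ht := hS.top
    obtain ⟨g, L⟩ := S
    cases L with
    | nil => exact absurd ht (by simp [Top])
    | cons x M =>
      refine ⟨M.length, ?_, ?_, Or.inl ?_⟩
      · show M.length < (x :: M).length
        simp
      · simp
      · show (x :: M).length = M.length + 1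
        simp
  | cons d v ih =>
    obtain ⟨k, hl, hlen, hcase⟩ := ih
    have hrun : H31.Comm.run T S (d :: v) = step T (H31.Comm.run T S v) d := rfl
    rcases hcase with htop | ⟨v₁, u, hv, h1, h2, h3, h4, h5⟩
    · rcases step_top (hS.run hT v) d k htop with h1 | ⟨h1, h2⟩ | ⟨h1, h2, h3, h4⟩
      · refine ⟨k, ⟨hl, by rw [h1]; omega⟩, ?_, Or.inl ?_⟩
        · rw [List.length_cons]
          omega
        · rw [hrun, h1]
      · refine ⟨k - 1, ⟨live_anti S (k - 1) k (by omega) v hl, by rw [h1]; omega⟩, ?_,
          Or.inl ?_⟩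
        · rw [List.length_cons]
          omega
        · rw [hrun, h1]
          omega
      · refine ⟨k, ⟨hl, by rw [h1]; omega⟩, ?_, Or.inr ⟨[], d :: v, rfl, ?_⟩⟩
        · rw [List.length_cons]
          omega
        · rw [hrun]
          refine ⟨h1, h2, h3, h4, ?_⟩
          show k + 1 < (step T (H31.Comm.run T S v) d).L.length
          rw [h1]
          omega
    · have hR : H31.Comm.run T S v = H31.Comm.run T (H31.Comm.run T S u) v₁ := by
        rw [hv, run_append]
      have h6 := (live_length _ _ _ h5).2
      rw [← hR] at h6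
      have h7 := step_len T (H31.Comm.run T S v) d
      by_cases h8 : k + 1 < (step T (H31.Comm.run T S v) d).L.length
      · refine ⟨k, ⟨hl, by omega⟩, ?_, Or.inr ⟨d :: v₁, u, by rw [hv]; rfl, h1, h2, h3, h4, h5, ?_⟩⟩
        · rw [List.length_cons]
          omega
        · rw [← hR]
          exact h8
      · refine ⟨k, ⟨hl, by omega⟩, ?_, Or.inl ?_⟩
        · rw [List.length_cons]
          omega
        · rw [hrun]
          omega

end H31.Comm
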