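import Pool.Agent.H31.Comm.Agr
import Pool.Agent.H31.Comm.Dich

/-!
JOB CS-COUNT. The weighted count of words with given final position.

PROOF. `om` gives the symbol the weight `q` for each flag (if the erased digit is `0`, otherwise `0`); for fixed first two flags
`∑ = (2 q)(2 q)`, so `sum_om` holds (`∑ over fa, a` of `(if fa then (if a = 0 then q else 0) else 1) = q + q`).
`om_sym`: if the level `j` is alive before and after the unit, the number of rich steps of its path grows by `1` exactly if the level is the top
level (index `M.length + 1`, or `0` for a single level) and rich, or the second level (index `M.length`) with empty debt and rich; these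
are the flags of `sym`; the recorded digit is then `0`. Otherwise `om = 1` and `nrj` does not change. (`nrj T j` uses `gt`; `gt` of
`M.map pause` and of `addL l M` is the same as for `M` for the function `nr p`; the new level is not the level `j`.)
`count`: for a word `w` let `tr w` be the list of the symbols (`tr (d :: w) = sym T j (run T S w) d :: tr w`). By `om_sym` and induction,
`q^(nrj (run T S w)) ≤ q^(nrj S) * ∏ om (tr w)` for `w` with `Live`. The map `tr` is injective on the words of length `n` with `Live` and
`Z (run T S w) = z`: for two such words with the same trace, `Agr j (run T S w) (run T S w')` by induction with `Agr.step` (starting with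
`Agr j S S`, which holds as the level `j < length` exists, with `Sim x x`); then `Agr.eq_of_Z` gives `run T S w = run T S w'`, and going
down with `Agr.inj` gives `w = w'` (induction: for words `d :: v`, `d' :: v'` with equal runs, `Agr.inj` gives `d = d'` and
`run T S v = run T S v'`). All states are `WF` by `WF.step`. Hence the sum is at most
`q^(nrj S) * ∑ over all lists of symbols of length n of ∏ om = q^(nrj S) * (∑ om)^n` (`sum_words`, induction on `n`).
-/

set_option autoImplicit false
set_option linter.unusedSectionVars false

namespace H31.Comm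

variable {K : Type*} [Group K] {q : ℕ}

/-- weight of a symbol -/
def om [NeZero q] (s : Sy q) : ℕ :=
  (if s.2.1.1 then (if s.2.2.1 = 0 then q else 0) else 1) *
    (if s.2.1.2 then (if s.2.2.2 = 0 then q else 0) else 1)

theorem sum_om [NeZero q] : ∑ s : Sy q, om s = 16 * q ^ 2 := by
  have h1 : ∀ b : Bool, ∑ a : Fin q, (if b then (if a = 0 then q else 0) else 1) = q := by
    intro b
    cases b
    · simp
    · simp
  have h2 : ∀ fa fb : Bool, ∑ p : Fin q × Fin q,
      (if fa then (if p.1 = 0 then q else 0) else 1) *
        (if fb then (if p.2 = 0 then q else 0) else 1) = q * q := by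
    intro fa fb
    rw [Fintype.sum_prod_type]
    exact (Finset.sum_mul_sum Finset.univ Finset.univ
      (fun a : Fin q => if fa then (if a = 0 then q else 0) else 1)
      (fun b : Fin q => if fb then (if b = 0 then q else 0) else 1)).symm.trans
      (by rw [h1, h1])
  calc ∑ s : Sy q, om s = ∑ r : Bool × Bool, ∑ f : Bool × Bool, ∑ p : Fin q × Fin q,
        (if f.1 then (if p.1 = 0 then q else 0) else 1) *
        (if f.2 then (if p.2 = 0 then q else 0) else 1) := by
        rw [Fintype.sum_prod_type]
        apply Finset.sum_congr rfl
        intro r _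
        rw [Fintype.sum_prod_type]
        rfl
    _ = ∑ r : Bool × Bool, ∑ f : Bool × Bool, q * q := by
        apply Finset.sum_congr rfl
        intro r _
        apply Finset.sum_congr rfl
        intro f _
        exact h2 f.1 f.2
    _ = 16 * q ^ 2 := by
        simp
        ring

variable [NeZero q] {T : Bool → TD K q} {F : Bool → Finset K}

theorem nr_ext (x : Lev K q) (d : Fin q) : (T (x.ext' T d).c).nr (x.ext' T d).p =
    (T x.c).nr x.p + if (T x.c).rich x.p then 1 else 0 := rfl

theorem nr_slotb (x : Lev K q) (d : Fin q) : (T (x.slotb T d).c).nr (x.slotb T d).p =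
    (T x.c).nr x.p + if x.e.isEmpty && (T x.c).rich x.p then 1 else 0 := by
  rcases he : x.e with _ | ⟨a, l⟩
  · rw [slotb_nil he, nr_ext]
    simp
  · rw [slotb_cons he]
    simp

theorem om_sym (j : ℕ) (S : St K q) (d : Fin q × Fin q) (h : j < S.L.length)
    (h' : j < (step T S d).L.length) :
    q ^ (nrj T j (step T S d)) ≤ q ^ (nrj T j S) * om (sym T j S d) := by
  have hq : 0 < q := Nat.pos_of_ne_zero (NeZero.ne q)
  obtain ⟨g, L⟩ := S
  match L, h, h' with
  | [], h, _ => simp at h
  | [x], h, _ =>
    have hj : j = 0 := by simpa using h
    subst hj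
    have h1 : nrj T 0 (step T ⟨g, [x]⟩ d) =
        (T x.c).nr x.p + if (T x.c).rich x.p then 1 else 0 := by
      rcases dstep_one T g x d with ⟨_, h2⟩ | ⟨_, h2⟩
      · rw [h2]
        exact nr_ext x d.1
      · rw [h2]
        exact nr_ext x d.1
    have h2 : nrj T 0 (⟨g, [x]⟩ : St K q) = (T x.c).nr x.p := rfl
    rw [h1, h2]
    simp only [sym, om, decide_true, Bool.and_true]
    cases hr : (T x.c).rich x.p
    · simp
    · simp [pow_succ]
  | x :: y :: M, h, h' =>
    simp only [List.length_cons] at h
    by_cases hj1 : j = M.length + 1
    · -- top level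
      have hj2 : ¬ (M.length = j) := by omega
      have hj3 : (y :: M).length = j := by simp [hj1]
      have h2 : nrj T j (⟨g, x :: y :: M⟩ : St K q) = (T x.c).nr x.p := gt_eq _ _ _ _ hj3
      have h1 : nrj T j (step T ⟨g, x :: y :: M⟩ d) =
          (T x.c).nr x.p + if (T x.c).rich x.p then 1 else 0 := by
        rcases step_two T g x y M d with ⟨_, h2⟩ | ⟨_, _, h2⟩ | ⟨_, _, h2⟩
        · rw [h2] at h'
          simp only [List.length_cons, dlength_addL, List.length_map] at h'
          omega
        · rw [h2]
          unfold nrj
          rw [gt_eq _ _ _ _ (by simp [hj1])]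
          exact nr_ext x d.1
        · rw [h2]
          unfold nrj
          rw [gt_ne _ _ _ _ (by simp [hj1]), gt_eq _ _ _ _ (by simp [hj1])]
          exact nr_ext x d.1
      rw [h1, h2]
      have hj4 : M.length + 1 = j := hj1.symm
      simp only [sym, om, hj2, hj4, decide_true, decide_false, Bool.and_true, Bool.and_false]
      cases hr : (T x.c).rich x.p
      · simp
      · simp [pow_succ]
    · by_cases hj2 : j = M.length
      · -- second level
        have hj3 : ¬ (M.length + 1 = j) := by omega
        have hj4 : M.length = j := hj2.symm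
        have h2 : nrj T j (⟨g, x :: y :: M⟩ : St K q) = (T y.c).nr y.p := by
          unfold nrj
          rw [gt_ne _ _ _ _ (by simp; omega), gt_eq _ _ _ _ hj4]
        have h1 : nrj T j (step T ⟨g, x :: y :: M⟩ d) =
            (T y.c).nr y.p + if y.e.isEmpty && (T y.c).rich y.p then 1 else 0 := by
          rcases step_two T g x y M d with ⟨_, h2⟩ | ⟨_, _, h2⟩ | ⟨_, _, h2⟩
          · rw [h2]
            unfold nrj
            rw [gt_eq _ _ _ _ (by simp [dlength_addL, hj2])]
            exact nr_slotb y d.2
          · rw [h2]
            unfold nrj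
            rw [gt_ne _ _ _ _ (by simp; omega), gt_eq _ _ _ _ (by simp [hj2])]
            exact nr_slotb y d.2
          · rw [h2]
            unfold nrj
            rw [gt_ne _ _ _ _ (by simp; omega), gt_ne _ _ _ _ (by simp; omega),
              gt_eq _ _ _ _ (by simp [hj2])]
            exact nr_slotb y d.2
        rw [h1, h2]
        simp only [sym, om, hj4, decide_true, Bool.and_true]
        cases hr : (y.e.isEmpty && (T y.c).rich y.p)
        · simp
        · simp [pow_succ]
      · -- deep level
        have hj3 : j < M.length := by omega
        have hj4 : ¬ (M.length + 1 = j) := by omega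
        have hj5 : ¬ (M.length = j) := by omega
        have h2 : nrj T j (⟨g, x :: y :: M⟩ : St K q) = gt (fun x => (T x.c).nr x.p) j M := by
          unfold nrj
          rw [gt_ne _ _ _ _ (by simp; omega), gt_ne _ _ _ _ (by omega)]
        have h1 : nrj T j (step T ⟨g, x :: y :: M⟩ d) = gt (fun x => (T x.c).nr x.p) j M := by
          rcases step_two T g x y M d with ⟨_, h2⟩ | ⟨_, _, h2⟩ | ⟨_, _, h2⟩
          · rw [h2]
            unfold nrj
            rw [gt_ne _ _ _ _ (by simp [dlength_addL]; omega)]
            exact (adv_M T M _ j hj3).2.1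
          · rw [h2]
            unfold nrj
            rw [gt_ne _ _ _ _ (by simp; omega), gt_ne _ _ _ _ (by simp; omega)]
            exact (adv_M' T M j hj3).2.1
          · rw [h2]
            unfold nrj
            rw [gt_ne _ _ _ _ (by simp; omega), gt_ne _ _ _ _ (by simp; omega),
              gt_ne _ _ _ _ (by simp; omega)]
            exact (adv_M' T M j hj3).2.1
        rw [h1, h2]
        simp only [sym, om, hj4, hj5, decide_false, Bool.and_false]
        simp

/-- the trace of a word -/
def trc (T : Bool → TD K q) (j : ℕ) (S : St K q) : List (Fin q × Fin q) → List (Sy q)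
  | [] => []
  | d :: w => sym T j (run T S w) d :: trc T j S w

theorem length_trc (j : ℕ) (S : St K q) (w : List (Fin q × Fin q)) :
    (trc T j S w).length = w.length := by
  induction w with
  | nil => rfl
  | cons d w ih => simp [trc, ih]

theorem weight_trc (j : ℕ) (S : St K q) (w : List (Fin q × Fin q)) (h : Live T j S w) :
    q ^ (nrj T j (run T S w)) ≤ q ^ (nrj T j S) * ((trc T j S w).map om).prod := by
  induction w with
  | nil => simp [run, trc]
  | cons d w ih =>
    have h1 := om_sym j (run T S w) d (live_length S j w h.1).2 h.2
    rw [run]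
    refine h1.trans ?_
    rw [trc, List.map_cons, List.prod_cons]
    calc q ^ nrj T j (run T S w) * om (sym T j (run T S w) d) ≤
          (q ^ nrj T j S * ((trc T j S w).map om).prod) * om (sym T j (run T S w) d) :=
          Nat.mul_le_mul_right _ (ih h.1)
      _ = _ := by ring

theorem exists_split (j : ℕ) (L : List (Lev K q)) (h : j < L.length) :
    ∃ U x D, L = U ++ x :: D ∧ D.length = j := by
  induction L with
  | nil => simp at h
  | cons y L ih =>
    by_cases hj : L.length = j
    · exact ⟨[], y, L, rfl, hj⟩
    · obtain ⟨U, x, D, h1, h2⟩ := ih (by simp only [List.length_cons] at h; omega)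
      exact ⟨y :: U, x, D, by rw [h1]; rfl, h2⟩

theorem agr_refl (j : ℕ) (S : St K q) (h : j < S.L.length) : Agr j S S := by
  obtain ⟨g, L⟩ := S
  obtain ⟨U, x, D, h1, h2⟩ := exists_split j L h
  subst h1
  exact Agr.mk g U x x D h2 (Sim.refl' x)

theorem agr_run (j : ℕ) (S : St K q) : ∀ w w' : List (Fin q × Fin q),
    trc T j S w = trc T j S w' → Live T j S w → Agr j (run T S w) (run T S w') := by
  intro w
  induction w with
  | nil =>
    intro w' h hl
    have : w' = [] := by
      rw [← List.length_eq_zero_iff, ← length_trc (T := T) j S w', ← h]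
      rfl
    subst this
    exact agr_refl j S hl
  | cons d w ih =>
    intro w' h hl
    cases w' with
    | nil => simp [trc] at h
    | cons d' w' =>
      rw [trc, trc, List.cons.injEq] at h
      exact (ih w' h.2 hl.1).step d d' h.1 hl.2

theorem trc_inj (j : ℕ) (S : St K q) : ∀ w w' : List (Fin q × Fin q),
    trc T j S w = trc T j S w' → Live T j S w → run T S w = run T S w' → w = w' := by
  intro w
  induction w with
  | nil =>
    intro w' h hl _
    have : w' = [] := by
      rw [← List.length_eq_zero_iff, ← length_trc (T := T) j S w', ← h]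
      rfl
    exact this.symm
  | cons d w ih =>
    intro w' h hl hr
    cases w' with
    | nil => simp [trc] at h
    | cons d' w' =>
      rw [trc, trc, List.cons.injEq] at h
      obtain ⟨h1, h2⟩ := (agr_run j S w w' h.2 hl.1).inj d d' h.1 hl.2 hr
      rw [ih w' h.2 hl.1 h1, h2]

theorem sum_prod_words (n : ℕ) :
    ∑ w ∈ words (Sy q) n, (w.map om).prod = (16 * q ^ 2) ^ n := by
  induction n with
  | zero => simp [words]
  | succ n ih =>
    rw [sum_words]
    simp only [List.map_cons, List.prod_cons]
    simp only [← Finset.mul_sum]
    rw [← Finset.sum_mul, ih, sum_om, pow_succ' (16 * q ^ 2) n]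

open Classical in
theorem count (hT : ∀ c, (T c).Good (F c)) {S : St K q} (hS : WF T F S) (j n : ℕ) (z : K) :
    ∑ w ∈ (words (Fin q × Fin q) n).filter (fun w => Live T j S w ∧ Z T (run T S w) = z),
      q ^ (nrj T j (run T S w)) ≤ q ^ (nrj T j S) * (16 * q ^ 2) ^ n := by
  set A := (words (Fin q × Fin q) n).filter (fun w => Live T j S w ∧ Z T (run T S w) = z) with hA
  have hinj : Set.InjOn (trc T j S) (A : Set (List (Fin q × Fin q))) := by
    intro w hw w' hw' h
    rw [Finset.mem_coe, hA, Finset.mem_filter] at hw hw'
    have h1 := agr_run j S w w' h hw.2.1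
    have h2 := h1.eq_of_Z hT (hS.run hT w) (hS.run hT w') (by rw [hw.2.2, hw'.2.2])
    exact trc_inj j S w w' h hw.2.1 h2
  calc ∑ w ∈ A, q ^ (nrj T j (run T S w)) ≤
        ∑ w ∈ A, q ^ (nrj T j S) * ((trc T j S w).map om).prod := by
        apply Finset.sum_le_sum
        intro w hw
        rw [hA, Finset.mem_filter] at hw
        exact weight_trc j S w hw.2.1
    _ = q ^ (nrj T j S) * ∑ t ∈ A.image (trc T j S), (t.map om).prod := by
        rw [Finset.sum_image hinj, Finset.mul_sum]
    _ ≤ q ^ (nrj T j S) * ∑ t ∈ words (Sy q) n, (t.map om).prod := by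
        apply Nat.mul_le_mul_left
        apply Finset.sum_le_sum_of_subset
        intro t ht
        obtain ⟨w, hw, rfl⟩ := Finset.mem_image.1 ht
        rw [hA, Finset.mem_filter, mem_words] at hw
        rw [mem_words, length_trc, hw.1]
    _ = _ := by rw [sum_prod_words]

end H31.Comm
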