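import Mathlib

/-!
Commuting finite sets of exponential growth (problems `MP_56153a_al`, `MP_5251ca_al`): definitions.

THEOREM. A supramenable group contains no two elementwise commuting finite sets which both have
exponential growth.

TREES. A tree over the group `K` with digits in `Fin q` is given by `T : TD K q`. Its nodes are lists of
digits (last digit first); a node `t` is rich or poor (`T.rich t`); a rich node has the `q` children `d :: t`,
a poor node has the single child `0 :: t`; the edge from `t` to `d :: t` carries the letter `T.lt t d`.
-/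

set_option autoImplicit false

namespace H31.Comm

/-- tree data -/
structure TD (K : Type*) (q : ℕ) where
  /-- is the node rich -/
  rich : List (Fin q) → Bool
  /-- the letter of the edge from `t` to `d :: t` -/
  lt : List (Fin q) → Fin q → K

namespace TD

variable {K : Type*} {q : ℕ} (T : TD K q)

/-- the digit which is used at the node `t` -/
def dig [NeZero q] (t : List (Fin q)) (d : Fin q) : Fin q := if T.rich t then d else 0

/-- the product of the letters on the path to the node -/
def ev [Group K] : List (Fin q) → K
  | [] => 1
  | d :: t => ev t * T.lt t d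

/-- the letters on the path to the node, last letter first -/
def word : List (Fin q) → List K
  | [] => []
  | d :: t => T.lt t d :: word t

/-- the lists of digits which are nodes of the tree -/
def Val [NeZero q] : List (Fin q) → Prop
  | [] => True
  | d :: t => Val t ∧ (T.rich t = false → d = 0)

/-- number of poor steps on the path -/
def np : List (Fin q) → ℕ
  | [] => 0
  | _ :: t => np t + if T.rich t then 0 else 1

/-- number of rich steps on the path -/
def nr : List (Fin q) → ℕ
  | [] => 0
  | _ :: t => nr t + if T.rich t then 1 else 0

/-- the tree has all letters in `F`, different nodes of the same level have different values, and on every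
path at most one sixteenth of the first `n` steps are poor -/
structure Good [Group K] [NeZero q] (F : Finset K) : Prop where
  letF : ∀ t d, T.Val t → T.lt t d ∈ F
  inj : ∀ s t, T.Val s → T.Val t → s.length = t.length → T.ev s = T.ev t → s = t
  dens : ∀ t, T.Val t → 16 * T.np t ≤ t.length

end TD

/-- value of a word (last letter first) -/
def evl {K : Type*} [Group K] : List K → K
  | [] => 1
  | x :: l => evl l * x

/-- One level of the stack: colour `c`, path `p` (node of the tree `T c`), debt word `e` (last letter first),
backlog `b`. Ghost variables: age `tau`, number `w` of units with `b > 0` at the start of the unit, number `ps` of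
units in which the path was not extended. -/
@[ext] structure Lev (K : Type*) (q : ℕ) where
  c : Bool
  p : List (Fin q)
  e : List K
  b : ℕ
  tau : ℕ
  w : ℕ
  ps : ℕ

/-- A state of the machine: base value `g` and the stack `L`, top level first. -/
@[ext] structure St (K : Type*) (q : ℕ) where
  g : K
  L : List (Lev K q)

variable {K : Type*} [Group K] {q : ℕ}

/-- backlog after one unit, `r` says whether a rich step was made -/
def bk (r : Bool) (b : ℕ) : ℕ := b + 1 - (if r then 4 else 0)

/-- the level extends its path by the digit `d` -/
def Lev.ext' [NeZero q] (T : Bool → TD K q) (x : Lev K q) (d : Fin q) : Lev K q :=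
  ⟨x.c, (T x.c).dig x.p d :: x.p, x.e, bk ((T x.c).rich x.p) x.b, x.tau + 1,
    x.w + (if x.b = 0 then 0 else 1), x.ps⟩

/-- the level pauses for one unit -/
def Lev.pause (x : Lev K q) : Lev K q :=
  ⟨x.c, x.p, x.e, x.b + 1, x.tau + 1, x.w + (if x.b = 0 then 0 else 1), x.ps + 1⟩

/-- the second level deletes the last letter of its debt word, or extends its path if there is no debt -/
def Lev.slotb [NeZero q] (T : Bool → TD K q) (x : Lev K q) (d : Fin q) : Lev K q :=
  match x.e with
  | [] => x.ext' T d
  | _ :: l => ⟨x.c, x.p, l, x.b + 1, x.tau + 1, x.w + (if x.b = 0 then 0 else 1), x.ps + 1⟩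

/-- a new level -/
def Lev.new (K : Type*) (q : ℕ) (c : Bool) : Lev K q := ⟨c, [], [], 0, 0, 0, 0⟩

/-- base value after a pop with word `l` -/
def addg (l : List K) (g : K) : List (Lev K q) → K
  | [] => g * evl l
  | _ :: _ => g

/-- lower levels after a pop with word `l` -/
def addL (l : List K) : List (Lev K q) → List (Lev K q)
  | [] => []
  | z :: M => { z with e := l ++ z.e } :: M

/-- One unit of the machine with the two digits `d`. -/
def step [NeZero q] (T : Bool → TD K q) (S : St K q) (d : Fin q × Fin q) : St K q :=
  match S.L with
  | [] => S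
  | [x] =>
    if (x.ext' T d.1).b = 0 then ⟨S.g, [x.ext' T d.1]⟩ else ⟨S.g, [Lev.new K q (!x.c), x.ext' T d.1]⟩
  | x :: y :: M =>
    if (y.slotb T d.2).b = 0 then
      ⟨addg ((T x.c).word (x.ext' T d.1).p) S.g M,
        y.slotb T d.2 :: addL ((T x.c).word (x.ext' T d.1).p) (M.map Lev.pause)⟩
    else if (x.ext' T d.1).b = 0 then ⟨S.g, x.ext' T d.1 :: y.slotb T d.2 :: M.map Lev.pause⟩
    else ⟨S.g, Lev.new K q (!x.c) :: x.ext' T d.1 :: y.slotb T d.2 :: M.map Lev.pause⟩

/-- running the machine on a word (last digits first) -/
def run [NeZero q] (T : Bool → TD K q) (S : St K q) : List (Fin q × Fin q) → St K q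
  | [] => S
  | d :: w => step T (run T S w) d

/-- value of a stack -/
def ZL (T : Bool → TD K q) (g : K) : List (Lev K q) → K
  | [] => g
  | x :: M => ZL T g M * (T x.c).ev x.p * evl x.e

/-- the position of the machine -/
def Z (T : Bool → TD K q) (S : St K q) : K := ZL T S.g S.L

/-! ### invariants -/

/-- the colours alternate -/
def Alt : List (Lev K q) → Prop
  | [] => True
  | [_] => True
  | x :: y :: M => y.c = !x.c ∧ Alt (y :: M)

/-- invariants of one level -/
structure LevOK [NeZero q] (T : Bool → TD K q) (F : Bool → Finset K) (x : Lev K q) : Prop where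
  val : (T x.c).Val x.p
  deb : ∀ y ∈ x.e, y ∈ F x.c
  age : x.tau = x.p.length + x.ps
  acc : 3 * x.w + x.b + (if x.b = 0 then 0 else 3) ≤ 4 * x.ps + 4 * (T x.c).np x.p

/-- the accounting inequalities for the levels below `x`, `y` (`x` above `y` above the list) -/
def Jin (x y : Lev K q) : List (Lev K q) → Prop
  | [] => True
  | z :: M => 4 * (z.ps + z.e.length + x.tau) + y.tau ≤ z.w + 8 * y.w ∧ Jin y z M

/-- the accounting inequalities -/
def Jtop : List (Lev K q) → Prop
  | [] => True
  | [x] => 4 * x.ps ≤ x.w
  | x :: y :: M => 4 * x.ps ≤ x.w ∧ 4 * (y.ps + y.e.length) + x.tau ≤ y.w + 8 * x.w ∧ Jin x y M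

/-- the top level has backlog `0` and no debt, the others have positive backlog -/
def Top : List (Lev K q) → Prop
  | [] => False
  | x :: M => x.b = 0 ∧ x.e = [] ∧ ∀ y ∈ M, 0 < y.b

/-- well-formed states -/
structure WF [NeZero q] (T : Bool → TD K q) (F : Bool → Finset K) (S : St K q) : Prop where
  top : Top S.L
  alt : Alt S.L
  lev : ∀ x ∈ S.L, LevOK T F x
  acc : Jtop S.L

/-! ### levels by their index from the bottom -/

/-- the value of `f` at the level with index `j` from the bottom -/
def gt (f : Lev K q → ℕ) (j : ℕ) : List (Lev K q) → ℕ
  | [] => 0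
  | x :: M => if M.length = j then f x else gt f j M

/-- number of rich steps of the path of the level `j` -/
def nrj (T : Bool → TD K q) (j : ℕ) (S : St K q) : ℕ := gt (fun x => (T x.c).nr x.p) j S.L

/-- backlog of the level `j` -/
def bj (j : ℕ) (S : St K q) : ℕ := gt Lev.b j S.L

/-- age of the level `j` -/
def tj (j : ℕ) (S : St K q) : ℕ := gt Lev.tau j S.L

/-- the level `j` of the state `S` stays alive while the word is run -/
def Live [NeZero q] (T : Bool → TD K q) (j : ℕ) (S : St K q) : List (Fin q × Fin q) → Prop
  | [] => j < S.L.length
  | d :: w => Live T j S w ∧ j < (step T (run T S w) d).L.length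

/-- the words of length `n` -/
def words (W : Type*) [Fintype W] [DecidableEq W] : ℕ → Finset (List W)
  | 0 => {[]}
  | n + 1 => (Finset.univ ×ˢ words W n).image (fun x : W × List W => x.1 :: x.2)

theorem mem_words {W : Type*} [Fintype W] [DecidableEq W] (n : ℕ) (w : List W) :
    w ∈ words W n ↔ w.length = n := by
  induction n generalizing w with
  | zero => simp [words, List.length_eq_zero_iff]
  | succ n ih =>
    cases w with
    | nil => simp [words]
    | cons a w => simp [words, ih]

theorem sum_words {W M : Type*} [Fintype W] [DecidableEq W] [AddCommMonoid M] (n : ℕ)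
    (f : List W → M) : ∑ w ∈ words W (n + 1), f w = ∑ a : W, ∑ w ∈ words W n, f (a :: w) := by
  rw [words, Finset.sum_image, Finset.sum_product]
  rintro ⟨a, w⟩ _ ⟨b, v⟩ _ h
  simpa using h

theorem card_words (W : Type*) [Fintype W] [DecidableEq W] (n : ℕ) :
    (words W n).card = Fintype.card W ^ n := by
  induction n with
  | zero => simp [words]
  | succ n ih =>
    rw [Finset.card_eq_sum_ones, sum_words]
    simp [ih, pow_succ']

theorem run_append [NeZero q] (T : Bool → TD K q) (S : St K q) (v w : List (Fin q × Fin q)) :
    run T S (v ++ w) = run T (run T S w) v := by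
  induction v with
  | nil => rfl
  | cons d v ih => simp [run, ih]

/-! ### words -/

theorem TD.evl_word (T : TD K q) (t : List (Fin q)) : evl (T.word t) = T.ev t := by
  induction t with
  | nil => rfl
  | cons d t ih => simp [TD.word, TD.ev, evl, ih]

theorem TD.word_mem [NeZero q] {T : TD K q} {F : Finset K} (hT : T.Good F) :
    ∀ t : List (Fin q), T.Val t → ∀ x ∈ T.word t, x ∈ F := by
  intro t
  induction t with
  | nil => intro _ x hx; simp [TD.word] at hx
  | cons d t ih =>
    intro hv x hx
    rw [TD.word, List.mem_cons] at hx
    rcases hx with rfl | hx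
    · exact hT.letF t d hv.1
    · exact ih hv.1 x hx

theorem evl_append (l m : List K) : evl (l ++ m) = evl m * evl l := by
  induction l with
  | nil => simp [evl]
  | cons x l ih => simp [evl, ih, mul_assoc]

/-- letters of different colours commute -/
def Com (F : Bool → Finset K) : Prop := ∀ c, ∀ x ∈ F c, ∀ y ∈ F (!c), x * y = y * x

theorem evl_comm_letter {l : List K} {y : K} (h : ∀ x ∈ l, x * y = y * x) :
    evl l * y = y * evl l := by
  induction l with
  | nil => simp [evl]
  | cons x l ih =>
    have h1 := h x (by simp)
    have h2 := ih (fun z hz => h z (by simp [hz]))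
    rw [evl, mul_assoc, h1, ← mul_assoc, h2, mul_assoc]

theorem evl_comm_evl {l m : List K} (h : ∀ x ∈ l, ∀ y ∈ m, x * y = y * x) :
    evl l * evl m = evl m * evl l := by
  induction m with
  | nil => simp [evl]
  | cons y m ih =>
    have h1 : evl l * y = y * evl l := evl_comm_letter (fun x hx => h x hx y (by simp))
    have h2 := ih (fun x hx z hz => h x hx z (by simp [hz]))
    rw [evl, ← mul_assoc, h2, mul_assoc, h1, mul_assoc]

/-- `1`, the letters and their inverses -/
def Ltr (F : Bool → Finset K) : Set K := {x | x = 1 ∨ ∃ c, x ∈ F c ∨ x⁻¹ ∈ F c}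

theorem finite_Ltr (F : Bool → Finset K) : (Ltr F).Finite := by
  have hA : (((F false : Finset K) : Set K) ∪ ((F true : Finset K) : Set K)).Finite :=
    (Finset.finite_toSet _).union (Finset.finite_toSet _)
  have h : Ltr F ⊆ ({1} ∪ (((F false : Finset K) : Set K) ∪ ((F true : Finset K) : Set K))) ∪
      (fun x : K => x⁻¹) '' (((F false : Finset K) : Set K) ∪ ((F true : Finset K) : Set K)) := by
    intro x hx
    rcases hx with h | ⟨c, h | h⟩
    · left; left; exact h
    · left; right
      cases c
      · left; exact h
      · right; exact h
    · right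
      refine ⟨x⁻¹, ?_, inv_inv x⟩
      cases c
      · left; exact h
      · right; exact h
  exact (((Set.finite_singleton 1).union hA).union (hA.image _)).subset h

end H31.Comm
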