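import Pool.Agent.H31.Comm.Defs

/-!
JOB CS-DISP. In one unit the position changes by right multiplication by two letters or inverses of letters.

PROOF. Cases of the definition of `step`; `hc : Com F` says that letters of different colours commute.
`[x]`: `x.e = []` (`Top`), new value `= g * ev (dig :: p) * 1 = g * ev p * lt`, the pushed level has value `1`
(`ev [] = 1`, `evl [] = 1`).
`x :: y :: M`: `M.map pause` has the same value as `M` (`ZL` only looks at `c`, `p`, `e`). Let `z = ZL g M`. Old value: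
`z * ev y.p * evl y.e * ev x.p` (`x.e = []`). After the change of `y`: `ev y.p` is multiplied from the right by a letter `u ∈ F y.c`
(case `y.e = []`) or `evl y.e = evl l * u` becomes `evl l = evl y.e * u⁻¹`; `u` (or its inverse) commutes with `ev x.p` since
`ev x.p = evl (word x.p)` has letters in `F x.c`, and `y.c = !x.c` (`Alt`). So the new value is the old one times `u^(±1)` times the letter
of `x`, without push and pop. Push does not change the value. Pop: the popped level `x'` has `e = []` and value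
`v = ev x'.p = evl l`, `l = word x'.p`. If `M = []`: new base `g * v`, new value `g * v * ev y'.p * evl y'.e`, and `v` commutes with
`ev y'.p * evl y'.e` (colours `x.c`, `y.c = !x.c`). If `M = z :: M₁`: new value
`ZL g M₁ * ev z.p * (evl (l ++ z.e)) * ev y'.p * evl y'.e` and `evl (l ++ z.e) = evl z.e * evl l`; again `evl l` commutes with
`ev y'.p * evl y'.e`. All letters of the paths are in `F` by `word_mem` and `LevOK.val`, of the debts by `LevOK.deb`.
`Com F : ∀ c, ∀ x ∈ F c, ∀ y ∈ F (!c), x * y = y * x`. See `evl_comm_letter`, `evl_comm_evl`, `evl_append`, `evl_word` in Defs.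
-/

set_option autoImplicit false

namespace H31.Comm

variable {K : Type*} [Group K] {q : ℕ} [NeZero q] {T : Bool → TD K q} {F : Bool → Finset K}

theorem disp_ZL_pause (T : Bool → TD K q) (g : K) (M : List (Lev K q)) :
    ZL T g (M.map Lev.pause) = ZL T g M := by
  induction M with
  | nil => rfl
  | cons x M ih =>
    rw [List.map_cons, ZL, ZL, ih]
    rfl

theorem disp_val_dig {t : TD K q} {p : List (Fin q)} (hp : t.Val p) (d : Fin q) :
    t.Val (t.dig p d :: p) := by
  refine ⟨hp, fun h => ?_⟩
  unfold TD.dig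
  rw [h]
  rfl

/-- the value of the level `y` after its slot -/
theorem disp_slotb (hT : ∀ c, (T c).Good (F c)) {y : Lev K q} (h : LevOK T F y) (d : Fin q) :
    ∃ u : K, (u ∈ F y.c ∨ u⁻¹ ∈ F y.c) ∧
      (T (y.slotb T d).c).ev (y.slotb T d).p * evl (y.slotb T d).e =
        (T y.c).ev y.p * evl y.e * u ∧ (y.slotb T d).c = y.c ∧
      (∀ v ∈ (y.slotb T d).e ++ (T y.c).word (y.slotb T d).p, v ∈ F y.c) := by
  have hw := TD.word_mem (hT y.c) y.p h.val
  rcases hy : y.e with _ | ⟨v, l⟩
  · have e1 : y.slotb T d = y.ext' T d := by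
      unfold Lev.slotb
      rw [hy]
    rw [e1]
    have hv := disp_val_dig h.val d
    refine ⟨(T y.c).lt y.p ((T y.c).dig y.p d), Or.inl ((hT y.c).letF _ _ h.val), ?_, rfl, ?_⟩
    · change ((T y.c).ev y.p * (T y.c).lt y.p ((T y.c).dig y.p d)) * evl y.e = _
      rw [hy]
      simp [evl]
    · change ∀ v ∈ y.e ++ (T y.c).word ((T y.c).dig y.p d :: y.p), v ∈ F y.c
      rw [hy, List.nil_append]
      exact TD.word_mem (hT y.c) _ hv
  · have e1 : y.slotb T d = ⟨y.c, y.p, l, y.b + 1, y.tau + 1, y.w + (if y.b = 0 then 0 else 1),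
        y.ps + 1⟩ := by
      unfold Lev.slotb
      rw [hy]
    rw [e1]
    refine ⟨v⁻¹, Or.inr ?_, ?_, rfl, ?_⟩
    · rw [inv_inv]
      exact h.deb v (by rw [hy]; simp)
    · simp [evl, mul_assoc]
    · intro v' hv'
      rw [List.mem_append] at hv'
      rcases hv' with hv' | hv'
      · exact h.deb v' (by rw [hy]; exact List.mem_cons_of_mem _ hv')
      · exact hw v' hv'

/-- the value of a stack of at least two levels after a step -/
theorem disp_value (hT : ∀ c, (T c).Good (F c)) (hc : Com F) {g : K} {x y : Lev K q}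
    {M : List (Lev K q)} (h : WF T F ⟨g, x :: y :: M⟩) (d : Fin q × Fin q) :
    Z T (step T ⟨g, x :: y :: M⟩ d) =
      ZL T g M * ((T (y.slotb T d.2).c).ev (y.slotb T d.2).p * evl (y.slotb T d.2).e) *
        (T x.c).ev (x.ext' T d.1).p := by
  have hxe : x.e = [] := h.top.2.1
  have hyc : y.c = !x.c := h.alt.1
  have hx := h.lev x (by simp)
  have hy := h.lev y (by simp)
  obtain ⟨u, _, _, hcc, hF⟩ := disp_slotb hT hy d.2
  set y' := y.slotb T d.2 with hy'
  set x' := x.ext' T d.1 with hx'
  have hx'c : x'.c = x.c := rfl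
  have hx'e : x'.e = [] := hxe
  have hx'p : (T x.c).Val x'.p := disp_val_dig hx.val d.1
  have hnopop : ∀ N : List (Lev K q), ZL T g N = ZL T g M →
      ZL T g (x' :: y' :: N) = ZL T g M * ((T y'.c).ev y'.p * evl y'.e) * (T x.c).ev x'.p := by
    intro N hN
    rw [ZL, ZL, hN, hx'c, hx'e, evl, mul_one, mul_assoc (ZL T g M)]
  unfold Z step
  simp only [← hy', ← hx']
  split_ifs with h1 h2
  · -- pop
    have hcomm : (T x.c).ev x'.p * ((T y'.c).ev y'.p * evl y'.e) =
        ((T y'.c).ev y'.p * evl y'.e) * (T x.c).ev x'.p := by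
      rw [← TD.evl_word (T x.c) x'.p, ← TD.evl_word (T y'.c) y'.p, ← evl_append]
      apply evl_comm_evl
      intro a ha b hb
      have ha' : a ∈ F x.c := TD.word_mem (hT x.c) _ hx'p a ha
      have hb' : b ∈ F (!x.c) := by
        rw [← hyc]
        apply hF b
        rw [← hcc]
        exact hb
      exact hc x.c a ha' b hb'
    have hbase : ZL T (addg ((T x.c).word x'.p) g M) (addL ((T x.c).word x'.p) (M.map Lev.pause)) =
        ZL T g M * (T x.c).ev x'.p := by
      rw [← TD.evl_word (T x.c) x'.p]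
      cases M with
      | nil => rfl
      | cons w M₁ =>
        rw [List.map_cons, addL, addg, ZL, ZL, disp_ZL_pause]
        change ZL T g M₁ * (T w.c).ev w.p * evl ((T x.c).word x'.p ++ w.e) = _
        rw [evl_append, ← mul_assoc]
    rw [ZL, hbase, mul_assoc (ZL T g M), mul_assoc (ZL T g M), mul_assoc ((T x.c).ev x'.p), hcomm,
      ← mul_assoc (ZL T g M)]
  · exact hnopop _ (disp_ZL_pause T g M)
  · rw [ZL, hnopop _ (disp_ZL_pause T g M)]
    simp [Lev.new, TD.ev, evl]

theorem Z_step (hT : ∀ c, (T c).Good (F c)) (hc : Com F) {S : St K q} (h : WF T F S)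
    (d : Fin q × Fin q) :
    ∃ a ∈ Ltr F, ∃ b ∈ Ltr F, Z T (step T S d) = Z T S * (a * b) := by
  obtain ⟨g, L⟩ := S
  match L, h with
  | [], h => exact absurd h.top (by simp [Top])
  | [x], h =>
    have hxe : x.e = [] := h.top.2.1
    have hx := h.lev x (by simp)
    refine ⟨(T x.c).lt x.p ((T x.c).dig x.p d.1), Or.inr ⟨x.c, Or.inl ((hT x.c).letF _ _ hx.val)⟩,
      1, Or.inl rfl, ?_⟩
    have h1 : ZL T g [x.ext' T d.1] =
        ZL T g [x] * ((T x.c).lt x.p ((T x.c).dig x.p d.1) * 1) := by
      rw [ZL, ZL, ZL, ZL]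
      change g * ((T x.c).ev x.p * (T x.c).lt x.p ((T x.c).dig x.p d.1)) * evl x.e = _
      rw [hxe]
      simp [evl, mul_assoc]
    unfold Z step
    simp only
    split_ifs with h2
    · exact h1
    · rw [ZL, h1]
      simp [Lev.new, TD.ev, evl]
  | x :: y :: M, h =>
    have hxe : x.e = [] := h.top.2.1
    have hyc : y.c = !x.c := h.alt.1
    have hx := h.lev x (by simp)
    have hy := h.lev y (by simp)
    rw [disp_value hT hc h d]
    obtain ⟨u, hu, hval, -, -⟩ := disp_slotb hT hy d.2
    refine ⟨u, Or.inr ⟨y.c, hu⟩, (T x.c).lt x.p ((T x.c).dig x.p d.1),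
      Or.inr ⟨x.c, Or.inl ((hT x.c).letF _ _ hx.val)⟩, ?_⟩
    rw [hval]
    have hcomm : u * (T x.c).ev x.p = (T x.c).ev x.p * u := by
      have key : ∀ v ∈ F y.c, (T x.c).ev x.p * v = v * (T x.c).ev x.p := by
        intro v hv
        rw [← TD.evl_word (T x.c) x.p]
        apply evl_comm_letter
        intro a ha
        have ha' : a ∈ F x.c := TD.word_mem (hT x.c) _ hx.val a ha
        rw [hyc] at hv
        exact hc x.c a ha' v hv
      rcases hu with hu | hu
      · exact (key u hu).symm
      · have h1 := key _ hu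
        have h2 : Commute ((T x.c).ev x.p) u⁻¹ := h1
        have h3 := h2.inv_right
        rw [inv_inv] at h3
        exact h3.symm
    have hold : Z T ⟨g, x :: y :: M⟩ = ZL T g M * (T y.c).ev y.p * evl y.e * (T x.c).ev x.p := by
      unfold Z
      rw [ZL, ZL, hxe, evl, mul_one]
    rw [hold]
    change ZL T g M * ((T y.c).ev y.p * evl y.e * u) *
      ((T x.c).ev x.p * (T x.c).lt x.p ((T x.c).dig x.p d.1)) = _
    calc ZL T g M * ((T y.c).ev y.p * evl y.e * u) *
          ((T x.c).ev x.p * (T x.c).lt x.p ((T x.c).dig x.p d.1))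
        = ZL T g M * (T y.c).ev y.p * evl y.e * (u * (T x.c).ev x.p) *
            (T x.c).lt x.p ((T x.c).dig x.p d.1) := by simp only [mul_assoc]
      _ = _ := by rw [hcomm]; simp only [mul_assoc]

end H31.Comm
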