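import Pool.Agent.H31.Comm.Defs

/-!
JOB CS-GROWTH. Constants for a finite set of exponential growth.

PROOF. Write `β n = (S^n).card ≥ 1`; `β (m+n) ≤ β m * β n` (`Finset.card_mul_le`, `pow_add`); `u n = log (β n)` is subadditive and `≥ 0`, so
`u n / n → h` (`Subadditive.tendsto_lim`, bounded below by 0) and `h ≤ u n / n` for `n ≥ 1` (`Subadditive.lim_le_div`). `h > 0`: otherwise `h ≤ 0`, and for
`c > 1` as in `hexp` `u n ≤ n log c` for all `n ≥ n₀`, `β n ≤ c^n` for `n ≥ n₀`, so `β n ≤ C * c^n` for all `n` with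
`C = 1 + ∑_{m < n₀} β m`, contradiction. Let `δ = h/64`, `lam = exp (h - δ) > 1`, `c₁ = 1 - 1/lam > 0`, `M = β b` with `b` large such that
`u b ≤ (h + δ) b`, i.e. `exp (h b) ≤ M ≤ exp ((h + δ) b)`. Records: `f n = β n / lam^n ≥ exp (δ n) → ∞`, so for each `N` there is `n ≥ N` with
`f m ≤ f n` for all `m ≤ n`: e.g. take `n'` with `f n' ≥ max_{m ≤ N} f m`, `n' ≥ N`, and let `n` be the first index in
`[N, n']` where `f` is maximal on `[0, n']` (the maximum over `[0, n']` is attained at an index `≥ N`, as `f n' ≥` all values up to `N`; take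
any maximal index `n ≥ N`). Density: suppose `p ≤ j`, `c₁ * lam^(b j) ≤ (2 M)^(j-p) * (2 q)^p` and `j < 16 p`, so `j + 1 ≤ 16 p`. Then
`(M/q)^p ≤ (1/c₁) * (2 M / lam^b)^j`, raise to the power 16: `(M/q)^(16 p) ≤ c₁^(-16) * ((2 M/lam^b)^16)^j`. With `M/q ≥ 1` the left side is
`≥ (M/q)^(j+1)`. But `b` is chosen so large that `M/q > c₁^(-16)` and `M/q ≥ (2 M/lam^b)^16` (the second: `2 M / lam^b ≤ 2 exp (2 δ b)`,
16th power `2^16 exp (32 δ b) = 2^16 exp (h b/2)`, and `M/q ≥ exp (h b)/q`, so it suffices that `exp (h b/2) ≥ 2^16 q`). Contradiction.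
(You may split this into lemmas.)
-/

set_option autoImplicit false

open scoped Pointwise

namespace H31.Comm

variable {K : Type*} [Group K] [DecidableEq K]

/-- `n` is a record: `β m * lam^(n-m) ≤ β n` for all `m ≤ n` -/
def Rec (S : Finset K) (lam : ℝ) (n : ℕ) : Prop :=
  ∀ m ≤ n, ((S ^ m).card : ℝ) * lam ^ (n - m) ≤ ((S ^ n).card : ℝ)

theorem gr_pow (x y : ℝ) (n : ℕ) (h : x ≤ y) (hx : 0 ≤ x) : x ^ n ≤ y ^ n :=
  pow_le_pow_left₀ hx h n

theorem gr_pos (β : ℕ → ℝ) (h : ℝ) (hexp : ∃ c : ℝ, 1 < c ∧ ∀ C : ℝ, ∃ n : ℕ, C * c ^ n < β n)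
    (hβ1 : ∀ n, 1 ≤ β n)
    (hlim : Filter.Tendsto (fun n : ℕ => Real.log (β n) / n) Filter.atTop (nhds h)) : 0 < h := by
  by_contra hc
  push Not at hc
  obtain ⟨c, hc1, hC⟩ := hexp
  have hlog : 0 < Real.log c := Real.log_pos hc1
  have hev := hlim.eventually (gt_mem_nhds (lt_of_le_of_lt hc hlog))
  obtain ⟨n₀, hn₀⟩ := Filter.eventually_atTop.1 hev
  obtain ⟨n, hn⟩ := hC (1 + ∑ m ∈ Finset.range (n₀ + 1), β m)
  have hsum : 0 ≤ ∑ m ∈ Finset.range (n₀ + 1), β m :=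
    Finset.sum_nonneg (fun m _ => (zero_le_one.trans (hβ1 m)))
  have hcn : 1 ≤ c ^ n := one_le_pow₀ hc1.le
  rcases Nat.lt_or_ge n (n₀ + 1) with h1 | h1
  · have h2 : β n ≤ ∑ m ∈ Finset.range (n₀ + 1), β m :=
      Finset.single_le_sum (f := β) (fun m _ => (zero_le_one.trans (hβ1 m)))
        (Finset.mem_range.2 h1)
    nlinarith
  · have h2 := hn₀ n (by omega)
    have hn0 : (0 : ℝ) < n := by
      have : 0 < n := by omega
      exact_mod_cast this
    rw [div_lt_iff₀ hn0] at h2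
    have h3 : β n < c ^ n := by
      have h4 : Real.log (β n) < Real.log (c ^ n) := by
        rw [Real.log_pow]
        linarith
      exact (Real.log_lt_log_iff (lt_of_lt_of_le one_pos (hβ1 n)) (by positivity)).1 h4
    nlinarith

theorem gr_dens (b : ℕ) (lam c₁ M q : ℝ) (hlam : 1 < lam) (hc₁ : 0 < c₁) (hq : 0 < q) (hM : 0 < M)
    (hA : (2 * M / lam ^ b) ^ 16 ≤ M / q) (hB : 1 < c₁ ^ 16 * (M / q)) (hC : 1 ≤ M / q)
    (j p : ℕ) (hpj : p ≤ j) (h : c₁ * lam ^ (b * j) ≤ (2 * M) ^ (j - p) * (2 * q) ^ p) :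
    16 * p ≤ j := by
  by_contra hc
  push Not at hc
  have hlb : 0 < lam ^ b := pow_pos (by linarith) b
  have hMq : 0 < M / q := div_pos hM hq
  have e1 : (2 * M) ^ (j - p) * (2 * q) ^ p = (2 * M) ^ j / (M / q) ^ p := by
    have e2 : (2 * M) ^ j = (2 * M) ^ (j - p) * (2 * M) ^ p := by
      rw [← pow_add, Nat.sub_add_cancel hpj]
    rw [e2, eq_div_iff (pow_ne_zero _ hMq.ne'), mul_assoc, ← mul_pow]
    congr 2
    field_simp
  have e3 : c₁ * (M / q) ^ p ≤ (2 * M / lam ^ b) ^ j := by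
    rw [div_pow (2 * M), ← pow_mul, le_div_iff₀ (by positivity)]
    rw [e1, le_div_iff₀ (by positivity)] at h
    linarith
  have e4 : (c₁ * (M / q) ^ p) ^ 16 ≤ ((2 * M / lam ^ b) ^ j) ^ 16 :=
    pow_le_pow_left₀ (by positivity) e3 16
  have e5 : ((2 * M / lam ^ b) ^ j) ^ 16 ≤ (M / q) ^ j := by
    rw [← pow_mul, mul_comm j 16, pow_mul]
    exact pow_le_pow_left₀ (by positivity) hA j
  have e6 : (c₁ * (M / q) ^ p) ^ 16 = c₁ ^ 16 * (M / q) ^ (16 * p) := by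
    rw [mul_pow, ← pow_mul, mul_comm p 16]
  have e7 : (M / q) ^ (j + 1) ≤ (M / q) ^ (16 * p) := pow_le_pow_right₀ hC hc
  have e8 : c₁ ^ 16 * (M / q) ^ (j + 1) ≤ (M / q) ^ j := by
    refine le_trans ?_ (e4.trans e5)
    rw [e6]
    exact mul_le_mul_of_nonneg_left e7 (by positivity)
  have e9 : (M / q) ^ j * (c₁ ^ 16 * (M / q)) ≤ (M / q) ^ j * 1 := by
    rw [mul_one]
    refine le_trans (le_of_eq ?_) e8
    ring
  have e10 := le_of_mul_le_mul_left e9 (pow_pos hMq j)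
  linarith

theorem gr_rec (β : ℕ → ℝ) (h δ lam : ℝ) (hδ : 0 < δ) (hlam : lam = Real.exp (h - δ))
    (hβ : ∀ n : ℕ, Real.exp (h * n) ≤ β n) (N : ℕ) :
    ∃ n, N ≤ n ∧ ∀ m ≤ n, β m * lam ^ (n - m) ≤ β n := by
  have hl0 : 0 < lam := by rw [hlam]; exact Real.exp_pos _
  have ht : Filter.Tendsto (fun n : ℕ => β n / lam ^ n) Filter.atTop Filter.atTop := by
    have h1 : Filter.Tendsto (fun n : ℕ => Real.exp (δ * n)) Filter.atTop Filter.atTop :=
      Real.tendsto_exp_atTop.comp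
        (Filter.Tendsto.const_mul_atTop hδ tendsto_natCast_atTop_atTop)
    refine Filter.tendsto_atTop_mono (fun n => ?_) h1
    rw [le_div_iff₀ (pow_pos hl0 n), hlam, ← Real.exp_nat_mul, ← Real.exp_add]
    refine le_trans (le_of_eq ?_) (hβ n)
    congr 1
    ring
  obtain ⟨n, hn, hrec⟩ := Filter.high_scores ht N
  refine ⟨n, hn, fun m hm => ?_⟩
  rcases hm.eq_or_lt with h1 | h1
  · subst h1
    simp
  · have h2 := (hrec m h1).le
    rw [div_le_div_iff₀ (pow_pos hl0 m) (pow_pos hl0 n)] at h2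
    have e : lam ^ n = lam ^ m * lam ^ (n - m) := by
      rw [← pow_add, Nat.add_sub_cancel' hm]
    rw [e] at h2
    have h3 : lam ^ m * (β m * lam ^ (n - m)) ≤ lam ^ m * β n := by linarith
    exact le_of_mul_le_mul_left h3 (pow_pos hl0 m)

theorem gr_core (β : ℕ → ℝ) (hβ1 : ∀ n, 1 ≤ β n) (hsub : ∀ m n, β (m + n) ≤ β m * β n)
    (hexp : ∃ c : ℝ, 1 < c ∧ ∀ C : ℝ, ∃ n : ℕ, C * c ^ n < β n) (q : ℝ) (hq : 0 < q) :
    ∃ (b : ℕ) (lam c₁ : ℝ), 0 < b ∧ 1 < lam ∧ 0 < c₁ ∧ c₁ ≤ 1 - 1 / lam ∧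
      (∀ N : ℕ, ∃ n, N ≤ n ∧ ∀ m ≤ n, β m * lam ^ (n - m) ≤ β n) ∧
      ∀ j p : ℕ, p ≤ j →
        c₁ * lam ^ (b * j) ≤ (2 * β b) ^ (j - p) * (2 * q) ^ p → 16 * p ≤ j := by
  have hβ0 : ∀ n, 0 < β n := fun n => lt_of_lt_of_le one_pos (hβ1 n)
  have hu : Subadditive (fun n => Real.log (β n)) := by
    intro m n
    show Real.log (β (m + n)) ≤ Real.log (β m) + Real.log (β n)
    rw [← Real.log_mul (hβ0 m).ne' (hβ0 n).ne']
    exact Real.log_le_log (hβ0 _) (hsub m n)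
  have hu0 : ∀ n, 0 ≤ Real.log (β n) := fun n => Real.log_nonneg (hβ1 n)
  have hbdd : BddBelow (Set.range (fun n : ℕ => Real.log (β n) / n)) := by
    refine ⟨0, ?_⟩
    rintro _ ⟨n, rfl⟩
    exact div_nonneg (hu0 n) (Nat.cast_nonneg n)
  have hlim := hu.tendsto_lim hbdd
  set h : ℝ := hu.lim with hh
  have hpos : 0 < h := gr_pos β h hexp hβ1 hlim
  have hle : ∀ n : ℕ, h * n ≤ Real.log (β n) := by
    intro n
    rcases Nat.eq_zero_or_pos n with h0 | h0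
    · subst h0
      simpa using hu0 0
    · have h1 := hu.lim_le_div hbdd h0.ne'
      have hn0 : (0 : ℝ) < n := by exact_mod_cast h0
      rwa [le_div_iff₀ hn0] at h1
  have hβe : ∀ n : ℕ, Real.exp (h * n) ≤ β n := by
    intro n
    rw [← Real.exp_log (hβ0 n)]
    exact Real.exp_le_exp.2 (hle n)
  set δ : ℝ := h / 64 with hδ
  have hδpos : 0 < δ := by positivity
  have hlam1 : 1 < Real.exp (h - δ) := by
    rw [Real.one_lt_exp_iff]
    linarith
  set lam : ℝ := Real.exp (h - δ) with hlam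
  set c₁ : ℝ := 1 - 1 / lam with hc₁
  have hc₁pos : 0 < c₁ := by
    rw [hc₁, sub_pos, div_lt_one (by linarith)]
    exact hlam1
  -- the choice of b
  have hev1 := hlim.eventually (gt_mem_nhds (show h < h + δ by linarith))
  have ht : Filter.Tendsto (fun b : ℕ => Real.exp (h / 2 * b)) Filter.atTop Filter.atTop :=
    Real.tendsto_exp_atTop.comp
      (Filter.Tendsto.const_mul_atTop (by positivity) tendsto_natCast_atTop_atTop)
  have hev2 := ht.eventually_ge_atTop (2 ^ 16 * q)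
  have hev3 := ht.eventually_ge_atTop (q / c₁ ^ 16 + 1)
  have hev4 := Filter.eventually_gt_atTop (0 : ℕ)
  obtain ⟨b, ⟨hb1, hb2⟩, hb3, hb4⟩ := ((hev1.and hev2).and (hev3.and hev4)).exists
  have hb0 : (0 : ℝ) < b := by exact_mod_cast hb4
  have hE : 0 < Real.exp (h / 2 * b) := Real.exp_pos _
  have hE1 : 1 ≤ Real.exp (h / 2 * b) := Real.one_le_exp (by positivity)
  have hEE : Real.exp (h * b) = Real.exp (h / 2 * b) * Real.exp (h / 2 * b) := by
    rw [← Real.exp_add]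
    congr 1
    ring
  have hMge : Real.exp (h / 2 * b) * Real.exp (h / 2 * b) ≤ β b := by
    rw [← hEE]
    exact hβe b
  have hMle : β b ≤ Real.exp ((h + δ) * b) := by
    rw [div_lt_iff₀ hb0] at hb1
    rw [← Real.exp_log (hβ0 b)]
    exact Real.exp_le_exp.2 hb1.le
  have hA : (2 * β b / lam ^ b) ^ 16 ≤ β b / q := by
    have h1 : 2 * β b / lam ^ b ≤ 2 * Real.exp (2 * δ * b) := by
      rw [div_le_iff₀ (by positivity), hlam, ← Real.exp_nat_mul, mul_assoc, ← Real.exp_add]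
      refine mul_le_mul_of_nonneg_left (hMle.trans (le_of_eq ?_)) (by norm_num)
      congr 1
      ring
    have h2 : (2 * β b / lam ^ b) ^ 16 ≤ (2 * Real.exp (2 * δ * b)) ^ 16 :=
      pow_le_pow_left₀ (div_nonneg (by linarith [hβ0 b]) (by positivity)) h1 16
    have h3 : (2 * Real.exp (2 * δ * b)) ^ 16 = 2 ^ 16 * Real.exp (h / 2 * b) := by
      rw [mul_pow, ← Real.exp_nat_mul]
      congr 2
      rw [hδ]
      push_cast
      ring
    rw [h3] at h2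
    refine h2.trans ?_
    rw [le_div_iff₀ hq]
    refine le_trans ?_ hMge
    have h4 := mul_le_mul_of_nonneg_right hb2 hE.le
    linarith
  have hcM : q / c₁ ^ 16 < β b := by
    have h5 : Real.exp (h / 2 * b) ≤ β b := by nlinarith
    linarith
  have hB : 1 < c₁ ^ 16 * (β b / q) := by
    rw [div_lt_iff₀ (by positivity)] at hcM
    rw [← mul_div_assoc, lt_div_iff₀ hq]
    linarith
  have hC : 1 ≤ β b / q := by
    rw [le_div_iff₀ hq, one_mul]
    nlinarith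
  refine ⟨b, lam, c₁, hb4, hlam1, hc₁pos, le_rfl, ?_, ?_⟩
  · intro N
    exact gr_rec β h δ lam hδpos hlam hβe N
  · intro j p hpj hjp
    exact gr_dens b lam c₁ (β b) q hlam1 hc₁pos hq (hβ0 b) hA hB hC j p hpj hjp

theorem growth_consts (S : Finset K) (h1 : (1 : K) ∈ S)
    (hexp : ∃ c : ℝ, 1 < c ∧ ∀ C : ℝ, ∃ n : ℕ, C * c ^ n < ((S ^ n).card : ℝ))
    (q : ℕ) (hq : 2 ≤ q) :
    ∃ (b : ℕ) (lam c₁ : ℝ), 0 < b ∧ 1 < lam ∧ 0 < c₁ ∧ c₁ ≤ 1 - 1 / lam ∧
      (∀ N : ℕ, ∃ n, N ≤ n ∧ Rec S lam n) ∧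
      ∀ j p : ℕ, p ≤ j →
        c₁ * lam ^ (b * j) ≤ (2 * ((S ^ b).card : ℝ)) ^ (j - p) * (2 * (q : ℝ)) ^ p →
          16 * p ≤ j := by
  have hq' : (0 : ℝ) < q := by
    have : 0 < q := by omega
    exact_mod_cast this
  refine gr_core (fun n => ((S ^ n).card : ℝ)) ?_ ?_ hexp q hq'
  · intro n
    have : 0 < (S ^ n).card := Finset.card_pos.2 ⟨1, Finset.one_mem_pow h1⟩
    exact_mod_cast this
  · intro m n
    show ((S ^ (m + n)).card : ℝ) ≤ ((S ^ m).card : ℝ) * ((S ^ n).card : ℝ)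
    rw [pow_add]
    exact_mod_cast Finset.card_mul_le

end H31.Comm
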