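import Mathlib

/-!
Finite sets of subexponential growth: closure properties.
-/

set_option autoImplicit false
set_option linter.unusedSectionVars false

open scoped Pointwise
open Filter Topology

namespace H31.Comm

variable {K : Type*} [Group K] [DecidableEq K]

/-- the set has subexponential growth -/
def Sub (S : Finset K) : Prop :=
  ∀ c : ℝ, 1 < c → ∃ C : ℝ, ∀ n : ℕ, ((S ^ n).card : ℝ) ≤ C * c ^ n

theorem Sub.mono {S R : Finset K} (h : S ⊆ R) (hR : Sub R) : Sub S := by
  intro c hc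
  obtain ⟨C, hC⟩ := hR c hc
  refine ⟨C, fun n => le_trans ?_ (hC n)⟩
  exact_mod_cast Finset.card_le_card (Finset.pow_subset_pow_left h)

theorem Sub.of_le {K' K'' : Type*} [Group K'] [DecidableEq K'] [Group K''] [DecidableEq K'']
    {S : Finset K} {A : Finset K'} {B : Finset K''} (k : ℕ)
    (h : ∀ n, (S ^ n).card ≤ (A ^ n).card * (B ^ n).card * k) (hA : Sub A) (hB : Sub B) :
    Sub S := by
  intro c hc
  have hs : 1 < Real.sqrt c := by
    rw [Real.lt_sqrt (by norm_num)]
    simpa using hc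
  obtain ⟨C₁, h1⟩ := hA _ hs
  obtain ⟨C₂, h2⟩ := hB _ hs
  refine ⟨C₁ * C₂ * k, fun n => ?_⟩
  have h3 : ((S ^ n).card : ℝ) ≤ ((A ^ n).card : ℝ) * ((B ^ n).card : ℝ) * k := by
    exact_mod_cast h n
  have h4 : (0 : ℝ) ≤ C₁ * Real.sqrt c ^ n := le_trans (by positivity) (h1 n)
  calc ((S ^ n).card : ℝ) ≤ ((A ^ n).card : ℝ) * ((B ^ n).card : ℝ) * k := h3
    _ ≤ (C₁ * Real.sqrt c ^ n) * (C₂ * Real.sqrt c ^ n) * k := by
        have := h1 n
        have := h2 n
        gcongr
    _ = C₁ * C₂ * k * (Real.sqrt c * Real.sqrt c) ^ n := by rw [mul_pow]; ring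
    _ = C₁ * C₂ * k * c ^ n := by rw [Real.mul_self_sqrt (by linarith)]

theorem sub_one : Sub (1 : Finset K) := by
  intro c hc
  refine ⟨1, fun n => ?_⟩
  rw [one_pow, Finset.card_one, one_mul]
  simpa using one_le_pow₀ hc.le

theorem Sub.map {K' : Type*} [Group K'] [DecidableEq K'] (f : K' →* K) {A : Finset K'}
    (hA : Sub A) : Sub (A.image f) := by
  intro c hc
  obtain ⟨C, hC⟩ := hA c hc
  refine ⟨C, fun n => le_trans ?_ (hC n)⟩
  rw [← Finset.image_pow]
  exact_mod_cast Finset.card_image_le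

theorem Sub.of_map {K' : Type*} [Group K'] [DecidableEq K'] (f : K' →* K)
    (hf : Function.Injective f) {A : Finset K'} (hA : Sub (A.image f)) : Sub A := by
  intro c hc
  obtain ⟨C, hC⟩ := hA c hc
  refine ⟨C, fun n => le_trans ?_ (hC n)⟩
  rw [← Finset.image_pow, Finset.card_image_of_injective _ hf]

/-- all finite subsets of the subgroup have subexponential growth -/
def SubG (P : Subgroup K) : Prop := ∀ S : Finset K, (∀ x ∈ S, x ∈ P) → Sub S

theorem SubG.conj {P : Subgroup K} (g : K) (hP : SubG P) (Q : Subgroup K)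
    (hQ : ∀ x ∈ Q, g⁻¹ * x * g ∈ P) : SubG Q := by
  intro S hS
  have h1 : Sub (S.image (MulAut.conj g⁻¹).toMonoidHom) := by
    apply hP
    intro x hx
    rw [Finset.mem_image] at hx
    obtain ⟨y, hy, rfl⟩ := hx
    simpa using hQ y (hS y hy)
  exact h1.of_map _ (MulAut.conj g⁻¹).injective

theorem mem_mul_of_mem_sup {A B : Subgroup K} (hc : ∀ a ∈ A, ∀ b ∈ B, a * b = b * a) {x : K}
    (hx : x ∈ A ⊔ B) : ∃ a ∈ A, ∃ b ∈ B, x = a * b := by
  rw [Subgroup.sup_eq_closure] at hx
  induction hx using Subgroup.closure_induction with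
  | mem x hx =>
    rcases hx with hx | hx
    · exact ⟨x, hx, 1, B.one_mem, by simp⟩
    · exact ⟨1, A.one_mem, x, hx, by simp⟩
  | one => exact ⟨1, A.one_mem, 1, B.one_mem, by simp⟩
  | mul x y _ _ hx hy =>
    obtain ⟨a, ha, b, hb, rfl⟩ := hx
    obtain ⟨a', ha', b', hb', rfl⟩ := hy
    refine ⟨a * a', A.mul_mem ha ha', b * b', B.mul_mem hb hb', ?_⟩
    calc a * b * (a' * b') = a * (b * a') * b' := by group
      _ = a * (a' * b) * b' := by rw [hc a' ha' b hb]
      _ = _ := by group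
  | inv x _ hx =>
    obtain ⟨a, ha, b, hb, rfl⟩ := hx
    refine ⟨a⁻¹, A.inv_mem ha, b⁻¹, B.inv_mem hb, ?_⟩
    rw [mul_inv_rev, hc a⁻¹ (A.inv_mem ha) b⁻¹ (B.inv_mem hb)]

theorem pow_subset_mul {S A B : Finset K} (hc : ∀ a ∈ A, ∀ b ∈ B, a * b = b * a)
    (hS : S ⊆ A * B) (n : ℕ) : S ^ n ⊆ A ^ n * B ^ n := by
  induction n with
  | zero => simp
  | succ n ih =>
    have hc2 : ∀ m : ℕ, ∀ b ∈ B ^ m, ∀ a ∈ A, b * a = a * b := by
      intro m
      induction m with
      | zero => intro b hb a _; rw [pow_zero, Finset.mem_one] at hb; rw [hb, one_mul, mul_one]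
      | succ m ihm =>
        intro b hb a ha
        rw [pow_succ, Finset.mem_mul] at hb
        obtain ⟨b₁, h1, b₂, h2, rfl⟩ := hb
        rw [mul_assoc, ← hc a ha b₂ h2, ← mul_assoc, ihm b₁ h1 a ha, mul_assoc]
    intro x hx
    rw [pow_succ, Finset.mem_mul] at hx
    obtain ⟨y, hy, s, hs, rfl⟩ := hx
    obtain ⟨a, ha, b, hb, rfl⟩ := Finset.mem_mul.1 (ih hy)
    obtain ⟨a', ha', b', hb', rfl⟩ := Finset.mem_mul.1 (hS hs)
    have : a * b * (a' * b') = (a * a') * (b * b') := by
      calc a * b * (a' * b') = a * (b * a') * b' := by group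
        _ = a * (a' * b) * b' := by rw [hc2 n b hb a' ha']
        _ = _ := by group
    rw [this, pow_succ, pow_succ]
    exact Finset.mul_mem_mul (Finset.mul_mem_mul ha ha') (Finset.mul_mem_mul hb hb')

theorem SubG.sup {A B : Subgroup K} (hc : ∀ a ∈ A, ∀ b ∈ B, a * b = b * a) (hA : SubG A)
    (hB : SubG B) : SubG (A ⊔ B) := by
  classical
  intro S hS
  have h1 : ∀ x : K, ∃ a b : K, x ∈ S → a ∈ A ∧ b ∈ B ∧ x = a * b := by
    intro x
    by_cases hx : x ∈ S
    · obtain ⟨a, ha, b, hb, h⟩ := mem_mul_of_mem_sup hc (hS x hx)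
      exact ⟨a, b, fun _ => ⟨ha, hb, h⟩⟩
    · exact ⟨1, 1, fun h => absurd h hx⟩
  choose a b hab using h1
  have hS2 : S ⊆ S.image a * S.image b := by
    intro x hx
    rw [(hab x hx).2.2]
    exact Finset.mul_mem_mul (Finset.mem_image_of_mem _ hx) (Finset.mem_image_of_mem _ hx)
  have hmem : ∀ y ∈ S.image a, y ∈ A := by
    intro y hy
    obtain ⟨x, hx, rfl⟩ := Finset.mem_image.1 hy
    exact (hab x hx).1
  have hmem' : ∀ y ∈ S.image b, y ∈ B := by
    intro y hy
    obtain ⟨x, hx, rfl⟩ := Finset.mem_image.1 hy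
    exact (hab x hx).2.1
  apply Sub.of_le 1 _ (hA _ hmem) (hB _ hmem')
  intro n
  rw [mul_one]
  refine (Finset.card_le_card (pow_subset_mul (fun x hx y hy => hc x (hmem x hx) y (hmem' y hy))
    hS2 n)).trans ?_
  exact Finset.card_mul_le

theorem SubG.iSup {ι : Type*} (R : ι → Subgroup K)
    (hc : ∀ i j, i ≠ j → ∀ a ∈ R i, ∀ b ∈ R j, a * b = b * a) (hR : ∀ i, SubG (R i))
    (I : Finset ι) : SubG (⨆ i ∈ I, R i) := by
  classical
  induction I using Finset.induction_on with
  | empty =>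
    intro S hS
    have : S ⊆ 1 := by
      intro x hx
      have := hS x hx
      simp only [Finset.notMem_empty, iSup_false, iSup_bot] at this
      rw [Finset.mem_one]
      exact Subgroup.mem_bot.1 this
    exact sub_one.mono this
  | insert i I hi ih =>
    rw [Finset.iSup_insert]
    apply SubG.sup _ (hR i) ih
    intro a ha b hb
    have hle : (⨆ j ∈ I, R j) ≤ Subgroup.centralizer {a} := by
      apply iSup₂_le
      intro j hj b hb
      rw [Subgroup.mem_centralizer_iff]
      intro x hx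
      rw [Set.mem_singleton_iff] at hx
      subst hx
      exact hc i j (fun h => hi (h ▸ hj)) _ ha b hb
    have := hle hb
    rw [Subgroup.mem_centralizer_iff] at this
    exact this a rfl

theorem SubG.finiteIndex {P : Subgroup K} (hP : SubG P) [hi : P.FiniteIndex] (S : Finset K) :
    Sub S := by
  classical
  -- right coset representatives
  have : Finite (K ⧸ P) := inferInstance
  let r : K → K := fun g => ((Quotient.out ((g⁻¹ : K) : K ⧸ P)) : K)⁻¹
  have hr : ∀ g : K, g * (r g)⁻¹ ∈ P := by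
    intro g
    have h1 : ((Quotient.out ((g⁻¹ : K) : K ⧸ P) : K) : K ⧸ P) = ((g⁻¹ : K) : K ⧸ P) :=
      Quotient.out_eq' _
    have h2 := QuotientGroup.eq.1 h1.symm
    simpa [r] using h2
  have hfin : (Set.range r).Finite := by
    have : Set.range r ⊆ Set.range (fun x : K ⧸ P => (Quotient.out x : K)⁻¹) := by
      rintro _ ⟨g, rfl⟩
      exact ⟨_, rfl⟩
    exact (Set.finite_range _).subset this
  let R : Finset K := insert 1 hfin.toFinset
  have hrR : ∀ g, r g ∈ R := fun g => Finset.mem_insert_of_mem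
    (by rw [Set.Finite.mem_toFinset]; exact ⟨g, rfl⟩)
  let A : Finset K := (R * S).image (fun g => g * (r g)⁻¹)
  have hA : ∀ x ∈ A, x ∈ P := by
    intro x hx
    obtain ⟨g, _, rfl⟩ := Finset.mem_image.1 hx
    exact hr g
  have key : ∀ n : ℕ, S ^ n ⊆ A ^ n * R := by
    intro n
    induction n with
    | zero =>
      intro x hx
      rw [pow_zero, Finset.mem_one] at hx
      rw [hx, pow_zero, one_mul]
      exact Finset.mem_insert_self _ _
    | succ n ih =>
      intro x hx
      rw [pow_succ, Finset.mem_mul] at hx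
      obtain ⟨y, hy, s, hs, rfl⟩ := hx
      obtain ⟨a, ha, t, ht, rfl⟩ := Finset.mem_mul.1 (ih hy)
      have h1 : a * t * s = (a * (t * s * (r (t * s))⁻¹)) * r (t * s) := by group
      rw [h1, pow_succ]
      refine Finset.mul_mem_mul (Finset.mul_mem_mul ha ?_) (hrR _)
      exact Finset.mem_image_of_mem _ (Finset.mul_mem_mul ht hs)
  apply Sub.of_le R.card _ (hP A hA) (sub_one (K := K))
  intro n
  rw [one_pow, Finset.card_one, mul_one]
  exact (Finset.card_le_card (key n)).trans Finset.card_mul_le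

end H31.Comm
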