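import Pool.Agent.H31.Comm.Count
import Pool.Agent.H31.Comm.Dich

/-!
JOB CS-TOTAL. The total multiplicity.

PROOF. Let `q = Q^8`, `h = S.L.length`. `partA`: words with `Live T k S w`, `Z = z` and `n ≤ 8 (nrj (run) - nrj S) + 2`: for each of them
`Q^n * q^(nrj S) ≤ Q^2 * q^(nrj (run))` (as `q^i = Q^(8 i)`), so by `count` `card * Q^n * q^(nrj S) ≤ Q^2 * q^(nrj S) * (16 q^2)^n`; cancel `q^(nrj S) > 0`.
`partB`: for `t ≤ n`: words `w = v ++ u`, `|u| = t`, such that with `R = run T S u`, some `k` with `R.L.length = k + 2`, `nrj (k+1) R = 0`,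
`Live T (k+1) R v`, `Z = z` and `n ≤ 8 nrj (k+1) (run)`: for fixed `u` (at most `(q^2)^t` choices; `k` is determined by `u`) the number of `v` times `Q^n` is at most
`∑ q^(nrj (k+1) (run T R v)) ≤ q^0 (16 q^2)^(n-t)`; total at most `(q^2)^t * (16 q^2)^(n-t) ≤ (16 q^2)^n`.
`total`: let `w` have length `n` and `Z = z`, `k` as in `dich`, `S.L.length = h`, `k < h ≤ k + 1 + n`: there are at most `n + 1` possible `k`
(`k ∈ [h-1-n, h-1]`). First alternative: `bj k (run) = 0` (`top_b`), so `live_facts` gives `4 nrj S + n ≤ 4 nrj (run)`: `w` is in `partA` for `k`. Second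
alternative with `t = |u|`: if `n ≤ 2 t`: `live_append` and `live_facts` for `u`: `4 nrj k S + t ≤ 1 + 4 nrj k (run T S u)`, and
`nrj k (run T S u) ≤ nrj k (run T S w)`, so `8 (nrj k (run) - nrj k S) ≥ 2 t - 2 ≥ n - 2`: `partA` for `k`. If `2 t < n`: `tj (k+1) (run T S w) = n - t` by
`live_facts`, so by `tj_le` `n - t ≤ 2 nrj (k+1) (run)`, `8 nrj ≥ 4 (n - t) ≥ 2 n ≥ n`: `partB` for `t`, `t < n`. So the number of words is at most
`(n+1)` times the bound of `partA` plus `n` times the bound of `partB`, in total `≤ (2 n + 1) * Q^2 * (16 q^2)^n / Q^n`.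
-/

set_option autoImplicit false

namespace H31.Comm

variable {K : Type*} [Group K] {q : ℕ} [NeZero q] {T : Bool → TD K q} {F : Bool → Finset K}

open Classical in
theorem partA (hT : ∀ c, (T c).Good (F c)) {S : St K q} (hS : WF T F S) {Q : ℕ} (hQ : 0 < Q)
    (hq : q = Q ^ 8) (n k : ℕ) (z : K) :
    ((words (Fin q × Fin q) n).filter (fun w => Live T k S w ∧ Z T (run T S w) = z ∧
      n + 8 * nrj T k S ≤ 8 * nrj T k (run T S w) + 2)).card * Q ^ n ≤ Q ^ 2 * (16 * q ^ 2) ^ n := by
  have hqp : ∀ i : ℕ, q ^ i = Q ^ (8 * i) := by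
    intro i
    rw [hq, ← pow_mul]
  have hqpos : 0 < q ^ nrj T k S := pow_pos (by rw [hq]; positivity) _
  refine Nat.le_of_mul_le_mul_right ?_ hqpos
  calc ((words (Fin q × Fin q) n).filter (fun w => Live T k S w ∧ Z T (run T S w) = z ∧
        n + 8 * nrj T k S ≤ 8 * nrj T k (run T S w) + 2)).card * Q ^ n * q ^ nrj T k S
      = ∑ w ∈ (words (Fin q × Fin q) n).filter (fun w => Live T k S w ∧ Z T (run T S w) = z ∧
        n + 8 * nrj T k S ≤ 8 * nrj T k (run T S w) + 2), Q ^ n * q ^ nrj T k S := by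
        rw [Finset.sum_const, smul_eq_mul, mul_assoc]
    _ ≤ ∑ w ∈ (words (Fin q × Fin q) n).filter (fun w => Live T k S w ∧ Z T (run T S w) = z ∧
        n + 8 * nrj T k S ≤ 8 * nrj T k (run T S w) + 2), Q ^ 2 * q ^ nrj T k (run T S w) := by
        refine Finset.sum_le_sum fun w hw => ?_
        have h1 := (Finset.mem_filter.1 hw).2.2.2
        rw [hqp, hqp, ← pow_add, ← pow_add]
        exact Nat.pow_le_pow_right hQ (by omega)
    _ ≤ ∑ w ∈ (words (Fin q × Fin q) n).filter (fun w => Live T k S w ∧ Z T (run T S w) = z),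
        Q ^ 2 * q ^ nrj T k (run T S w) := by
        refine Finset.sum_le_sum_of_subset fun w hw => ?_
        rw [Finset.mem_filter] at hw ⊢
        exact ⟨hw.1, hw.2.1, hw.2.2.1⟩
    _ = Q ^ 2 * ∑ w ∈ (words (Fin q × Fin q) n).filter
        (fun w => Live T k S w ∧ Z T (run T S w) = z), q ^ nrj T k (run T S w) := by
        rw [Finset.mul_sum]
    _ ≤ Q ^ 2 * (q ^ nrj T k S * (16 * q ^ 2) ^ n) := Nat.mul_le_mul_left _ (count hT hS k n z)
    _ = Q ^ 2 * (16 * q ^ 2) ^ n * q ^ nrj T k S := by ring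

open Classical in
theorem partB (hT : ∀ c, (T c).Good (F c)) {S : St K q} (hS : WF T F S) {Q : ℕ} (hQ : 0 < Q)
    (hq : q = Q ^ 8) (n t : ℕ) (ht : t ≤ n) (z : K) :
    ((words (Fin q × Fin q) n).filter (fun w => Z T (run T S w) = z ∧ ∃ v u k, w = v ++ u ∧
      u.length = t ∧ (run T S u).L.length = k + 2 ∧ nrj T (k + 1) (run T S u) = 0 ∧
      Live T (k + 1) (run T S u) v ∧ n ≤ 8 * nrj T (k + 1) (run T S w))).card * Q ^ n ≤
      (16 * q ^ 2) ^ n := by
  have hqp : ∀ i : ℕ, q ^ i = Q ^ (8 * i) := by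
    intro i
    rw [hq, ← pow_mul]
  -- the words above a fixed `u`
  let A : List (Fin q × Fin q) → Finset (List (Fin q × Fin q)) := fun u =>
    (words (Fin q × Fin q) (n - t)).filter (fun v =>
      nrj T ((run T S u).L.length - 1) (run T S u) = 0 ∧
      Live T ((run T S u).L.length - 1) (run T S u) v ∧ Z T (run T (run T S u) v) = z ∧
      n ≤ 8 * nrj T ((run T S u).L.length - 1) (run T (run T S u) v))
  have hA : ∀ u, (A u).card * Q ^ n ≤ (16 * q ^ 2) ^ (n - t) := by
    intro u
    by_cases h0 : nrj T ((run T S u).L.length - 1) (run T S u) = 0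
    · calc (A u).card * Q ^ n = ∑ v ∈ A u, Q ^ n := by rw [Finset.sum_const, smul_eq_mul]
        _ ≤ ∑ v ∈ A u, q ^ nrj T ((run T S u).L.length - 1) (run T (run T S u) v) := by
          refine Finset.sum_le_sum fun v hv => ?_
          have h1 := (Finset.mem_filter.1 hv).2.2.2.2
          rw [hqp]
          exact Nat.pow_le_pow_right hQ h1
        _ ≤ ∑ v ∈ (words (Fin q × Fin q) (n - t)).filter
            (fun v => Live T ((run T S u).L.length - 1) (run T S u) v ∧
              Z T (run T (run T S u) v) = z),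
            q ^ nrj T ((run T S u).L.length - 1) (run T (run T S u) v) := by
          refine Finset.sum_le_sum_of_subset fun v hv => ?_
          have h1 := Finset.mem_filter.1 hv
          rw [Finset.mem_filter]
          exact ⟨h1.1, h1.2.2.1, h1.2.2.2.1⟩
        _ ≤ q ^ nrj T ((run T S u).L.length - 1) (run T S u) * (16 * q ^ 2) ^ (n - t) :=
          count hT (hS.run hT u) _ _ _
        _ = (16 * q ^ 2) ^ (n - t) := by rw [h0, pow_zero, one_mul]
    · have : A u = ∅ := by
        refine Finset.filter_false_of_mem fun v _ h => h0 h.1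
      rw [this]
      simp
  have hsub : (words (Fin q × Fin q) n).filter (fun w => Z T (run T S w) = z ∧
      ∃ v u k, w = v ++ u ∧ u.length = t ∧ (run T S u).L.length = k + 2 ∧
      nrj T (k + 1) (run T S u) = 0 ∧
      Live T (k + 1) (run T S u) v ∧ n ≤ 8 * nrj T (k + 1) (run T S w)) ⊆
      (words (Fin q × Fin q) t).biUnion (fun u => (A u).image (fun v => v ++ u)) := by
    intro w hw
    rw [Finset.mem_filter] at hw
    obtain ⟨hwn, hz, v, u, k, rfl, hu, hk, h0, hL, hn⟩ := hw
    rw [Finset.mem_biUnion]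
    refine ⟨u, (mem_words t u).2 hu, Finset.mem_image.2 ⟨v, ?_, rfl⟩⟩
    have hlen := (mem_words n _).1 hwn
    rw [List.length_append] at hlen
    have hkk : (run T S u).L.length - 1 = k + 1 := by omega
    rw [Finset.mem_filter, hkk]
    rw [run_append] at hz hn
    exact ⟨(mem_words _ _).2 (by omega), h0, hL, hz, hn⟩
  have hcard : ((words (Fin q × Fin q) t).biUnion (fun u => (A u).image (fun v => v ++ u))).card
      ≤ ∑ u ∈ words (Fin q × Fin q) t, (A u).card :=
    Finset.card_biUnion_le.trans (Finset.sum_le_sum fun u _ => Finset.card_image_le)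
  calc _ ≤ (∑ u ∈ words (Fin q × Fin q) t, (A u).card) * Q ^ n :=
        Nat.mul_le_mul_right _ ((Finset.card_le_card hsub).trans hcard)
    _ = ∑ u ∈ words (Fin q × Fin q) t, (A u).card * Q ^ n := by rw [Finset.sum_mul]
    _ ≤ ∑ u ∈ words (Fin q × Fin q) t, (16 * q ^ 2) ^ (n - t) :=
        Finset.sum_le_sum fun u _ => hA u
    _ = (q ^ 2) ^ t * (16 * q ^ 2) ^ (n - t) := by
        rw [Finset.sum_const, smul_eq_mul, card_words, Fintype.card_prod, Fintype.card_fin, sq]
    _ ≤ (16 * q ^ 2) ^ t * (16 * q ^ 2) ^ (n - t) := by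
        refine Nat.mul_le_mul_right _ (Nat.pow_le_pow_left ?_ _)
        omega
    _ = (16 * q ^ 2) ^ n := by
        rw [← pow_add]
        congr 1
        omega

open Classical in
theorem total (hT : ∀ c, (T c).Good (F c)) {S : St K q} (hS : WF T F S) {Q : ℕ} (hQ : 0 < Q)
    (hq : q = Q ^ 8) (n : ℕ) (z : K) :
    ((words (Fin q × Fin q) n).filter (fun w => Z T (run T S w) = z)).card * Q ^ n ≤
      (2 * n + 1) * Q ^ 2 * (16 * q ^ 2) ^ n := by
  let A : ℕ → Finset (List (Fin q × Fin q)) := fun k =>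
    (words (Fin q × Fin q) n).filter (fun w => Live T k S w ∧ Z T (run T S w) = z ∧
      n + 8 * nrj T k S ≤ 8 * nrj T k (run T S w) + 2)
  let B : ℕ → Finset (List (Fin q × Fin q)) := fun t =>
    (words (Fin q × Fin q) n).filter (fun w => Z T (run T S w) = z ∧ ∃ v u k, w = v ++ u ∧
      u.length = t ∧ (run T S u).L.length = k + 2 ∧ nrj T (k + 1) (run T S u) = 0 ∧
      Live T (k + 1) (run T S u) v ∧ n ≤ 8 * nrj T (k + 1) (run T S w))
  have hsub : (words (Fin q × Fin q) n).filter (fun w => Z T (run T S w) = z) ⊆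
      ((Finset.Ico (S.L.length - (n + 1)) S.L.length).biUnion A) ∪
        ((Finset.range n).biUnion B) := by
    intro w hw
    rw [Finset.mem_filter] at hw
    obtain ⟨hwn, hz⟩ := hw
    have hlen : w.length = n := (mem_words n w).1 hwn
    obtain ⟨k, hL, hk, h⟩ := dich hT hS w
    have hlk := live_length S k w hL
    have hkI : k ∈ Finset.Ico (S.L.length - (n + 1)) S.L.length := by
      rw [Finset.mem_Ico]
      omega
    rw [Finset.mem_union]
    rcases h with h | ⟨v, u, hvu, h1, h2, h3, h4, h5⟩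
    · left
      rw [Finset.mem_biUnion]
      refine ⟨k, hkI, Finset.mem_filter.2 ⟨hwn, hL, hz, ?_⟩⟩
      have hb := top_b (hS.run hT w) k h
      have hf := (live_facts S k w hL).1
      rw [hb] at hf
      omega
    · have hlvu : v.length + u.length = n := by
        rw [← hlen, hvu, List.length_append]
      by_cases ht : n ≤ 2 * u.length
      · left
        rw [Finset.mem_biUnion]
        refine ⟨k, hkI, Finset.mem_filter.2 ⟨hwn, hL, hz, ?_⟩⟩
        rw [hvu] at hL
        obtain ⟨hu, hv⟩ := live_append S k v u hL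
        have hf := (live_facts S k u hu).1
        have hg := (live_facts (run T S u) k v hv).2.1
        rw [← run_append, ← hvu] at hg
        rw [h4] at hf
        omega
      · right
        rw [Finset.mem_biUnion]
        refine ⟨u.length, Finset.mem_range.2 (by omega), Finset.mem_filter.2 ⟨hwn, hz, v, u, k,
          hvu, rfl, h1, h3, h5, ?_⟩⟩
        have hg := (live_facts (run T S u) (k + 1) v h5).2.2
        have hl := (live_length (run T S u) (k + 1) v h5).2
        rw [← run_append, ← hvu] at hg hl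
        have ht2 := tj_le hT (hS.run hT w) (k + 1) hl
        rw [h2] at hg
        omega
  have hcA : ((Finset.Ico (S.L.length - (n + 1)) S.L.length).biUnion A).card * Q ^ n ≤
      (n + 1) * (Q ^ 2 * (16 * q ^ 2) ^ n) := by
    calc _ ≤ (∑ k ∈ Finset.Ico (S.L.length - (n + 1)) S.L.length, (A k).card) * Q ^ n :=
          Nat.mul_le_mul_right _ Finset.card_biUnion_le
      _ = ∑ k ∈ Finset.Ico (S.L.length - (n + 1)) S.L.length, (A k).card * Q ^ n := by
          rw [Finset.sum_mul]
      _ ≤ ∑ k ∈ Finset.Ico (S.L.length - (n + 1)) S.L.length, Q ^ 2 * (16 * q ^ 2) ^ n :=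
          Finset.sum_le_sum fun k _ => partA hT hS hQ hq n k z
      _ ≤ (n + 1) * (Q ^ 2 * (16 * q ^ 2) ^ n) := by
          rw [Finset.sum_const, smul_eq_mul, Nat.card_Ico]
          exact Nat.mul_le_mul_right _ (by omega)
  have hcB : ((Finset.range n).biUnion B).card * Q ^ n ≤ n * (16 * q ^ 2) ^ n := by
    calc _ ≤ (∑ t ∈ Finset.range n, (B t).card) * Q ^ n :=
          Nat.mul_le_mul_right _ Finset.card_biUnion_le
      _ = ∑ t ∈ Finset.range n, (B t).card * Q ^ n := by rw [Finset.sum_mul]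
      _ ≤ ∑ t ∈ Finset.range n, (16 * q ^ 2) ^ n :=
          Finset.sum_le_sum fun t ht => partB hT hS hQ hq n t (Finset.mem_range.1 ht).le z
      _ = n * (16 * q ^ 2) ^ n := by
          rw [Finset.sum_const, smul_eq_mul, Finset.card_range]
  have hQ2 : 1 ≤ Q ^ 2 := Nat.one_le_pow _ _ hQ
  calc _ ≤ (((Finset.Ico (S.L.length - (n + 1)) S.L.length).biUnion A).card +
        ((Finset.range n).biUnion B).card) * Q ^ n :=
        Nat.mul_le_mul_right _ ((Finset.card_le_card hsub).trans (Finset.card_union_le _ _))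
    _ = ((Finset.Ico (S.L.length - (n + 1)) S.L.length).biUnion A).card * Q ^ n +
        ((Finset.range n).biUnion B).card * Q ^ n := by rw [add_mul]
    _ ≤ (n + 1) * (Q ^ 2 * (16 * q ^ 2) ^ n) + n * (16 * q ^ 2) ^ n := add_le_add hcA hcB
    _ ≤ (n + 1) * (Q ^ 2 * (16 * q ^ 2) ^ n) + n * (Q ^ 2 * (16 * q ^ 2) ^ n) := by
        refine Nat.add_le_add_left (Nat.mul_le_mul_left _ ?_) _
        exact Nat.le_mul_of_pos_left _ hQ2
    _ = (2 * n + 1) * Q ^ 2 * (16 * q ^ 2) ^ n := by ring

end H31.Comm
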