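import Pool.Agent.H31.Comm.TMain
import Pool.Agent.H31.Comm.Total
import Pool.Agent.H31.Comm.Disp
import Pool.Agent.H31.Comm.LSG
import Pool.Agent.H31.Supra.Conc

/-!
CS-MAIN. A supramenable group contains no two commuting finite sets of exponential growth.
-/

set_option autoImplicit false

open scoped Pointwise

namespace H31.Comm

variable {K : Type*} [Group K]

theorem comm_pow_left [DecidableEq K] {S : Finset K} {y : K} (h : ∀ x ∈ S, x * y = y * x) (n : ℕ) :
    ∀ x ∈ S ^ n, x * y = y * x := by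
  induction n with
  | zero =>
    intro x hx
    rw [pow_zero, Finset.mem_one] at hx
    rw [hx, one_mul, mul_one]
  | succ n ih =>
    intro x hx
    rw [pow_succ, Finset.mem_mul] at hx
    obtain ⟨a, ha, b, hb, rfl⟩ := hx
    rw [mul_assoc, h b hb, ← mul_assoc, ih a ha, mul_assoc]

theorem comm_pow [DecidableEq K] {S R : Finset K} (h : ∀ x ∈ S, ∀ y ∈ R, x * y = y * x)
    (m n : ℕ) : ∀ x ∈ S ^ m, ∀ y ∈ R ^ n, x * y = y * x := by
  intro x hx y hy
  refine comm_pow_left (fun a ha => ?_) m x hx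
  exact (comm_pow_left (fun b hb => (h a ha b hb).symm) n y hy).symm

theorem two_mul_add_one_le (n : ℕ) : 2 * n + 1 ≤ 2 * 2 ^ n := by
  induction n with
  | zero => norm_num
  | succ n ih =>
    have : 1 ≤ 2 ^ n := Nat.one_le_two_pow
    rw [pow_succ]; omega

theorem sub_or_sub [DecidableEq K]
    (hK : ∀ A : Set K, A.Nonempty → H31.Supra.HasMeasure A) (S₀ S₁ : Finset K)
    (hcomm : ∀ x ∈ S₀, ∀ y ∈ S₁, x * y = y * x) : Sub S₀ ∨ Sub S₁ := by
  classical
  by_contra hcon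
  rw [not_or] at hcon
  -- trees
  have key : ∀ S : Finset K, ¬ Sub S → ∀ (q : ℕ) [NeZero q], 2 ≤ q →
      ∃ (b : ℕ) (T : TD K q), T.Good ((insert 1 S) ^ b) := by
    intro S hS q _ hq
    apply exists_tree _ (Finset.mem_insert_self _ _) _ q hq
    unfold Sub at hS
    push Not at hS
    obtain ⟨c, hc, h⟩ := hS
    refine ⟨c, hc, fun C => ?_⟩
    obtain ⟨n, hn⟩ := h C
    refine ⟨n, hn.trans_le ?_⟩
    exact_mod_cast Finset.card_le_card (Finset.pow_subset_pow_left (Finset.subset_insert _ _))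
  have hcomm' : ∀ x ∈ insert 1 S₀, ∀ y ∈ insert 1 S₁, x * y = y * x := by
    intro x hx y hy
    rw [Finset.mem_insert] at hx hy
    rcases hx with rfl | hx
    · simp
    · rcases hy with rfl | hy
      · simp
      · exact hcomm x hx y hy
  obtain ⟨q, hqdef⟩ : ∃ q : ℕ, q = 64 ^ 8 := ⟨_, rfl⟩
  have hq2 : 2 ≤ q := by rw [hqdef]; norm_num
  have : NeZero q := ⟨by omega⟩
  obtain ⟨b₀, T₀, hT₀⟩ := key S₀ hcon.1 q hq2
  obtain ⟨b₁, T₁, hT₁⟩ := key S₁ hcon.2 q hq2
  let T : Bool → TD K q := fun c => cond c T₁ T₀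
  let F : Bool → Finset K := fun c => cond c ((insert 1 S₁) ^ b₁) ((insert 1 S₀) ^ b₀)
  have hT : ∀ c, (T c).Good (F c) := by
    intro c
    cases c
    · exact hT₀
    · exact hT₁
  have hF : Com F := by
    intro c x hx y hy
    cases c
    · exact comm_pow hcomm' b₀ b₁ x hx y hy
    · exact (comm_pow hcomm' b₀ b₁ y hy x hx).symm
  let R₀ : St K q := ⟨1, [Lev.new K q false]⟩
  have hR₀ : WF T F R₀ := WF.init
  let dec : Fin (q * q) → Fin q × Fin q := fun i => finProdFinEquiv.symm i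
  have hdec : Function.Injective dec := finProdFinEquiv.symm.injective
  let g : List (Fin (q * q)) → K := fun w => (Z T (run T R₀ (w.map dec)))⁻¹
  let E : Finset K := (finite_Ltr F).toFinset
  let S : Finset K := (E ×ˢ E).image (fun p : K × K => (p.1 * p.2)⁻¹)
  have hS : ∀ w t, ∃ s ∈ S, g (w :: t) = s * g t := by
    intro w t
    obtain ⟨a, ha, b, hb, h⟩ := Z_step hT hF (hR₀.run hT (t.map dec)) (dec w)
    refine ⟨(a * b)⁻¹, ?_, ?_⟩
    · apply Finset.mem_image.2
      exact ⟨(a, b), Finset.mem_product.2 ⟨(Set.Finite.mem_toFinset _).2 ha,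
        (Set.Finite.mem_toFinset _).2 hb⟩, rfl⟩
    · show (Z T (run T R₀ ((w :: t).map dec)))⁻¹ = _
      rw [List.map_cons, run, h, mul_inv_rev]
  have hqq : 0 < q * q := by positivity
  obtain ⟨t, n, x, hx⟩ := H31.Supra.concentrates hK hqq S g hS (2 * 64 ^ 2) (1 / 2)
    (by norm_num) (by norm_num)
  set R := run T R₀ (t.map dec) with hR
  have hRW : WF T F R := hR₀.run hT _
  have h1 : ({s : List (Fin (q * q)) | s.length = n ∧ g (s ++ t) = x}.ncard) ≤
      ((words (Fin q × Fin q) n).filter (fun w => Z T (run T R w) = x⁻¹)).card := by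
    rw [← Set.ncard_coe_finset]
    apply Set.ncard_le_ncard_of_injOn (fun s => s.map dec)
    · rintro s ⟨hs1, hs2⟩
      simp only [Finset.coe_filter, Set.mem_ofPred_eq, mem_words, List.length_map]
      refine ⟨hs1, ?_⟩
      rw [← hs2]
      show _ = ((Z T (run T R₀ ((s ++ t).map dec)))⁻¹)⁻¹
      rw [List.map_append, run_append, inv_inv]
    · intro a _ b _ hab
      exact List.map_injective_iff.2 hdec hab
  have h2 : ((words (Fin q × Fin q) n).filter (fun w => Z T (run T R w) = x⁻¹)).card * 64 ^ n ≤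
      (2 * n + 1) * 64 ^ 2 * (16 * q ^ 2) ^ n := by
    convert total hT hRW (Q := 64) (by norm_num) hqdef n x⁻¹
  have h3 : ({s : List (Fin (q * q)) | s.length = n ∧ g (s ++ t) = x}.ncard) * 64 ^ n ≤
      (2 * 2 ^ n) * 64 ^ 2 * (16 * q ^ 2) ^ n := by
    refine le_trans (Nat.mul_le_mul_right _ h1) (h2.trans ?_)
    exact Nat.mul_le_mul_right _ (Nat.mul_le_mul_right _ (two_mul_add_one_le n))
  have h4 : (({s : List (Fin (q * q)) | s.length = n ∧ g (s ++ t) = x}.ncard : ℕ) : ℝ) * 64 ^ n ≤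
      (2 * 2 ^ n) * 64 ^ 2 * (16 * (q : ℝ) ^ 2) ^ n := by exact_mod_cast h3
  have h5 : (2 * 2 ^ n) * 64 ^ 2 * (16 * (q : ℝ) ^ 2) ^ n =
      (2 * 64 ^ 2 * (1 / 2 * ((q * q : ℕ) : ℝ)) ^ n) * 64 ^ n := by
    push_cast
    have : (16 * (q : ℝ) ^ 2) = (1 / 2 * ((q : ℝ) * q)) * 32 := by ring
    rw [this, mul_pow (1 / 2 * ((q : ℝ) * q)) 32 n]
    have h64 : (64 : ℝ) ^ n = 2 ^ n * 32 ^ n := by rw [← mul_pow]; norm_num
    rw [h64]
    ring
  rw [h5] at h4
  have h6 : (0 : ℝ) < 64 ^ n := by positivity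
  exact absurd (le_of_mul_le_mul_right h4 h6) (not_le.2 hx)

end H31.Comm
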