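import Pool.Agent.H31.Comm.Defs

/-!
JOB CS-SPHERE. Spheres, a parent map, numbers of descendants.

PROOF. `S^n ⊆ S^(n+1)` as `1 ∈ S`. `exists_par`: for `g ∈ sph S (n+1) = S^(n+1) \ S^n` write `g = g' * s`, `g' ∈ S^n`, `s ∈ S`; `g' ∈ sph S n`:
for `n = 0` `S^0 = {1}`; for `n = m + 1`, `g' ∈ S^m` would give `g ∈ S^(m+1)`. The spheres are pairwise disjoint, so `par` can be chosen once for all
(define `par g` by choice for the unique `n`, or `by classical; choose` for `g` in some sphere: if `g ∈ sph (n+1)` and `g ∈ sph (m+1)` then `n = m`).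
`iter`: induction on `m`: `par^[m]` maps `sph (k+m)` to `sph k` and `(par^[m] v)⁻¹ * v ∈ S^m` (`Function.iterate_succ_apply'` or `iterate_succ_apply`;
`(par^[m] v)⁻¹ v = ((par^[m] v)⁻¹ * v') * (v'⁻¹ v)` along the chain). `dc_root`: all `v ∈ sph n` have `par^[n] v ∈ sph 0 = {1}`.
`dc_le`: `v ↦ g⁻¹ * v` is injective from the descendants to `S^(n-k)`. `chd_card`: the same. `dc_split`: `par^[n-k] v = par^[b] (par^[n-(k+b)] v)`; partition
the descendants `v ∈ sph n` of `g` by `par^[n-(k+b)] v ∈ chd` (`Finset.card_eq_sum_card_fiberwise`).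
`sph_card`: for `n ≥ 1` `(sph S n).card = (S^n).card - (S^(n-1)).card` (`Finset.card_sdiff`), and `Rec`-type hypothesis `hr` for `m = n - 1`; for `n = 0`: `1`.
-/

set_option autoImplicit false

open scoped Pointwise

namespace H31.Comm

variable {K : Type*} [Group K] [DecidableEq K]

/-- the spheres -/
def sph (S : Finset K) : ℕ → Finset K
  | 0 => {1}
  | n + 1 => S ^ (n + 1) \ S ^ n

/-- `par` is a parent map -/
def IsPar (S : Finset K) (par : K → K) : Prop :=
  ∀ n, ∀ g ∈ sph S (n + 1), par g ∈ sph S n ∧ (par g)⁻¹ * g ∈ S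

/-- the number of descendants of `g ∈ sph k` on the sphere `n` -/
def dc (S : Finset K) (par : K → K) (n k : ℕ) (g : K) : ℕ :=
  ((sph S n).filter (fun v => par^[n - k] v = g)).card

/-- the descendants of `g ∈ sph k` on the sphere `k + b` -/
def chd (S : Finset K) (par : K → K) (b k : ℕ) (g : K) : Finset K :=
  (sph S (k + b)).filter (fun v => par^[b] v = g)

theorem sphere_pow_subset {S : Finset K} (h1 : (1 : K) ∈ S) {m n : ℕ} (h : m ≤ n) : S ^ m ⊆ S ^ n :=
  Finset.pow_subset_pow_right h1 h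

theorem exists_par (S : Finset K) (h1 : (1 : K) ∈ S) : ∃ par : K → K, IsPar S par := by
  classical
  have h : ∀ g : K, ∃ g' : K, ∀ n, g ∈ sph S (n + 1) → g' ∈ sph S n ∧ g'⁻¹ * g ∈ S := by
    intro g
    by_cases hg : ∃ n, g ∈ sph S (n + 1)
    · obtain ⟨n, hn⟩ := hg
      have huniq : ∀ m, g ∈ sph S (m + 1) → m = n := by
        intro m hm
        simp only [sph, Finset.mem_sdiff] at hn hm
        rcases lt_trichotomy m n with hlt | heq | hgt
        · exact (hn.2 (sphere_pow_subset h1 (by omega) hm.1)).elim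
        · exact heq
        · exact (hm.2 (sphere_pow_subset h1 (by omega) hn.1)).elim
      have hn' := hn
      simp only [sph, Finset.mem_sdiff] at hn'
      obtain ⟨h2, h3⟩ := hn'
      rw [pow_succ, Finset.mem_mul] at h2
      obtain ⟨g', hg', s, hs, rfl⟩ := h2
      refine ⟨g', fun m hm => ?_⟩
      rw [huniq m hm]
      refine ⟨?_, by simpa using hs⟩
      cases n with
      | zero => simpa [sph] using hg'
      | succ n =>
        simp only [sph, Finset.mem_sdiff]
        refine ⟨hg', fun h4 => h3 ?_⟩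
        rw [pow_succ]
        exact Finset.mul_mem_mul h4 hs
    · exact ⟨1, fun n hn => (hg ⟨n, hn⟩).elim⟩
  choose par hpar using h
  exact ⟨par, fun n g hg => hpar g n hg⟩

theorem IsPar.iter {S : Finset K} {par : K → K} (h : IsPar S par) (k m : ℕ) (v : K)
    (hv : v ∈ sph S (k + m)) : par^[m] v ∈ sph S k ∧ (par^[m] v)⁻¹ * v ∈ S ^ m := by
  induction m generalizing v with
  | zero => simpa using hv
  | succ m ih =>
    obtain ⟨h1, h2⟩ := h (k + m) v hv
    obtain ⟨h3, h4⟩ := ih (par v) h1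
    rw [Function.iterate_succ_apply]
    refine ⟨h3, ?_⟩
    have e : (par^[m] (par v))⁻¹ * v = ((par^[m] (par v))⁻¹ * par v) * ((par v)⁻¹ * v) := by group
    rw [e, pow_succ]
    exact Finset.mul_mem_mul h4 h2

theorem dc_root {S : Finset K} {par : K → K} (h : IsPar S par) (n : ℕ) :
    dc S par n 0 1 = (sph S n).card := by
  unfold dc
  congr 1
  refine Finset.filter_true_of_mem fun v hv => ?_
  have := (h.iter 0 n v (by simpa using hv)).1
  simpa [sph] using this

theorem dc_le {S : Finset K} {par : K → K} (h : IsPar S par) (n k : ℕ) (hk : k ≤ n) (g : K) :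
    dc S par n k g ≤ (S ^ (n - k)).card := by
  unfold dc
  refine Finset.card_le_card_of_injOn (fun v => g⁻¹ * v) ?_ (fun a _ b _ hab => mul_left_cancel hab)
  intro v hv
  obtain ⟨hv1, hv2⟩ := Finset.mem_filter.1 (Finset.mem_coe.1 hv)
  have h2 := (h.iter k (n - k) v (by rwa [Nat.add_sub_cancel' hk])).2
  rw [hv2] at h2
  exact Finset.mem_coe.2 h2

theorem chd_card {S : Finset K} {par : K → K} (h : IsPar S par) (b k : ℕ) (g : K) :
    (chd S par b k g).card ≤ (S ^ b).card := by
  unfold chd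
  refine Finset.card_le_card_of_injOn (fun v => g⁻¹ * v) ?_ (fun a _ b _ hab => mul_left_cancel hab)
  intro v hv
  obtain ⟨hv1, hv2⟩ := Finset.mem_filter.1 (Finset.mem_coe.1 hv)
  have h2 := (h.iter k b v hv1).2
  rw [hv2] at h2
  exact Finset.mem_coe.2 h2

theorem dc_split {S : Finset K} {par : K → K} (h : IsPar S par) (n k b : ℕ) (hk : k + b ≤ n)
    (g : K) : dc S par n k g = ∑ v ∈ chd S par b k g, dc S par n (k + b) v := by
  have he : ∀ v, par^[b] (par^[n - (k + b)] v) = par^[n - k] v := by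
    intro v
    rw [← Function.iterate_add_apply]
    congr 1
    omega
  unfold dc
  rw [Finset.card_eq_sum_card_fiberwise (f := fun v => par^[n - (k + b)] v) (t := chd S par b k g)]
  · refine Finset.sum_congr rfl fun v hv => ?_
    congr 1
    ext u
    simp only [Finset.mem_filter]
    obtain ⟨hv1, hv2⟩ := Finset.mem_filter.1 hv
    constructor
    · rintro ⟨⟨h1, h2⟩, h3⟩
      exact ⟨h1, h3⟩
    · rintro ⟨h1, h3⟩
      refine ⟨⟨h1, ?_⟩, h3⟩
      rw [← he u, h3, hv2]
  · intro v hv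
    obtain ⟨hv1, hv2⟩ := Finset.mem_filter.1 (Finset.mem_coe.1 hv)
    refine Finset.mem_coe.2 (Finset.mem_filter.2 ⟨?_, ?_⟩)
    · exact (h.iter (k + b) (n - (k + b)) v (by rwa [Nat.add_sub_cancel' hk])).1
    · rw [he v, hv2]

theorem sph_card {S : Finset K} (h1 : (1 : K) ∈ S) {lam c₁ : ℝ} (hl : 1 < lam)
    (hc : c₁ ≤ 1 - 1 / lam) (n : ℕ)
    (hr : ∀ m ≤ n, ((S ^ m).card : ℝ) * lam ^ (n - m) ≤ ((S ^ n).card : ℝ)) :
    c₁ * ((S ^ n).card : ℝ) ≤ ((sph S n).card : ℝ) := by
  have hl0 : 0 < lam := by linarith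
  cases n with
  | zero =>
    have : (0 : ℝ) < 1 / lam := by positivity
    simp only [pow_zero, sph]
    simp
    linarith
  | succ n =>
    have h2 := hr n (Nat.le_succ n)
    have e : n + 1 - n = 1 := by omega
    rw [e, pow_one] at h2
    have h3 : (sph S (n + 1)).card = (S ^ (n + 1)).card - (S ^ n).card :=
      Finset.card_sdiff_of_subset (sphere_pow_subset h1 (Nat.le_succ n))
    have h4 : (S ^ n).card ≤ (S ^ (n + 1)).card := Finset.card_le_card (sphere_pow_subset h1 (Nat.le_succ n))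
    rw [h3, Nat.cast_sub h4]
    have h5 : ((S ^ n).card : ℝ) ≤ ((S ^ (n + 1)).card : ℝ) * (1 / lam) := by
      rw [mul_one_div, le_div_iff₀ hl0]
      exact h2
    have h6 : (0 : ℝ) ≤ ((S ^ (n + 1)).card : ℝ) := by positivity
    nlinarith

end H31.Comm
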