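import Pool.Agent.H31.Comm.TStep

/-!
JOB CS-TMAIN. The tree.

PROOF. Take `b, lam, c₁` from `growth_consts` and `par` from `exists_par`. Node type `N = {x : K × ℕ × ℕ // AA S par b lam c₁ q x.1 x.2.1 x.2.2}`
(element, level, number of poor steps). From `AA_step` choose `isrich : N → Bool` and `ch : N → Fin q → N`: if the first
alternative holds (rich): `ch x i = (f i, j+1, p)`, otherwise `ch x i = (v, j+1, p+1)` for all `i`. So: `(ch x i).level = level x + 1`,
`poor (ch x i) = poor x + (if rich then 0 else 1)`, `par^[b] (ch x i).1 = x.1`, `x.1⁻¹ * (ch x i).1 ∈ S^b`, and `i ↦ (ch x i).1` is injective if `x` is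
rich and constant if not. Define `node : List (Fin q) → N`: `node [] = (1,0,0)` (`AA_root`), `node (d :: t) = ch (node t) d`; `T.rich t = isrich (node t)`,
`T.lt t d = (node t).1⁻¹ * (ch (node t) d).1`. Then for all `t`: `T.ev t = (node t).1`, level `= t.length`, poor number `= T.np t`. `letF` clear. `dens`:
`AA_dens` for `node t`. `inj`: by induction on `s`: `d :: s`, `e :: t` nodes (`Val`) with equal values: `(ch (node s) d).1 = (ch (node t) e).1`; apply
`par^[b]`: `(node s).1 = (node t).1`, i.e. `ev s = ev t`, so `s = t` by induction; then `(ch (node s) d).1 = (ch (node s) e).1` gives `d = e` if rich, and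
if poor `d = 0 = e` by `Val`.
-/

set_option autoImplicit false

open scoped Pointwise

namespace H31.Comm

variable {K : Type*} [Group K] [DecidableEq K]

theorem exists_tree (S : Finset K) (h1 : (1 : K) ∈ S)
    (hexp : ∃ c : ℝ, 1 < c ∧ ∀ C : ℝ, ∃ n : ℕ, C * c ^ n < ((S ^ n).card : ℝ))
    (q : ℕ) (hq : 2 ≤ q) [NeZero q] :
    ∃ (b : ℕ) (T : TD K q), T.Good (S ^ b) := by
  obtain ⟨b, lam, c₁, hb, hl, hc0, hc, hrec, hd⟩ := growth_consts S h1 hexp q hq
  obtain ⟨par, hpar⟩ := exists_par S h1
  have step : ∀ x : {x : K × ℕ × ℕ // AA S par b lam c₁ q x.1 x.2.1 x.2.2},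
      ∃ (r : Bool) (c : Fin q → {x : K × ℕ × ℕ // AA S par b lam c₁ q x.1 x.2.1 x.2.2}),
        (∀ i, par^[b] (c i).1.1 = x.1.1 ∧ x.1.1⁻¹ * (c i).1.1 ∈ S ^ b ∧
          (c i).1.2.1 = x.1.2.1 + 1 ∧ (c i).1.2.2 = x.1.2.2 + (if r then 0 else 1)) ∧
        (r = true → Function.Injective fun i => (c i).1.1) := by
    rintro ⟨⟨g, j, p⟩, hx⟩
    rcases AA_step h1 hpar hl hc0 (by omega : 0 < q) hx with ⟨f, hf, hfi⟩ | ⟨v, hv1, hv2, hv3⟩
    · refine ⟨true, fun i => ⟨(f i, j + 1, p), (hfi i).2.2⟩, ?_, ?_⟩
      · intro i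
        exact ⟨(hfi i).1, (hfi i).2.1, rfl, by simp⟩
      · intro _
        exact hf
    · refine ⟨false, fun i => ⟨(v, j + 1, p + 1), hv3⟩, ?_, ?_⟩
      · intro i
        exact ⟨hv1, hv2, rfl, by simp⟩
      · intro h
        simp at h
  choose isrich ch hch hinj using step
  let root : {x : K × ℕ × ℕ // AA S par b lam c₁ q x.1 x.2.1 x.2.2} :=
    ⟨(1, 0, 0), AA_root h1 hpar hl hc0 hc hrec q⟩
  let node : List (Fin q) → {x : K × ℕ × ℕ // AA S par b lam c₁ q x.1 x.2.1 x.2.2} :=
    fun t => t.foldr (fun d x => ch x d) root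
  have hnil : node [] = root := rfl
  have hcons : ∀ d t, node (d :: t) = ch (node t) d := fun d t => rfl
  let T : TD K q :=
    ⟨fun t => isrich (node t), fun t d => (node t).1.1⁻¹ * (ch (node t) d).1.1⟩
  have hTr : ∀ t, T.rich t = isrich (node t) := fun t => rfl
  have hTl : ∀ t d, T.lt t d = (node t).1.1⁻¹ * (ch (node t) d).1.1 := fun t d => rfl
  have hev : ∀ t, T.ev t = (node t).1.1 := by
    intro t
    induction t with
    | nil => rfl
    | cons d t ih =>
      rw [TD.ev, ih, hTl, hcons, mul_inv_cancel_left]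
  have hlev : ∀ t, (node t).1.2.1 = t.length := by
    intro t
    induction t with
    | nil => rfl
    | cons d t ih =>
      rw [hcons, (hch (node t) d).2.2.1, ih, List.length_cons]
  have hnp : ∀ t, (node t).1.2.2 = T.np t := by
    intro t
    induction t with
    | nil => rfl
    | cons d t ih =>
      rw [hcons, (hch (node t) d).2.2.2, ih, TD.np, hTr]
  refine ⟨b, T, ?_, ?_, ?_⟩
  · intro t d _
    rw [hTl]
    exact (hch (node t) d).2.1
  · intro s
    induction s with
    | nil =>
      intro t _ _ hlen _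
      exact (List.length_eq_zero_iff.1 hlen.symm).symm
    | cons d s ih =>
      intro t hs ht hlen he
      cases t with
      | nil => simp at hlen
      | cons e t =>
        have h2 : s.length = t.length := by simpa using hlen
        have h3 : (ch (node s) d).1.1 = (ch (node t) e).1.1 := by
          have h4 := he
          rw [hev, hev, hcons, hcons] at h4
          exact h4
        have h5 : T.ev s = T.ev t := by
          rw [hev, hev, ← (hch (node s) d).1, ← (hch (node t) e).1, h3]
        have h6 : s = t := ih t hs.1 ht.1 h2 h5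
        subst h6
        have h7 : d = e := by
          cases hr : isrich (node s) with
          | true => exact hinj (node s) hr h3
          | false => rw [hs.2 (by rw [hTr, hr]), ht.2 (by rw [hTr, hr])]
        rw [h7]
  · intro t _
    have h2 := AA_dens h1 hpar hl hd (node t).2
    rw [hnp, hlev] at h2
    exact h2

end H31.Comm
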