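import Pool.Agent.H31.Comm.Growth
import Pool.Agent.H31.Comm.Sphere

/-!
JOB CS-TSTEP. The step lemma for the construction of the tree.

PROOF. `heavy`: let `H` be the `v ∈ Ch` with `U ≤ 2 M u(v)`. If `q ≤ |H|` take an injection `Fin q → H`. Otherwise: the others have
`2 M u(v) < U`, at most `M` of them, so their sum `s` satisfies `2 M s ≤ M U` (`M ≥ 1` as `U > 0` forces `Ch` nonempty), `2 s ≤ U`; so
`2 ∑_H u ≥ U > 0`, `H` is nonempty, and with `v ∈ H` maximal, `U ≤ 2 |H| u(v) ≤ 2 q u(v)`.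
`AA_root`: `sph 0 = {1}`, `dc_root`, `sph_card`.
`AA_step`: there are infinitely many `n ≥ b (j+1)` with `Rec n` and `c₁ β_n ≤ (2 M)^(j-p) (2 q)^p dc n (b j) g`; for each of them `dc > 0` (`c₁ β_n > 0`), and by
`heavy` for `Ch = chd S par b (b j) g`, `u(v) = dc n (b j + b) v`, `U = dc n (b j) g` (`dc_split`, `chd_card`), either an injective
`f : Fin q → K` with values in `Ch` and `U ≤ 2 M u(f i)` for all `i`, or `v ∈ Ch` with `U ≤ 2 q u(v)`. The values lie in the finite set `Ch`, which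
does not depend on `n`, so by pigeonhole one `f` or one `v` occurs for infinitely many `n` (e.g. apply `Set.Infinite` / finite fibre
lemma `Finite.exists_infinite_fiber` to the choice function into the finite type `(Fin q → Ch) ⊕ Ch`; or argue by contradiction: if every one
of the finitely many options fails from some `N` on, take `n` larger than all these `N`). Then `AA (f i) (j+1) p`: `c₁ β_n ≤ (2M)^(j-p) (2q)^p * 2 M * u(f i)`
`= (2 M)^(j+1-p) ...`, and `AA v (j+1) (p+1)`: factor `2 q`, `j + 1 - (p + 1) = j - p`. `b (j+1) = b j + b`. `par^[b] (f i) = g` and `g⁻¹ * f i ∈ S^b` by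
`IsPar.iter`.
`AA_dens`: take one `n ≥ b j` from `AA`; `dc n (b j) g ≤ β_(n - b j)` (`dc_le`) and `Rec`: `β_(n - b j) lam^(b j) ≤ β_n`; multiply
`c₁ β_n ≤ (2M)^(j-p) (2q)^p β_(n - b j)` by `lam^(b j)` and cancel `β_n > 0`; apply `hd`.
-/

set_option autoImplicit false

open scoped Pointwise

namespace H31.Comm

theorem heavy {K : Type*} [DecidableEq K] (Ch : Finset K) (u : K → ℕ) (U M q : ℕ) (hq : 0 < q)
    (hU : 0 < U) (hsum : U = ∑ v ∈ Ch, u v) (hM : Ch.card ≤ M) :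
    (∃ f : Fin q → K, Function.Injective f ∧ ∀ i, f i ∈ Ch ∧ U ≤ 2 * M * u (f i)) ∨
      ∃ v ∈ Ch, U ≤ 2 * q * u v := by
  classical
  obtain ⟨H, hH⟩ : ∃ H, H = Ch.filter (fun v => U ≤ 2 * M * u v) := ⟨_, rfl⟩
  rcases le_or_gt q H.card with hc | hc
  · left
    refine ⟨fun i => (H.equivFin.symm (Fin.castLE hc i)).1, ?_, ?_⟩
    · intro i j hij
      have h1 := H.equivFin.symm.injective (Subtype.ext hij)
      exact Fin.castLE_injective hc h1
    · intro i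
      have h0 : ∀ x ∈ H, x ∈ Ch ∧ U ≤ 2 * M * u x := by
        intro x hx
        rw [hH, Finset.mem_filter] at hx
        exact hx
      exact h0 _ (H.equivFin.symm (Fin.castLE hc i)).2
  · right
    have hsplit := Finset.sum_filter_add_sum_filter_not Ch (fun v => U ≤ 2 * M * u v) u
    rw [← hsum, ← hH] at hsplit
    have hMpos : 0 < M := by
      rcases Finset.eq_empty_or_nonempty Ch with h | h
      · rw [h, Finset.sum_empty] at hsum
        omega
      · exact lt_of_lt_of_le (Finset.card_pos.2 h) hM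
    have h2 : 2 * M * ∑ v ∈ Ch.filter (fun v => ¬ U ≤ 2 * M * u v), u v ≤ M * U := by
      rw [Finset.mul_sum]
      calc ∑ v ∈ Ch.filter (fun v => ¬ U ≤ 2 * M * u v), 2 * M * u v
          ≤ ∑ _v ∈ Ch.filter (fun v => ¬ U ≤ 2 * M * u v), U := by
            refine Finset.sum_le_sum fun v hv => ?_
            have := (Finset.mem_filter.1 hv).2
            omega
        _ = (Ch.filter (fun v => ¬ U ≤ 2 * M * u v)).card * U := by
            rw [Finset.sum_const, smul_eq_mul]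
        _ ≤ M * U := Nat.mul_le_mul_right _ ((Finset.card_filter_le _ _).trans hM)
    have h3 : 2 * ∑ v ∈ Ch.filter (fun v => ¬ U ≤ 2 * M * u v), u v ≤ U := by
      have h4 : M * (2 * ∑ v ∈ Ch.filter (fun v => ¬ U ≤ 2 * M * u v), u v) ≤ M * U := by
        calc _ = 2 * M * ∑ v ∈ Ch.filter (fun v => ¬ U ≤ 2 * M * u v), u v := by ring
          _ ≤ M * U := h2
      exact Nat.le_of_mul_le_mul_left h4 hMpos
    have h5 : U ≤ 2 * ∑ v ∈ H, u v := by omega
    have hne : H.Nonempty := by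
      rcases Finset.eq_empty_or_nonempty H with h | h
      · rw [h, Finset.sum_empty] at h5
        omega
      · exact h
    obtain ⟨v, hv, hmax⟩ := Finset.exists_max_image H u hne
    refine ⟨v, ?_, ?_⟩
    · rw [hH] at hv
      exact (Finset.mem_filter.1 hv).1
    · calc U ≤ 2 * ∑ v ∈ H, u v := h5
        _ ≤ 2 * ∑ _w ∈ H, u v := Nat.mul_le_mul_left _ (Finset.sum_le_sum hmax)
        _ = 2 * (H.card * u v) := by rw [Finset.sum_const, smul_eq_mul]
        _ ≤ 2 * (q * u v) := Nat.mul_le_mul_left _ (Nat.mul_le_mul_right _ hc.le)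
        _ = 2 * q * u v := by ring

variable {K : Type*} [Group K] [DecidableEq K]

/-- the element `g` of level `j` can be reached with `p` poor steps and has many descendants for infinitely many
records -/
def AA (S : Finset K) (par : K → K) (b : ℕ) (lam c₁ : ℝ) (q : ℕ) (g : K) (j p : ℕ) : Prop :=
  g ∈ sph S (b * j) ∧ p ≤ j ∧ ∀ N : ℕ, ∃ n, N ≤ n ∧ Rec S lam n ∧
    c₁ * ((S ^ n).card : ℝ) ≤
      (2 * ((S ^ b).card : ℝ)) ^ (j - p) * (2 * (q : ℝ)) ^ p * (dc S par n (b * j) g : ℝ)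

theorem ts_card_pos {S : Finset K} (h1 : (1 : K) ∈ S) (n : ℕ) : (0 : ℝ) < ((S ^ n).card : ℝ) := by
  have h2 : (1 : K) ∈ S ^ n := by
    have h3 := Finset.pow_mem_pow (n := n) h1
    rwa [one_pow] at h3
  exact_mod_cast Finset.card_pos.2 ⟨1, h2⟩

theorem AA_root {S : Finset K} {par : K → K} (h1 : (1 : K) ∈ S) (h : IsPar S par) {b : ℕ}
    {lam c₁ : ℝ} (hl : 1 < lam) (hc0 : 0 < c₁) (hc : c₁ ≤ 1 - 1 / lam)
    (hrec : ∀ N : ℕ, ∃ n, N ≤ n ∧ Rec S lam n) (q : ℕ) : AA S par b lam c₁ q 1 0 0 := by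
  refine ⟨?_, le_rfl, fun N => ?_⟩
  · rw [mul_zero]
    exact Finset.mem_singleton_self _
  · obtain ⟨n, hn, hr⟩ := hrec N
    refine ⟨n, hn, hr, ?_⟩
    rw [mul_zero, dc_root h]
    have h2 := sph_card h1 hl hc n hr
    simpa using h2

theorem AA_step {S : Finset K} {par : K → K} (h1 : (1 : K) ∈ S) (h : IsPar S par) {b : ℕ}
    {lam c₁ : ℝ} (hl : 1 < lam) (hc0 : 0 < c₁) {q : ℕ} (hq : 0 < q) {g : K} {j p : ℕ}
    (hA : AA S par b lam c₁ q g j p) :
    (∃ f : Fin q → K, Function.Injective f ∧ ∀ i, par^[b] (f i) = g ∧ g⁻¹ * f i ∈ S ^ b ∧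
        AA S par b lam c₁ q (f i) (j + 1) p) ∨
      ∃ v, par^[b] v = g ∧ g⁻¹ * v ∈ S ^ b ∧ AA S par b lam c₁ q v (j + 1) (p + 1) := by
  classical
  obtain ⟨hgs, hpj, hinf⟩ := hA
  by_contra hno
  obtain ⟨Ch, hCh⟩ : ∃ Ch, Ch = chd S par b (b * j) g := ⟨_, rfl⟩
  have hmem : ∀ v ∈ Ch, v ∈ sph S (b * (j + 1)) ∧ par^[b] v = g ∧ g⁻¹ * v ∈ S ^ b := by
    intro v hv
    rw [hCh, chd, Finset.mem_filter] at hv
    have h2 := (h.iter (b * j) b v hv.1).2
    rw [hv.2] at h2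
    exact ⟨by rw [Nat.mul_succ]; exact hv.1, hv.2, h2⟩
  have hF : ∀ f : Fin q → {v // v ∈ Ch}, ∃ N, ∀ n, N ≤ n → ¬ (Function.Injective f ∧
      Rec S lam n ∧ ∀ i, c₁ * ((S ^ n).card : ℝ) ≤
        (2 * ((S ^ b).card : ℝ)) ^ (j + 1 - p) * (2 * (q : ℝ)) ^ p *
          (dc S par n (b * (j + 1)) (f i) : ℝ)) := by
    intro f
    by_contra hcon
    have hcon' : ∀ N, ∃ n, N ≤ n ∧ (Function.Injective f ∧
      Rec S lam n ∧ ∀ i, c₁ * ((S ^ n).card : ℝ) ≤
        (2 * ((S ^ b).card : ℝ)) ^ (j + 1 - p) * (2 * (q : ℝ)) ^ p *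
          (dc S par n (b * (j + 1)) (f i) : ℝ)) := by
      intro N
      by_contra h3
      apply hcon
      refine ⟨N, fun n hn h4 => h3 ⟨n, hn, h4⟩⟩
    apply hno
    left
    obtain ⟨_, _, hinj, _⟩ := hcon' 0
    refine ⟨fun i => (f i).1, fun i i' hii => hinj (Subtype.ext hii), fun i => ?_⟩
    obtain ⟨h5, h6, h7⟩ := hmem (f i).1 (f i).2
    refine ⟨h6, h7, h5, by omega, fun N => ?_⟩
    obtain ⟨n, hn, _, hr, hi⟩ := hcon' N
    exact ⟨n, hn, hr, hi i⟩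
  have hV : ∀ v : {v // v ∈ Ch}, ∃ N, ∀ n, N ≤ n → ¬ (Rec S lam n ∧ c₁ * ((S ^ n).card : ℝ) ≤
        (2 * ((S ^ b).card : ℝ)) ^ (j + 1 - (p + 1)) * (2 * (q : ℝ)) ^ (p + 1) *
          (dc S par n (b * (j + 1)) v : ℝ)) := by
    intro v
    by_contra hcon
    apply hno
    right
    obtain ⟨h5, h6, h7⟩ := hmem v.1 v.2
    refine ⟨v.1, h6, h7, h5, by omega, fun N => ?_⟩
    by_contra h3
    apply hcon
    exact ⟨N, fun n hn h4 => h3 ⟨n, hn, h4.1, h4.2⟩⟩
  choose NF hNF using hF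
  choose NV hNV using hV
  obtain ⟨n, hn, hr, hle⟩ := hinf (max (b * (j + 1)) (max (Finset.univ.sup NF) (Finset.univ.sup NV)))
  have hn1 : b * (j + 1) ≤ n := (le_max_left _ _).trans hn
  have hn2 : Finset.univ.sup NF ≤ n := (le_max_left _ _).trans ((le_max_right _ _).trans hn)
  have hn3 : Finset.univ.sup NV ≤ n := (le_max_right _ _).trans ((le_max_right _ _).trans hn)
  have hbj : b * (j + 1) = b * j + b := Nat.mul_succ b j
  have hM0 : (0 : ℝ) < ((S ^ b).card : ℝ) := ts_card_pos h1 b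
  have hq0 : (0 : ℝ) < (q : ℝ) := by exact_mod_cast hq
  have hpos : 0 < c₁ * ((S ^ n).card : ℝ) := mul_pos hc0 (ts_card_pos h1 n)
  have hU : 0 < dc S par n (b * j) g := by
    rcases Nat.eq_zero_or_pos (dc S par n (b * j) g) with h0 | h0
    · rw [h0, Nat.cast_zero, mul_zero] at hle
      exact absurd hle (not_le.2 hpos)
    · exact h0
  have hcoef : (0 : ℝ) ≤ (2 * ((S ^ b).card : ℝ)) ^ (j - p) * (2 * (q : ℝ)) ^ p := by positivity
  rcases heavy Ch (fun v => dc S par n (b * j + b) v) (dc S par n (b * j) g) (S ^ b).card q hq hU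
    (by rw [hCh]; exact dc_split h n (b * j) b (by omega) g)
    (by rw [hCh]; exact chd_card h b (b * j) g) with ⟨f, hinj, hf⟩ | ⟨v, hv, hv2⟩
  · refine hNF (fun i => ⟨f i, (hf i).1⟩) n ((Finset.le_sup (Finset.mem_univ _)).trans hn2)
      ⟨fun i i' hii => hinj (congrArg Subtype.val hii), hr, fun i => ?_⟩
    have h2 : (dc S par n (b * j) g : ℝ) ≤ 2 * ((S ^ b).card : ℝ) *
        (dc S par n (b * (j + 1)) (f i) : ℝ) := by
      rw [hbj]
      exact_mod_cast (hf i).2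
    calc c₁ * ((S ^ n).card : ℝ) ≤ (2 * ((S ^ b).card : ℝ)) ^ (j - p) * (2 * (q : ℝ)) ^ p *
          (dc S par n (b * j) g : ℝ) := hle
      _ ≤ (2 * ((S ^ b).card : ℝ)) ^ (j - p) * (2 * (q : ℝ)) ^ p * (2 * ((S ^ b).card : ℝ) *
        (dc S par n (b * (j + 1)) (f i) : ℝ)) := mul_le_mul_of_nonneg_left h2 hcoef
      _ = _ := by
          rw [show j + 1 - p = (j - p) + 1 by omega, pow_succ]
          ring
  · refine hNV ⟨v, hv⟩ n ((Finset.le_sup (Finset.mem_univ _)).trans hn3) ⟨hr, ?_⟩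
    have h2 : (dc S par n (b * j) g : ℝ) ≤ 2 * (q : ℝ) *
        (dc S par n (b * (j + 1)) v : ℝ) := by
      rw [hbj]
      exact_mod_cast hv2
    calc c₁ * ((S ^ n).card : ℝ) ≤ (2 * ((S ^ b).card : ℝ)) ^ (j - p) * (2 * (q : ℝ)) ^ p *
          (dc S par n (b * j) g : ℝ) := hle
      _ ≤ (2 * ((S ^ b).card : ℝ)) ^ (j - p) * (2 * (q : ℝ)) ^ p * (2 * (q : ℝ) *
        (dc S par n (b * (j + 1)) v : ℝ)) := mul_le_mul_of_nonneg_left h2 hcoef
      _ = _ := by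
          rw [show j + 1 - (p + 1) = j - p by omega, pow_succ]
          ring

theorem AA_dens {S : Finset K} {par : K → K} (h1 : (1 : K) ∈ S) (h : IsPar S par) {b : ℕ}
    {lam c₁ : ℝ} (hl : 1 < lam) {q : ℕ}
    (hd : ∀ j p : ℕ, p ≤ j →
        c₁ * lam ^ (b * j) ≤ (2 * ((S ^ b).card : ℝ)) ^ (j - p) * (2 * (q : ℝ)) ^ p →
          16 * p ≤ j)
    {g : K} {j p : ℕ} (hA : AA S par b lam c₁ q g j p) : 16 * p ≤ j := by
  obtain ⟨hgs, hpj, hinf⟩ := hA
  obtain ⟨n, hn, hr, hle⟩ := hinf (b * j)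
  apply hd j p hpj
  have hcoef : (0 : ℝ) ≤ (2 * ((S ^ b).card : ℝ)) ^ (j - p) * (2 * (q : ℝ)) ^ p := by positivity
  have h2 : (dc S par n (b * j) g : ℝ) ≤ ((S ^ (n - b * j)).card : ℝ) := by
    exact_mod_cast dc_le h n (b * j) hn g
  have h3 := hr (n - b * j) (Nat.sub_le _ _)
  rw [Nat.sub_sub_self hn] at h3
  have h4 : (0 : ℝ) < ((S ^ n).card : ℝ) := ts_card_pos h1 n
  have h5 : (0 : ℝ) ≤ lam ^ (b * j) := by positivity
  refine le_of_mul_le_mul_right ?_ h4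
  calc c₁ * lam ^ (b * j) * ((S ^ n).card : ℝ) = (c₁ * ((S ^ n).card : ℝ)) * lam ^ (b * j) := by
        ring
    _ ≤ ((2 * ((S ^ b).card : ℝ)) ^ (j - p) * (2 * (q : ℝ)) ^ p *
        (dc S par n (b * j) g : ℝ)) * lam ^ (b * j) := mul_le_mul_of_nonneg_right hle h5
    _ ≤ ((2 * ((S ^ b).card : ℝ)) ^ (j - p) * (2 * (q : ℝ)) ^ p *
        ((S ^ (n - b * j)).card : ℝ)) * lam ^ (b * j) :=
        mul_le_mul_of_nonneg_right (mul_le_mul_of_nonneg_left h2 hcoef) h5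
    _ = (2 * ((S ^ b).card : ℝ)) ^ (j - p) * (2 * (q : ℝ)) ^ p *
        (((S ^ (n - b * j)).card : ℝ) * lam ^ (b * j)) := by ring
    _ ≤ (2 * ((S ^ b).card : ℝ)) ^ (j - p) * (2 * (q : ℝ)) ^ p * ((S ^ n).card : ℝ) :=
        mul_le_mul_of_nonneg_left h3 hcoef

end H31.Comm
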