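import Pool.Agent.H31.Comm.Defs

/-!
JOB CS-WF. The invariants of the machine are preserved.

PROOF.
`bounds`: let `L = x_r :: x_(r-1) :: ... :: x_0`. Claim for every level `x` of the list: `4 x.ps ≤ x.w` and `8 x.w ≤ x.tau`.
First implication (*): `4 x.ps ≤ x.w` implies `8 x.w ≤ x.tau`: by `LevOK.acc` (`3 w + b + .. ≤ 4 ps + 4 np`),
`3 w ≤ w + 4 np`, so `w ≤ 2 np`, `8 w ≤ 16 np ≤ length ≤ tau` (`Good.dens`, `LevOK.age`). Top level: `Jtop`. Second level `y`
(below `x`): `4 (y.ps + |y.e|) + x.tau ≤ y.w + 8 x.w` and `8 x.w ≤ x.tau` give `4 y.ps ≤ y.w`. Level `z` below `y` below `x`: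
`4 (z.ps + |z.e| + x.tau) + y.tau ≤ z.w + 8 y.w` and `8 y.w ≤ y.tau` give `4 z.ps ≤ z.w`. Induction down the list with `Jin`.
`step`: cases of the definition of `step`.
* `[x]`, `x' = x.ext'` (`x.b = 0`, `x.e = []`): `x'.b = bk rich 0` is `0` (rich) or `1` (poor). `LevOK x'`: `val`:
  `(T x.c).Val (dig .. :: x.p)` as `dig = 0` at a poor node; `age`; `acc`: rich: unchanged; poor: `4 np` grows by 4 and `b = 1`.
  `Jtop`: `w` unchanged as `x.b = 0`. Push: the new level has all counters 0; `Jtop (new :: x' :: [])`:
  `0 ≤ 0`, `4 (x.ps + 0) + 0 ≤ x.w + 0`.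
* `x :: y :: M`: `x' = x.ext'` as before. `y' = y.slotb`, `y.b > 0`: if `y.e = []` it extends: `acc`: `w` grows by 1 (`3 w` by 3);
  poor: `b` by 1, `np` by 1, total 4 on both sides; rich: `b ↦ b + 1 - 4`, if `b > 3` sum of left side unchanged, if `b ≤ 3` the new
  `b` is 0 and the left side changes by `3 - b - 3 ≤ 0`; if `y.e = _ :: l`: `ps` grows by 1, `b` by 1, `w` by 1: 4 on both sides.
  Levels `z ∈ M` pause: `z.b > 0`: the same, `4` on both sides. `Jtop`/`Jin` after one unit without push and pop: first:
  `x.w` unchanged since `x.b = 0`. Second: `y.ps + |y.e|` unchanged in both cases, `x.tau` grows by 1, `y.w` grows by 1. Third (`z` below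
  `y` below `x`): left side: `z.ps + 1`, `x.tau + 1`, `y.tau + 1`: grows by 9; right side: `z.w + 1`, `8 y.w + 8`: grows by 9. Similarly below.
  Push (`x'.b ≠ 0`, `y'.b ≠ 0`): new level on top with counters 0: `Jtop (new :: x' :: y' :: M')`: `0 ≤ 0`,
  `4 (x'.ps + |x'.e|) + 0 ≤ x'.w + 0` (as `x.e = []` and first inequality), and
  `4 (y'.ps + |y'.e| + 0) + x'.tau ≤ y'.w + 8 x'.w`: the second inequality of before. Colours alternate.
  Pop (`y'.b = 0`): then `y.e = []` (else `y'.b = y.b + 1`), so `y'.e = []`: `Top` holds (`M' = M.map pause` has positive `b`).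
  `Jtop (y' :: addL l M')`: `4 y'.ps ≤ y'.w` from the second inequality after the unit and `8 x'.w ≤ x'.tau` (use `bounds`-type
  argument (*) for `x'`: `x'` satisfies `LevOK` and `4 x'.ps ≤ x'.w`). If `M' = z' :: M''`: second inequality for `(y', z' with debt)`:
  `4 (z'.ps + |l| + |z'.e|) + y'.tau ≤ z'.w + 8 y'.w` follows from the third one since `|l| = |x'.p| ≤ x'.tau`. The `Jin` for
  deeper levels does not involve the debt of `z'`: `Jin y' z'new M''` has the same inequalities as `Jin y' z' M''` (they involve only `w`, `tau` of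
  the two upper levels). Debt letters of `z'`: colour of `z` is the colour of `x` (`Alt`: `y.c = !x.c`, `z.c = !y.c`), and
  `word_mem` gives that the letters of `(T x.c).word x'.p` are in `F x.c`. Colours still alternate: colours do not change.
-/

set_option autoImplicit false

namespace H31.Comm

variable {K : Type*} [Group K] {q : ℕ} [NeZero q] {T : Bool → TD K q} {F : Bool → Finset K}

theorem LevOK.star (hT : ∀ c, (T c).Good (F c)) {x : Lev K q} (h : LevOK T F x)
    (h4 : 4 * x.ps ≤ x.w) : 8 * x.w ≤ x.tau := by
  have h1 := h.acc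
  have h2 := (hT x.c).dens x.p h.val
  have h3 := h.age
  split_ifs at h1 <;> omega

theorem Jin.bounds (hT : ∀ c, (T c).Good (F c)) :
    ∀ (M : List (Lev K q)) (x y : Lev K q), (∀ z ∈ M, LevOK T F z) → 8 * y.w ≤ y.tau →
      Jin x y M → ∀ z ∈ M, 4 * z.ps ≤ z.w ∧ 8 * z.w ≤ z.tau := by
  intro M
  induction M with
  | nil => intro x y _ _ _ z hz; simp at hz
  | cons z M ih =>
    intro x y hM hy hJ u hu
    obtain ⟨h1, h2⟩ := hJ
    have h3 : 4 * z.ps ≤ z.w := by omega
    have h4 : 8 * z.w ≤ z.tau := (hM z (by simp)).star hT h3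
    rcases List.mem_cons.1 hu with rfl | hu
    · exact ⟨h3, h4⟩
    · exact ih y z (fun v hv => hM v (by simp [hv])) h4 h2 u hu

theorem LevOK.ext' {x : Lev K q} (h : LevOK T F x) (d : Fin q) : LevOK T F (x.ext' T d) := by
  constructor
  · show (T x.c).Val ((T x.c).dig x.p d :: x.p)
    refine ⟨h.val, ?_⟩
    intro hr
    simp [TD.dig, hr]
  · exact h.deb
  · show x.tau + 1 = (_ :: x.p).length + x.ps
    have := h.age
    simp only [List.length_cons]
    omega
  · show 3 * (x.w + (if x.b = 0 then 0 else 1)) + bk ((T x.c).rich x.p) x.b +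
      (if bk ((T x.c).rich x.p) x.b = 0 then 0 else 3) ≤
        4 * x.ps + 4 * ((T x.c).np x.p + if (T x.c).rich x.p then 0 else 1)
    have h1 := h.acc
    unfold bk
    split_ifs at h1 ⊢ <;> omega

theorem LevOK.pause {x : Lev K q} (h : LevOK T F x) : LevOK T F x.pause := by
  constructor
  · exact h.val
  · exact h.deb
  · show x.tau + 1 = x.p.length + (x.ps + 1)
    have := h.age
    omega
  · show 3 * (x.w + (if x.b = 0 then 0 else 1)) + (x.b + 1) +
      (if x.b + 1 = 0 then 0 else 3) ≤ 4 * (x.ps + 1) + 4 * (T x.c).np x.p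
    have h1 := h.acc
    split_ifs at h1 ⊢ <;> omega

theorem LevOK.slotb {x : Lev K q} (h : LevOK T F x) (d : Fin q) :
    LevOK T F (x.slotb T d) := by
  rcases x with ⟨c, p, e, b, tau, w, ps⟩
  cases e with
  | nil => exact h.ext' d
  | cons a l =>
    have h2 := h.pause
    refine ⟨h.val, ?_, h2.age, h2.acc⟩
    intro y hy
    exact h.deb y (List.mem_cons_of_mem _ hy)

theorem LevOK.setE {x : Lev K q} (h : LevOK T F x) (l : List K) (hl : ∀ y ∈ l, y ∈ F x.c) :
    LevOK T F { x with e := l ++ x.e } := by
  refine ⟨h.val, ?_, h.age, h.acc⟩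
  intro y hy
  rcases List.mem_append.1 hy with hy | hy
  · exact hl y hy
  · exact h.deb y hy

theorem LevOK.new (c : Bool) : LevOK T F (Lev.new K q c) := by
  refine ⟨trivial, ?_, rfl, ?_⟩
  · intro y hy
    simp [Lev.new] at hy
  · simp [Lev.new]

theorem slotb_c (x : Lev K q) (d : Fin q) : (x.slotb T d).c = x.c := by
  rcases x with ⟨c, p, e, b, tau, w, ps⟩
  cases e <;> rfl

theorem slotb_tau (x : Lev K q) (d : Fin q) : (x.slotb T d).tau = x.tau + 1 := by
  rcases x with ⟨c, p, e, b, tau, w, ps⟩
  cases e <;> rfl

theorem slotb_w (x : Lev K q) (d : Fin q) (hb : 0 < x.b) : (x.slotb T d).w = x.w + 1 := by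
  rcases x with ⟨c, p, e, b, tau, w, ps⟩
  have hb' : b ≠ 0 := by
    have : 0 < b := hb
    omega
  cases e
  · show w + (if b = 0 then 0 else 1) = w + 1
    rw [if_neg hb']
  · show w + (if b = 0 then 0 else 1) = w + 1
    rw [if_neg hb']

theorem slotb_ps (x : Lev K q) (d : Fin q) :
    (x.slotb T d).ps + (x.slotb T d).e.length = x.ps + x.e.length := by
  rcases x with ⟨c, p, e, b, tau, w, ps⟩
  cases e with
  | nil => rfl
  | cons a l =>
    show (ps + 1) + l.length = ps + (a :: l).length
    simp only [List.length_cons]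
    omega

theorem slotb_zero (x : Lev K q) (d : Fin q) (h : (x.slotb T d).b = 0) :
    (x.slotb T d).e = [] := by
  rcases x with ⟨c, p, e, b, tau, w, ps⟩
  cases e with
  | nil => rfl
  | cons a l =>
    have : b + 1 = 0 := h
    omega

theorem Alt.congr : ∀ (L L' : List (Lev K q)), L.map Lev.c = L'.map Lev.c → Alt L → Alt L' := by
  intro L
  induction L with
  | nil =>
    intro L' h _
    cases L' with
    | nil => trivial
    | cons a l => simp at h
  | cons x M ih =>
    intro L' h hA
    cases L' with
    | nil => simp at h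
    | cons x' M' =>
      have h1 : x.c = x'.c := by simpa using (List.cons.inj (by simpa using h)).1
      have h2 : M.map Lev.c = M'.map Lev.c := by simpa using (List.cons.inj (by simpa using h)).2
      cases M with
      | nil =>
        cases M' with
        | nil => trivial
        | cons a l => simp at h2
      | cons y N =>
        cases M' with
        | nil => simp at h2
        | cons y' N' =>
          have h3 : y.c = y'.c := by simpa using (List.cons.inj (by simpa using h2)).1
          refine ⟨?_, ih (y' :: N') h2 hA.2⟩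
          rw [← h3, ← h1]
          exact hA.1

theorem Jin.map_pause : ∀ (M : List (Lev K q)) (x y x' y' : Lev K q),
    x'.tau = x.tau + 1 → y'.tau = y.tau + 1 → y'.w = y.w + 1 → (∀ z ∈ M, 0 < z.b) →
      Jin x y M → Jin x' y' (M.map Lev.pause) := by
  intro M
  induction M with
  | nil => intro x y x' y' _ _ _ _ _; trivial
  | cons z M ih =>
    intro x y x' y' hx hy hw hb hJ
    obtain ⟨h1, h2⟩ := hJ
    have hz : 0 < z.b := hb z (by simp)
    have hw' : z.pause.w = z.w + 1 := by
      show z.w + (if z.b = 0 then 0 else 1) = z.w + 1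
      rw [if_neg (by omega)]
    refine ⟨?_, ih y z y' z.pause hy rfl hw' (fun v hv => hb v (by simp [hv])) h2⟩
    show 4 * ((z.ps + 1) + z.e.length + x'.tau) + y'.tau ≤ z.pause.w + 8 * y'.w
    rw [hw', hx, hy, hw]
    omega

theorem Jin.congr {M : List (Lev K q)} {x y y' : Lev K q} (h1 : y.w = y'.w)
    (h2 : y.tau = y'.tau) (h : Jin x y M) : Jin x y' M := by
  induction M generalizing x y y' with
  | nil => trivial
  | cons z M ih =>
    obtain ⟨h3, h4⟩ := h
    refine ⟨?_, ?_⟩
    · rw [← h1, ← h2]; exact h3
    · cases M with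
      | nil => trivial
      | cons u N =>
        obtain ⟨h5, h6⟩ := h4
        exact ⟨by rw [← h2]; exact h5, h6⟩

theorem word_length (T : TD K q) (t : List (Fin q)) : (T.word t).length = t.length := by
  induction t with
  | nil => rfl
  | cons d t ih => simp [TD.word, ih]

theorem WF.bounds (hT : ∀ c, (T c).Good (F c)) {S : St K q} (h : WF T F S) :
    ∀ x ∈ S.L, 4 * x.ps ≤ x.w ∧ 8 * x.w ≤ x.tau := by
  rcases S with ⟨g, L⟩
  obtain ⟨top, alt, lev, acc⟩ := h
  cases L with
  | nil => intro x hx; simp at hx
  | cons x L =>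
    cases L with
    | nil =>
      intro z hz
      have hz' : z = x := by simpa using hz
      subst hz'
      have h1 : 4 * z.ps ≤ z.w := acc
      exact ⟨h1, (lev z (by simp)).star hT h1⟩
    | cons y M =>
      obtain ⟨h1, h2, h3⟩ := (acc : 4 * x.ps ≤ x.w ∧
        4 * (y.ps + y.e.length) + x.tau ≤ y.w + 8 * x.w ∧ Jin x y M)
      have h4 : 8 * x.w ≤ x.tau := (lev x (by simp)).star hT h1
      have h5 : 4 * y.ps ≤ y.w := by omega
      have h6 : 8 * y.w ≤ y.tau := (lev y (by simp)).star hT h5
      intro z hz
      rcases List.mem_cons.1 hz with rfl | hz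
      · exact ⟨h1, h4⟩
      rcases List.mem_cons.1 hz with rfl | hz
      · exact ⟨h5, h6⟩
      · exact Jin.bounds hT M x y (fun v hv => lev v (by simp [hv])) h6 h3 z hz

theorem WF.init : WF T F ⟨1, [Lev.new K q false]⟩ := by
  refine ⟨⟨rfl, rfl, ?_⟩, trivial, ?_, ?_⟩
  · intro y hy
    simp at hy
  · intro x hx
    have : x = Lev.new K q false := by simpa using hx
    subst this
    exact LevOK.new false
  · show 4 * 0 ≤ 0
    omega

theorem WF.step (hT : ∀ c, (T c).Good (F c)) {S : St K q} (h : WF T F S) (d : Fin q × Fin q) :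
    WF T F (step T S d) := by
  rcases S with ⟨g, L⟩
  obtain ⟨top, alt, lev, acc⟩ := h
  cases L with
  | nil => exact top.elim
  | cons x L =>
    have hxb : x.b = 0 := top.1
    have hxe : x.e = [] := top.2.1
    have hx' : LevOK T F (x.ext' T d.1) := (lev x (by simp)).ext' d.1
    have hxw : (x.ext' T d.1).w = x.w := by
      show x.w + (if x.b = 0 then 0 else 1) = x.w
      rw [if_pos hxb, Nat.add_zero]
    have hxe' : (x.ext' T d.1).e = [] := hxe
    have hxps : (x.ext' T d.1).ps = x.ps := rfl
    have hxtau : (x.ext' T d.1).tau = x.tau + 1 := rfl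
    have hxc : (x.ext' T d.1).c = x.c := rfl
    cases L with
    | nil =>
      have acc' : 4 * x.ps ≤ x.w := acc
      show WF T F (if (x.ext' T d.1).b = 0 then ⟨g, [x.ext' T d.1]⟩
        else ⟨g, [Lev.new K q (!x.c), x.ext' T d.1]⟩)
      split_ifs with hb
      · refine ⟨⟨hb, hxe', ?_⟩, trivial, ?_, ?_⟩
        · intro y hy
          simp at hy
        · intro y hy
          have : y = x.ext' T d.1 := by simpa using hy
          rw [this]; exact hx'
        · show 4 * (x.ext' T d.1).ps ≤ (x.ext' T d.1).w
          rw [hxw, hxps]; exact acc'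
      · refine ⟨⟨rfl, rfl, ?_⟩, ⟨?_, trivial⟩, ?_, ?_⟩
        · intro y hy
          have : y = x.ext' T d.1 := by simpa using hy
          rw [this]; omega
        · show x.c = !(!x.c)
          simp
        · intro y hy
          rcases List.mem_cons.1 hy with rfl | hy
          · exact LevOK.new _
          · have : y = x.ext' T d.1 := by simpa using hy
            rw [this]; exact hx'
        · refine ⟨?_, ?_, trivial⟩
          · show 4 * 0 ≤ 0
            omega
          · show 4 * ((x.ext' T d.1).ps + (x.ext' T d.1).e.length) + 0 ≤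
              (x.ext' T d.1).w + 8 * 0
            rw [hxw, hxps, hxe']
            simp only [List.length_nil]
            omega
    | cons y M =>
      obtain ⟨h1, h2, h3⟩ := (acc : 4 * x.ps ≤ x.w ∧
        4 * (y.ps + y.e.length) + x.tau ≤ y.w + 8 * x.w ∧ Jin x y M)
      have hMb : ∀ z ∈ M, 0 < z.b := fun z hz => top.2.2 z (by simp [hz])
      have hyb : 0 < y.b := top.2.2 y (by simp)
      have hy' : LevOK T F (y.slotb T d.2) := (lev y (by simp)).slotb d.2
      have hyw := slotb_w (T := T) y d.2 hyb
      have hyps := slotb_ps (T := T) y d.2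
      have hytau := slotb_tau (T := T) y d.2
      have hyc := slotb_c (T := T) y d.2
      have hM' : ∀ z ∈ M.map Lev.pause, LevOK T F z := by
        intro z hz
        obtain ⟨u, hu, rfl⟩ := List.mem_map.1 hz
        exact (lev u (by simp [hu])).pause
      have hM'b : ∀ z ∈ M.map Lev.pause, 0 < z.b := by
        intro z hz
        obtain ⟨u, hu, rfl⟩ := List.mem_map.1 hz
        show 0 < u.b + 1
        omega
      have hJ : Jin (x.ext' T d.1) (y.slotb T d.2) (M.map Lev.pause) :=
        Jin.map_pause M x y _ _ hxtau hytau hyw hMb h3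
      have hMc : (M.map Lev.pause).map Lev.c = M.map Lev.c := by
        rw [List.map_map]
        rfl
      have hA : Alt (x.ext' T d.1 :: y.slotb T d.2 :: M.map Lev.pause) := by
        refine Alt.congr _ _ ?_ alt
        simp only [List.map_cons, hxc, hyc, hMc]
      have h2' : 4 * ((y.slotb T d.2).ps + (y.slotb T d.2).e.length) + (x.ext' T d.1).tau ≤
          (y.slotb T d.2).w + 8 * (x.ext' T d.1).w := by
        rw [hyps, hxtau, hyw, hxw]
        omega
      have h1' : 4 * (x.ext' T d.1).ps ≤ (x.ext' T d.1).w := by
        rw [hxw, hxps]; exact h1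
      have h8 := hx'.star hT h1'
      show WF T F (if (y.slotb T d.2).b = 0 then
        ⟨addg ((T x.c).word (x.ext' T d.1).p) g M,
          y.slotb T d.2 :: addL ((T x.c).word (x.ext' T d.1).p) (M.map Lev.pause)⟩
        else if (x.ext' T d.1).b = 0 then
          ⟨g, x.ext' T d.1 :: y.slotb T d.2 :: M.map Lev.pause⟩
        else ⟨g, Lev.new K q (!x.c) :: x.ext' T d.1 :: y.slotb T d.2 :: M.map Lev.pause⟩)
      split_ifs with hb hb2
      · have he : (y.slotb T d.2).e = [] := slotb_zero y d.2 hb
        have h5 : 4 * (y.slotb T d.2).ps ≤ (y.slotb T d.2).w := by omega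
        cases hM : M.map Lev.pause with
        | nil =>
          refine ⟨⟨hb, he, ?_⟩, trivial, ?_, h5⟩
          · intro z hz
            simp [addL] at hz
          · intro z hz
            have : z = y.slotb T d.2 := by simpa [addL] using hz
            rw [this]; exact hy'
        | cons z N =>
          rw [hM] at hJ hA hM' hM'b
          obtain ⟨h6, h7⟩ := hJ
          have hzc : z.c = x.c := by
            have a1 : (y.slotb T d.2).c = !(x.ext' T d.1).c := hA.1
            have a2 : z.c = !(y.slotb T d.2).c := hA.2.1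
            rw [a2, a1, hxc]
            simp
          have hlen : ((T x.c).word (x.ext' T d.1).p).length ≤ (x.ext' T d.1).tau := by
            rw [word_length, hx'.age]
            omega
          refine ⟨⟨hb, he, ?_⟩, ?_, ?_, ?_⟩
          · intro u hu
            rcases List.mem_cons.1 hu with rfl | hu
            · exact hM'b z (by simp)
            · exact hM'b u (by simp [hu])
          · refine Alt.congr (y.slotb T d.2 :: z :: N) _ ?_ hA.2
            simp [addL]
          · intro u hu
            rcases List.mem_cons.1 hu with rfl | hu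
            · exact hy'
            rcases List.mem_cons.1 hu with rfl | hu
            · refine (hM' z (by simp)).setE _ ?_
              intro v hv
              rw [hzc]
              exact TD.word_mem (hT x.c) _ hx'.val v hv
            · exact hM' u (by simp [hu])
          · refine ⟨h5, ?_, ?_⟩
            · show 4 * (z.ps + ((T x.c).word (x.ext' T d.1).p ++ z.e).length) +
                (y.slotb T d.2).tau ≤ z.w + 8 * (y.slotb T d.2).w
              rw [List.length_append]
              omega
            · exact Jin.congr (y := z)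
                (y' := { z with e := (T x.c).word (x.ext' T d.1).p ++ z.e }) rfl rfl h7
      · refine ⟨⟨hb2, hxe', ?_⟩, hA, ?_, ⟨h1', h2', hJ⟩⟩
        · intro u hu
          rcases List.mem_cons.1 hu with rfl | hu
          · omega
          · exact hM'b u hu
        · intro u hu
          rcases List.mem_cons.1 hu with rfl | hu
          · exact hx'
          rcases List.mem_cons.1 hu with rfl | hu
          · exact hy'
          · exact hM' u hu
      · refine ⟨⟨rfl, rfl, ?_⟩, ⟨?_, hA⟩, ?_, ?_⟩
        · intro u hu
          rcases List.mem_cons.1 hu with rfl | hu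
          · omega
          rcases List.mem_cons.1 hu with rfl | hu
          · omega
          · exact hM'b u hu
        · show x.c = !(!x.c)
          simp
        · intro u hu
          rcases List.mem_cons.1 hu with rfl | hu
          · exact LevOK.new _
          rcases List.mem_cons.1 hu with rfl | hu
          · exact hx'
          rcases List.mem_cons.1 hu with rfl | hu
          · exact hy'
          · exact hM' u hu
        · refine ⟨?_, ?_, ?_, hJ⟩
          · show 4 * 0 ≤ 0
            omega
          · show 4 * ((x.ext' T d.1).ps + (x.ext' T d.1).e.length) + 0 ≤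
              (x.ext' T d.1).w + 8 * 0
            rw [hxw, hxps, hxe']
            simp only [List.length_nil]
            omega
          · show 4 * ((y.slotb T d.2).ps + (y.slotb T d.2).e.length + 0) + (x.ext' T d.1).tau ≤
              (y.slotb T d.2).w + 8 * (x.ext' T d.1).w
            omega

end H31.Comm
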